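import Mathlib

set_option autoImplicit false

namespace Pool.Agent.W_MP_af6696_nt

open Finset

/-- Admissible sets of parts: all elements allowed, all ordered pairs compatible. -/
def Adm (al : ℕ → Prop) (ok : ℕ → ℕ → Prop) (S : Finset ℕ) : Prop :=
  (∀ x ∈ S, al x) ∧ ∀ x ∈ S, ∀ y ∈ S, x < y → ok x y

theorem Adm.mono {al : ℕ → Prop} {ok : ℕ → ℕ → Prop} {S T : Finset ℕ} (h : Adm al ok T)
    (hST : S ⊆ T) : Adm al ok S :=
  ⟨fun x hx => h.1 x (hST hx), fun x hx y hy => h.2 x (hST hx) y (hST hy)⟩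

open Classical in
/-- Sum of `z ^ (sum of S)` over all `S ⊆ [1, m]` such that `S ∪ B` is admissible. -/
noncomputable def Z {R : Type*} [CommSemiring R] (al : ℕ → Prop) (ok : ℕ → ℕ → Prop) (z : R) :
    ℕ → Finset ℕ → R
  | 0, B => if Adm al ok B then 1 else 0
  | m + 1, B => Z al ok z m B + z ^ (m + 1) * Z al ok z m (insert (m + 1) B)

section general

variable {R : Type*} [CommSemiring R] (al : ℕ → Prop) (ok : ℕ → ℕ → Prop)

open Classical in
theorem Z_eq_sum (z : R) (m : ℕ) (B : Finset ℕ) :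
    Z al ok z m B = ∑ S ∈ (Icc 1 m).powerset, if Adm al ok (S ∪ B) then z ^ (∑ x ∈ S, x) else 0 := by
  induction m generalizing B with
  | zero => simp [Z]
  | succ m ih =>
    rw [Z, ih, ih]
    have h1 : Icc 1 (m + 1) = insert (m + 1) (Icc 1 m) := by
      ext x; simp only [mem_Icc, mem_insert]; omega
    rw [h1, Finset.sum_powerset_insert (by simp)]
    congr 1
    rw [Finset.mul_sum]
    refine Finset.sum_congr rfl fun S hS => ?_
    have hm : m + 1 ∉ S := by
      intro h
      have := mem_powerset.mp hS h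
      simp at this
    have h2 : insert (m + 1) S ∪ B = S ∪ insert (m + 1) B := by
      ext x; simp only [mem_union, mem_insert]; tauto
    rw [h2, Finset.sum_insert hm, pow_add z (m + 1) (∑ x ∈ S, x)]
    split_ifs <;> simp

theorem Z_add (z : R) (m d : ℕ) (B : Finset ℕ) :
    Z al ok z (m + d) B =
      ∑ I ∈ (Ioc m (m + d)).powerset, z ^ (∑ x ∈ I, x) * Z al ok z m (I ∪ B) := by
  induction d generalizing B with
  | zero => simp
  | succ d ih =>
    have h1 : Ioc m (m + (d + 1)) = insert (m + d + 1) (Ioc m (m + d)) := by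
      ext x; simp only [mem_Ioc, mem_insert]; omega
    rw [← add_assoc, Z, ih, ih, add_assoc, h1, Finset.sum_powerset_insert (by simp)]
    congr 1
    rw [Finset.mul_sum]
    refine Finset.sum_congr rfl fun S hS => ?_
    have hm : m + d + 1 ∉ S := by
      intro h
      have := mem_powerset.mp hS h
      simp only [mem_Ioc] at this
      omega
    have h2 : insert (m + d + 1) S ∪ B = S ∪ insert (m + d + 1) B := by
      ext x; simp only [mem_union, mem_insert]; tauto
    rw [h2, Finset.sum_insert hm, pow_add z (m + d + 1) (∑ x ∈ S, x), add_assoc m d 1]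
    ring

theorem Adm_insert_far {L : ℕ} (hfar : ∀ x y, x + L ≤ y → ok x y) (hL : 0 < L) {c : ℕ}
    (hc : al c) {B : Finset ℕ} (hB : ∀ x ∈ B, x + L ≤ c ∨ c + L ≤ x) :
    Adm al ok (insert c B) ↔ Adm al ok B := by
  constructor
  · intro h
    exact h.mono (Finset.subset_insert _ _)
  · intro h
    refine ⟨fun x hx => ?_, fun x hx y hy hxy => ?_⟩
    · rcases mem_insert.mp hx with hx' | hx'
      · exact hx' ▸ hc
      · exact h.1 x hx'
    · rcases mem_insert.mp hx with hx' | hx' <;> rcases mem_insert.mp hy with hy' | hy'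
      · omega
      · apply hfar
        rcases hB y hy' with h1 | h1 <;> omega
      · apply hfar
        rcases hB x hx' with h1 | h1 <;> omega
      · exact h.2 x hx' y hy' hxy

theorem Z_insert_far {L : ℕ} (hfar : ∀ x y, x + L ≤ y → ok x y) (hL : 0 < L) {c : ℕ}
    (hc : al c) (z : R) (m : ℕ) (hm : m + L ≤ c) (B : Finset ℕ)
    (hB : ∀ x ∈ B, x + L ≤ c ∨ c + L ≤ x) :
    Z al ok z m (insert c B) = Z al ok z m B := by
  classical
  induction m generalizing B with
  | zero =>
    simp only [Z]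
    rw [if_congr (Adm_insert_far al ok hfar hL hc hB) rfl rfl]
  | succ m ih =>
    rw [Z, Z, ih (by omega) B hB, Finset.insert_comm, ih (by omega)]
    intro x hx
    rcases mem_insert.mp hx with rfl | hx
    · left; omega
    · exact hB x hx

end general

section real

variable (al : ℕ → Prop) (ok : ℕ → ℕ → Prop)

theorem Z_nonneg {r : ℝ} (hr : 0 ≤ r) (m : ℕ) (B : Finset ℕ) : 0 ≤ Z al ok r m B := by
  classical
  induction m generalizing B with
  | zero => simp only [Z]; split_ifs <;> norm_num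
  | succ m ih =>
    rw [Z]
    have h1 := ih B
    have h2 := ih (insert (m + 1) B)
    positivity

theorem Z_anti {r : ℝ} (hr : 0 ≤ r) (m : ℕ) (B B' : Finset ℕ) (h : B ⊆ B') :
    Z al ok r m B' ≤ Z al ok r m B := by
  classical
  induction m generalizing B B' with
  | zero =>
    simp only [Z]
    by_cases h1 : Adm al ok B'
    · simp [h1, h1.mono h]
    · simp only [h1, if_false]; split_ifs <;> norm_num
  | succ m ih =>
    rw [Z, Z]
    have h1 := ih B B' h
    have h2 := ih (insert (m + 1) B) (insert (m + 1) B') (Finset.insert_subset_insert _ h)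
    have h3 : 0 ≤ r ^ (m + 1) := by positivity
    nlinarith [mul_le_mul_of_nonneg_left h2 h3]

theorem Z_add_le {r : ℝ} (hr : 0 ≤ r) (hr1 : r ≤ 1) (m d : ℕ) (B : Finset ℕ) :
    Z al ok r (m + d) B ≤ 2 ^ d * Z al ok r m B := by
  rw [Z_add]
  calc ∑ I ∈ (Ioc m (m + d)).powerset, r ^ (∑ x ∈ I, x) * Z al ok r m (I ∪ B)
      ≤ ∑ _I ∈ (Ioc m (m + d)).powerset, Z al ok r m B := by
        apply Finset.sum_le_sum
        intro I _
        have h1 : Z al ok r m (I ∪ B) ≤ Z al ok r m B := Z_anti al ok hr m _ _ subset_union_right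
        have h2 : r ^ (∑ x ∈ I, x) ≤ 1 := pow_le_one₀ hr hr1
        have h3 : 0 ≤ Z al ok r m (I ∪ B) := Z_nonneg al ok hr m _
        nlinarith
    _ = 2 ^ d * Z al ok r m B := by
        rw [Finset.sum_const, card_powerset, Nat.card_Ioc]
        simp

theorem Z_le_prod {r : ℝ} (hr : 0 ≤ r) (m : ℕ) (B : Finset ℕ) :
    Z al ok r m B ≤ ∏ k ∈ range m, (1 + r ^ (k + 1)) := by
  classical
  induction m generalizing B with
  | zero => simp only [Z]; split_ifs <;> simp
  | succ m ih =>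
    rw [Z, Finset.prod_range_succ]
    have h1 := ih B
    have h2 := ih (insert (m + 1) B)
    have h3 : 0 ≤ r ^ (m + 1) := by positivity
    nlinarith [mul_le_mul_of_nonneg_left h2 h3]

end real

/-! ### The block estimate for complex arguments -/

section complex

variable (al : ℕ → Prop) (ok : ℕ → ℕ → Prop)

/-- The estimate to be propagated. -/
def Est (z : ℂ) (m : ℕ) (δ : ℝ) : Prop :=
  ∀ B : Finset ℕ, (∀ x ∈ B, m < x) → ‖Z al ok z m B‖ ≤ δ * Z al ok ‖z‖ m B

theorem Est.zero (z : ℂ) : Est al ok z 0 1 := by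
  classical
  intro B _
  simp only [Z]
  split_ifs <;> simp

theorem Est.succ {z : ℂ} {m : ℕ} {δ : ℝ} (h : Est al ok z m δ) : Est al ok z (m + 1) δ := by
  intro B hB
  rw [Z, Z]
  have h1 := h B (fun x hx => by have := hB x hx; omega)
  have h2 := h (insert (m + 1) B) (fun x hx => by
    rcases mem_insert.mp hx with rfl | hx
    · omega
    · have := hB x hx; omega)
  calc ‖Z al ok z m B + z ^ (m + 1) * Z al ok z m (insert (m + 1) B)‖
      ≤ ‖Z al ok z m B‖ + ‖z ^ (m + 1) * Z al ok z m (insert (m + 1) B)‖ := norm_add_le _ _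
    _ = ‖Z al ok z m B‖ + ‖z‖ ^ (m + 1) * ‖Z al ok z m (insert (m + 1) B)‖ := by
        rw [norm_mul, norm_pow]
    _ ≤ δ * Z al ok ‖z‖ m B + ‖z‖ ^ (m + 1) * (δ * Z al ok ‖z‖ m (insert (m + 1) B)) := by
        gcongr
    _ = δ * (Z al ok ‖z‖ m B + ‖z‖ ^ (m + 1) * Z al ok ‖z‖ m (insert (m + 1) B)) := by ring

theorem Est.add {z : ℂ} {m : ℕ} {δ : ℝ} (h : Est al ok z m δ) (d : ℕ) :
    Est al ok z (m + d) δ := by
  induction d with
  | zero => exact h
  | succ d ih => exact ih.succ

theorem Est.mono {z : ℂ} {m : ℕ} {δ δ' : ℝ} (h : Est al ok z m δ) (hδ : δ ≤ δ') :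
    Est al ok z m δ' := by
  intro B hB
  exact (h B hB).trans (mul_le_mul_of_nonneg_right hδ (Z_nonneg al ok (norm_nonneg _) _ _))

/-- One block gains a factor. -/
theorem Est.block {L : ℕ} (hfar : ∀ x y, x + L ≤ y → ok x y) (hL : 0 < L) {z : ℂ} {m : ℕ} {δ : ℝ}
    (hz : ‖z‖ ≤ 1) (hδ : 0 ≤ δ) (h : Est al ok z m δ) (hc : al (m + L)) :
    Est al ok z (m + (2 * L - 1))
      (δ * (1 - (1 + ‖z‖ ^ (m + L) - ‖1 + z ^ (m + L)‖) / 2 ^ (2 * L - 1))) := by
  classical
  intro B hB
  set s := 2 * L - 1 with hs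
  set c := m + L with hc'
  set r := ‖z‖ with hr
  have hr0 : 0 ≤ r := norm_nonneg _
  have hBc : ∀ x ∈ B, c + L ≤ x := by
    intro x hx
    have := hB x hx
    omega
  set P := (Ioc m (m + s)).powerset with hP
  have hempty : (∅ : Finset ℕ) ∈ P := Finset.empty_mem_powerset _
  have hsingle : ({c} : Finset ℕ) ∈ P.erase ∅ := by
    rw [mem_erase, hP, mem_powerset, singleton_subset_iff, mem_Ioc]
    exact ⟨singleton_ne_empty c, by omega, by omega⟩
  have hsame : ∀ w : ℂ, Z al ok w m ({c} ∪ B) = Z al ok w m B := by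
    intro w
    have : ({c} : Finset ℕ) ∪ B = insert c B := rfl
    rw [this]
    exact Z_insert_far al ok hfar hL hc w m (by omega) B (fun x hx => Or.inr (hBc x hx))
  have hsame' : ∀ w : ℝ, Z al ok w m ({c} ∪ B) = Z al ok w m B := by
    intro w
    have : ({c} : Finset ℕ) ∪ B = insert c B := rfl
    rw [this]
    exact Z_insert_far al ok hfar hL hc w m (by omega) B (fun x hx => Or.inr (hBc x hx))
  -- bound for a general term
  have hterm : ∀ I ∈ P, ‖z ^ (∑ x ∈ I, x) * Z al ok z m (I ∪ B)‖ ≤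
      δ * (r ^ (∑ x ∈ I, x) * Z al ok r m (I ∪ B)) := by
    intro I hI
    rw [norm_mul, norm_pow]
    have h1 := h (I ∪ B) (by
      intro x hx
      rcases mem_union.mp hx with hx | hx
      · have := mem_Ioc.mp (mem_powerset.mp hI hx)
        omega
      · have := hB x hx; omega)
    calc r ^ (∑ x ∈ I, x) * ‖Z al ok z m (I ∪ B)‖
        ≤ r ^ (∑ x ∈ I, x) * (δ * Z al ok r m (I ∪ B)) := by gcongr
      _ = _ := by ring
  have hz1 : Z al ok z (m + s) B = (1 + z ^ c) * Z al ok z m B +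
      ∑ I ∈ (P.erase ∅).erase {c}, z ^ (∑ x ∈ I, x) * Z al ok z m (I ∪ B) := by
    rw [Z_add, ← hP, ← Finset.add_sum_erase P _ hempty, ← Finset.add_sum_erase _ _ hsingle, hsame]
    simp only [sum_empty, pow_zero, empty_union, sum_singleton]
    ring
  have hr1 : Z al ok r (m + s) B = (1 + r ^ c) * Z al ok r m B +
      ∑ I ∈ (P.erase ∅).erase {c}, r ^ (∑ x ∈ I, x) * Z al ok r m (I ∪ B) := by
    rw [Z_add, ← hP, ← Finset.add_sum_erase P _ hempty, ← Finset.add_sum_erase _ _ hsingle, hsame']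
    simp only [sum_empty, pow_zero, empty_union, sum_singleton]
    ring
  have hB0 := h B (fun x hx => by have := hB x hx; omega)
  have hup : ‖Z al ok z (m + s) B‖ ≤ δ * (‖1 + z ^ c‖ * Z al ok r m B) +
      δ * ∑ I ∈ (P.erase ∅).erase {c}, r ^ (∑ x ∈ I, x) * Z al ok r m (I ∪ B) := by
    rw [hz1]
    refine (norm_add_le _ _).trans ?_
    refine add_le_add ?_ ?_
    · rw [norm_mul]
      calc ‖1 + z ^ c‖ * ‖Z al ok z m B‖ ≤ ‖1 + z ^ c‖ * (δ * Z al ok r m B) := by gcongr
        _ = _ := by ring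
    · refine (norm_sum_le _ _).trans ?_
      rw [Finset.mul_sum]
      apply Finset.sum_le_sum
      intro I hI
      exact hterm I (mem_of_mem_erase (mem_of_mem_erase hI))
  have hgain : ‖1 + z ^ c‖ ≤ 1 + r ^ c := by
    refine (norm_add_le _ _).trans ?_
    rw [norm_pow, norm_one]
  have hle := Z_add_le al ok hr0 hz m s B
  have h2s : (0 : ℝ) < 2 ^ s := by positivity
  have hlow : Z al ok r (m + s) B / 2 ^ s ≤ Z al ok r m B := by
    rw [div_le_iff₀ h2s]; linarith
  have hZ : 0 ≤ Z al ok r m B := Z_nonneg al ok hr0 m B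
  set κ := 1 + r ^ c - ‖1 + z ^ c‖ with hκ
  have hκ0 : 0 ≤ κ := by rw [hκ]; linarith
  calc ‖Z al ok z (m + s) B‖ ≤ δ * (‖1 + z ^ c‖ * Z al ok r m B) +
      δ * ∑ I ∈ (P.erase ∅).erase {c}, r ^ (∑ x ∈ I, x) * Z al ok r m (I ∪ B) := hup
    _ = δ * (Z al ok r (m + s) B - κ * Z al ok r m B) := by rw [hr1, hκ]; ring
    _ ≤ δ * (Z al ok r (m + s) B - κ * (Z al ok r (m + s) B / 2 ^ s)) := by gcongr
    _ = δ * (1 - κ / 2 ^ s) * Z al ok r (m + s) B := by ring

/-- weight of the gain at the centre `c` -/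
noncomputable def gw (al : ℕ → Prop) (r θ : ℝ) (c : ℕ) : ℝ :=
  open Classical in if al c then r ^ c * (1 - Real.cos (c * θ)) else 0

theorem gw_nonneg {r θ : ℝ} (hr : 0 ≤ r) (c : ℕ) : 0 ≤ gw al r θ c := by
  unfold gw
  split_ifs
  · have := Real.cos_le_one (c * θ)
    have h2 : 0 ≤ r ^ c := by positivity
    exact mul_nonneg h2 (by linarith)
  · exact le_refl _

theorem norm_gain {a b : ℝ} (ha : 0 ≤ a) (ha1 : a ≤ 1) :
    a * (1 - Real.cos b) / 2 ≤ 1 + a - ‖1 + (a : ℂ) * Complex.exp (b * Complex.I)‖ := by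
  have hsq : ‖1 + (a : ℂ) * Complex.exp (b * Complex.I)‖ ^ 2 = 1 + a ^ 2 + 2 * a * Real.cos b := by
    rw [← Complex.normSq_eq_norm_sq, Complex.normSq_apply]
    have h1 : (1 + (a : ℂ) * Complex.exp (b * Complex.I)).re = 1 + a * Real.cos b := by
      simp [Complex.exp_re]
    have h2 : (1 + (a : ℂ) * Complex.exp (b * Complex.I)).im = a * Real.sin b := by
      simp [Complex.exp_im]
    rw [h1, h2]
    nlinarith [Real.sin_sq_add_cos_sq b]
  set w := ‖1 + (a : ℂ) * Complex.exp (b * Complex.I)‖ with hw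
  have hw0 : 0 ≤ w := norm_nonneg _
  have hcos := Real.cos_le_one b
  have hcos' := Real.neg_one_le_cos b
  -- (1+a)^2 - w^2 = 2a(1-cos b)
  have hkey : (1 + a - w) * (1 + a + w) = 2 * a * (1 - Real.cos b) := by nlinarith
  have hwle : w ≤ 1 + a := by
    by_contra hcon
    push Not at hcon
    have : 0 ≤ 2 * a * (1 - Real.cos b) := by
      apply mul_nonneg <;> linarith
    nlinarith
  have h4 : 1 + a + w ≤ 4 := by linarith
  by_contra hcon
  push Not at hcon
  have h5 : 0 ≤ a * (1 - Real.cos b) := mul_nonneg ha (by linarith)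
  nlinarith

/-- Chain of `J` blocks starting at `o`. -/
theorem Est.chain {L : ℕ} (hfar : ∀ x y, x + L ≤ y → ok x y) (hL : 0 < L) {r θ : ℝ}
    (hr : 0 ≤ r) (hr1 : r ≤ 1) (o J : ℕ) :
    Est al ok ((r : ℂ) * Complex.exp (θ * Complex.I)) (o + J * (2 * L - 1))
      (Real.exp (-(∑ j ∈ range J, gw al r θ (o + j * (2 * L - 1) + L)) / 2 ^ (2 * L))) := by
  classical
  set z : ℂ := (r : ℂ) * Complex.exp (θ * Complex.I) with hz
  have hnorm : ‖z‖ = r := by
    rw [hz, norm_mul, Complex.norm_exp_ofReal_mul_I, mul_one, Complex.norm_real,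
      Real.norm_of_nonneg hr]
  induction J with
  | zero =>
    simpa using (Est.zero al ok z).add al ok o
  | succ J ih =>
    rw [Finset.sum_range_succ]
    set m := o + J * (2 * L - 1) with hm
    have hm' : o + (J + 1) * (2 * L - 1) = m + (2 * L - 1) := by rw [hm]; ring
    rw [hm']
    set W := ∑ j ∈ range J, gw al r θ (o + j * (2 * L - 1) + L) with hW
    by_cases hc : al (m + L)
    · have h1 := ih.block al ok hfar hL (by rw [hnorm]; exact hr1) (Real.exp_nonneg _) hc
      refine h1.mono al ok ?_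
      rw [hnorm]
      have hgw : gw al r θ (m + L) = r ^ (m + L) * (1 - Real.cos ((m + L : ℕ) * θ)) := by
        simp [gw, hc]
      have hpow : z ^ (m + L) = ((r ^ (m + L) : ℝ) : ℂ) *
          Complex.exp ((((m + L : ℕ) : ℝ) * θ : ℝ) * Complex.I) := by
        rw [hz, mul_pow, ← Complex.exp_nat_mul]
        push_cast
        ring_nf
      have h2 := norm_gain (a := r ^ (m + L)) (b := ((m + L : ℕ) : ℝ) * θ) (by positivity)
        (pow_le_one₀ hr hr1)
      rw [← hpow, ← hgw] at h2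
      have h3 : (2 : ℝ) ^ (2 * L) = 2 * 2 ^ (2 * L - 1) := by
        rw [← pow_succ']
        congr 1
        omega
      have h4 : (0 : ℝ) < 2 ^ (2 * L - 1) := by positivity
      have h5 : 1 - (1 + r ^ (m + L) - ‖1 + z ^ (m + L)‖) / 2 ^ (2 * L - 1) ≤
          Real.exp (-(gw al r θ (m + L)) / 2 ^ (2 * L)) := by
        have h6 : gw al r θ (m + L) / 2 ^ (2 * L) ≤
            (1 + r ^ (m + L) - ‖1 + z ^ (m + L)‖) / 2 ^ (2 * L - 1) := by
          rw [h3, ← div_div]
          gcongr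
        have h7 := Real.add_one_le_exp (-(gw al r θ (m + L)) / 2 ^ (2 * L))
        have h8 : -(gw al r θ (m + L)) / 2 ^ (2 * L) = -(gw al r θ (m + L) / 2 ^ (2 * L)) := by
          ring
        linarith
      calc Real.exp (-W / 2 ^ (2 * L)) *
          (1 - (1 + r ^ (m + L) - ‖1 + z ^ (m + L)‖) / 2 ^ (2 * L - 1))
          ≤ Real.exp (-W / 2 ^ (2 * L)) * Real.exp (-(gw al r θ (m + L)) / 2 ^ (2 * L)) := by
            gcongr
        _ = Real.exp (-(W + gw al r θ (m + L)) / 2 ^ (2 * L)) := by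
            rw [← Real.exp_add]; congr 1; ring
    · have h0 : gw al r θ (m + L) = 0 := by simp [gw, hc]
      rw [h0, add_zero]
      exact ih.add al ok _

theorem sum_blocks (w : ℕ → ℝ) (s J : ℕ) :
    ∑ o ∈ range s, ∑ j ∈ range J, w (o + j * s) = ∑ i ∈ range (J * s), w i := by
  rw [Finset.sum_comm]
  induction J with
  | zero => simp
  | succ J ih =>
    rw [Finset.sum_range_succ, ih, add_mul, one_mul, Finset.sum_range_add]
    congr 1
    refine Finset.sum_congr rfl fun o _ => ?_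
    rw [add_comm]

/-- The main estimate: a gain from all the sites. -/
theorem norm_Z_le {L : ℕ} (hfar : ∀ x y, x + L ≤ y → ok x y) (hL : 0 < L) {r θ : ℝ}
    (hr : 0 ≤ r) (hr1 : r ≤ 1) (J N : ℕ) (hN : (J + 1) * (2 * L - 1) ≤ N) :
    ‖Z al ok ((r : ℂ) * Complex.exp (θ * Complex.I)) N ∅‖ ≤
      Real.exp (-(∑ i ∈ range (J * (2 * L - 1)), gw al r θ (i + L)) /
        ((2 * L - 1 : ℕ) * 2 ^ (2 * L))) * Z al ok r N ∅ := by
  classical
  set s := 2 * L - 1 with hs
  have hs0 : 0 < s := by omega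
  set w : ℕ → ℝ := fun i => gw al r θ (i + L) with hw
  set W := ∑ i ∈ range (J * s), w i with hW
  have hsum := sum_blocks w s J
  rw [← hW] at hsum
  have hex : ∃ o ∈ range s, W / s ≤ ∑ j ∈ range J, w (o + j * s) := by
    have hne : (range s).Nonempty := ⟨0, by simpa using hs0⟩
    by_contra hcon
    push Not at hcon
    have h1 : ∑ o ∈ range s, ∑ j ∈ range J, w (o + j * s) < ∑ _o ∈ range s, W / s :=
      Finset.sum_lt_sum_of_nonempty hne hcon
    rw [hsum, Finset.sum_const, card_range, nsmul_eq_mul] at h1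
    have h2 : (s : ℝ) * (W / s) = W := by
      field_simp
    rw [h2] at h1
    exact lt_irrefl _ h1
  obtain ⟨o, ho, hoW⟩ := hex
  have ho' := mem_range.mp ho
  have h1 := Est.chain al ok hfar hL (θ := θ) hr hr1 o J
  rw [← hs] at h1
  have h2 : o + J * s ≤ N := by
    have : (J + 1) * s = J * s + s := by ring
    omega
  obtain ⟨d, rfl⟩ := Nat.exists_eq_add_of_le h2
  have hnorm : ‖(r : ℂ) * Complex.exp (θ * Complex.I)‖ = r := by
    rw [norm_mul, Complex.norm_exp_ofReal_mul_I, mul_one, Complex.norm_real,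
      Real.norm_of_nonneg hr]
  have h3 := (h1.add al ok d) ∅ (by simp)
  rw [hnorm] at h3
  refine h3.trans ?_
  apply mul_le_mul_of_nonneg_right _ (Z_nonneg al ok hr _ _)
  apply Real.exp_le_exp.mpr
  have h4 : (0 : ℝ) < 2 ^ (2 * L) := by positivity
  have h5 : (0 : ℝ) < s := by exact_mod_cast hs0
  rw [neg_div, neg_div, neg_le_neg_iff, ← div_div]
  gcongr

end complex

end Pool.Agent.W_MP_af6696_nt
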