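import Mathlib
import Pool.Agent.W_MP_af6696_nt.Block

set_option autoImplicit false

namespace Pool.Agent.W_MP_af6696_nt

open Filter Topology Finset

/-- The family of admissible sets all of whose elements satisfy `P`. -/
def Fam (al : ℕ → Prop) (ok : ℕ → ℕ → Prop) (P : ℕ → Prop) : Set (Finset ℕ) :=
  {S | Adm al ok S ∧ ∀ x ∈ S, P x}

/-- Sum of `r ^ (sum of S)` over a family of finite sets. -/
noncomputable def G (D : Set (Finset ℕ)) (r : ℝ) : ℝ :=
  ∑' S : Finset ℕ, D.indicator (fun S => r ^ (∑ x ∈ S, x)) S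

theorem summable_D {D : Set (Finset ℕ)} (hD : ∀ S ∈ D, 0 ∉ S) {r : ℝ} (hr : 0 ≤ r)
    (hr1 : r < 1) : Summable (D.indicator (fun S : Finset ℕ => r ^ (∑ x ∈ S, x))) := by
  classical
  apply summable_of_sum_le (c := Real.exp (1 - r)⁻¹)
  · intro S
    exact Set.indicator_nonneg (fun _ _ => by positivity) S
  · intro u
    set m := u.sup (fun S => S.sup id) with hm
    have h1 : ∑ S ∈ u, D.indicator (fun S : Finset ℕ => r ^ (∑ x ∈ S, x)) S =
        ∑ S ∈ u with S ∈ D, r ^ (∑ x ∈ S, x) := by
      rw [Finset.sum_filter]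
      refine Finset.sum_congr rfl fun S _ => ?_
      by_cases h : S ∈ D <;> simp [h]
    have h2 : (u.filter (· ∈ D)) ⊆ (Icc 1 m).powerset := by
      intro S hS
      rw [Finset.mem_filter] at hS
      rw [Finset.mem_powerset]
      intro x hx
      rw [Finset.mem_Icc]
      constructor
      · have h0 := hD S hS.2
        rcases Nat.eq_zero_or_pos x with h | h
        · exact absurd (h ▸ hx) h0
        · exact h
      · have h3 : x ≤ S.sup id := Finset.le_sup (f := id) hx
        have h4 : S.sup id ≤ m := Finset.le_sup (f := fun S : Finset ℕ => S.sup id) hS.1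
        exact h3.trans h4
    rw [h1]
    calc ∑ S ∈ u with S ∈ D, r ^ (∑ x ∈ S, x)
        ≤ ∑ S ∈ (Icc 1 m).powerset, r ^ (∑ x ∈ S, x) :=
          Finset.sum_le_sum_of_subset_of_nonneg h2 (fun _ _ _ => by positivity)
      _ = ∏ k ∈ Icc 1 m, (1 + r ^ k) := by
          rw [Finset.prod_one_add]
          refine Finset.sum_congr rfl fun S _ => ?_
          rw [Finset.prod_pow_eq_pow_sum]
      _ ≤ ∏ k ∈ Icc 1 m, Real.exp (r ^ k) := by
          apply Finset.prod_le_prod
          · intro k _; positivity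
          · intro k _
            have := Real.add_one_le_exp (r ^ k)
            linarith
      _ = Real.exp (∑ k ∈ Icc 1 m, r ^ k) := by rw [Real.exp_sum]
      _ ≤ Real.exp (1 - r)⁻¹ := by
          apply Real.exp_le_exp.mpr
          rw [← tsum_geometric_of_lt_one hr hr1]
          exact (summable_geometric_of_lt_one hr hr1).sum_le_tsum _ (fun _ _ => by positivity)

theorem Fam_zero_notMem {al : ℕ → Prop} {ok : ℕ → ℕ → Prop} (h0 : ¬ al 0) (P : ℕ → Prop) :
    ∀ S ∈ Fam al ok P, 0 ∉ S := fun _ hS h => h0 (hS.1.1 0 h)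

/-- Removing a forced smallest element. -/
theorem G_insert {al : ℕ → Prop} {ok : ℕ → ℕ → Prop} {e : ℕ} {Q : ℕ → Prop}
    (hQ : ∀ x, Q x → e < x) (r : ℝ) :
    G ((fun S => insert e S) '' Fam al ok Q) r = r ^ e * G (Fam al ok Q) r := by
  unfold G
  rw [← _root_.tsum_subtype, ← _root_.tsum_subtype, ← tsum_mul_left]
  have hinj : Set.InjOn (fun S : Finset ℕ => insert e S) (Fam al ok Q) := by
    intro S hS T hT hST
    have heS : e ∉ S := fun h => lt_irrefl e (hQ e (hS.2 e h))
    have heT : e ∉ T := fun h => lt_irrefl e (hQ e (hT.2 e h))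
    have : (insert e S).erase e = (insert e T).erase e := congrArg (fun U => U.erase e) hST
    rwa [Finset.erase_insert heS, Finset.erase_insert heT] at this
  rw [tsum_image (f := fun S : Finset ℕ => r ^ (∑ x ∈ S, x)) hinj]
  refine tsum_congr fun S => ?_
  have heS : e ∉ (S : Finset ℕ) := fun h => lt_irrefl e (hQ e (S.2.2 e h))
  rw [Finset.sum_insert heS, pow_add]

/-- The decomposition by the smallest element. -/
theorem G_peel {al : ℕ → Prop} {ok : ℕ → ℕ → Prop} (h0 : ¬ al 0) {P P' : ℕ → Prop}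
    (hPP' : ∀ x, P' x → P x)
    (hmin : ∀ x y, P x → P y → ¬ P' x → y < x → ok y x → False) (E : Finset ℕ)
    (hE : ∀ e, e ∈ E ↔ al e ∧ P e ∧ ¬ P' e) {r : ℝ} (hr : 0 ≤ r) (hr1 : r < 1) :
    G (Fam al ok P) r = G (Fam al ok P') r +
      ∑ e ∈ E, r ^ e * G (Fam al ok (fun x => e < x ∧ ok e x ∧ P x)) r := by
  classical
  have hpt : ∀ S : Finset ℕ, (Fam al ok P).indicator (fun S : Finset ℕ => r ^ (∑ x ∈ S, x)) S =
      (Fam al ok P').indicator (fun S : Finset ℕ => r ^ (∑ x ∈ S, x)) S +
      ∑ e ∈ E, ((fun S => insert e S) '' Fam al ok (fun x => e < x ∧ ok e x ∧ P x)).indicator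
        (fun S : Finset ℕ => r ^ (∑ x ∈ S, x)) S := by
    intro S
    by_cases hS : S ∈ Fam al ok P
    · by_cases hS' : S ∈ Fam al ok P'
      · have hz : ∑ e ∈ E, ((fun S => insert e S) '' Fam al ok
            (fun x => e < x ∧ ok e x ∧ P x)).indicator
            (fun S : Finset ℕ => r ^ (∑ x ∈ S, x)) S = 0 := by
          apply Finset.sum_eq_zero
          intro e he
          apply Set.indicator_of_notMem
          rintro ⟨T, -, hT⟩
          have : e ∈ S := by rw [← hT]; exact Finset.mem_insert_self _ _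
          exact ((hE e).mp he).2.2 (hS'.2 e this)
        rw [Set.indicator_of_mem hS, Set.indicator_of_mem hS', hz, add_zero]
      · obtain ⟨x, hx, hxP⟩ : ∃ x ∈ S, ¬ P' x := by
          by_contra hcon
          push Not at hcon
          exact hS' ⟨hS.1, hcon⟩
        have hmin' : ∀ x ∈ S, ¬ P' x → ∀ y ∈ S, y ≠ x → x < y := by
          intro x hx hxP y hy hyx
          rcases lt_trichotomy y x with h | h | h
          · exact absurd (hmin x y (hS.2 x hx) (hS.2 y hy) hxP h (hS.1.2 y hy x hx h)) id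
          · exact absurd h hyx
          · exact h
        have hxE : x ∈ E := (hE x).mpr ⟨hS.1.1 x hx, hS.2 x hx, hxP⟩
        have hmem : S ∈ (fun S => insert x S) '' Fam al ok (fun y => x < y ∧ ok x y ∧ P y) := by
          refine ⟨S.erase x, ⟨hS.1.mono (Finset.erase_subset _ _), ?_⟩, Finset.insert_erase hx⟩
          intro y hy
          have hyS := Finset.mem_of_mem_erase hy
          have hyx := Finset.ne_of_mem_erase hy
          have hlt := hmin' x hx hxP y hyS hyx
          exact ⟨hlt, hS.1.2 x hx y hyS hlt, hS.2 y hyS⟩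
        have hz : ∑ e ∈ E, ((fun S => insert e S) '' Fam al ok
            (fun x => e < x ∧ ok e x ∧ P x)).indicator
            (fun S : Finset ℕ => r ^ (∑ x ∈ S, x)) S = r ^ (∑ x ∈ S, x) := by
          rw [Finset.sum_eq_single_of_mem x hxE, Set.indicator_of_mem hmem]
          intro e he hex
          apply Set.indicator_of_notMem
          rintro ⟨T, -, hT⟩
          have heS : e ∈ S := by rw [← hT]; exact Finset.mem_insert_self _ _
          have h1 := hmin' x hx hxP e heS hex
          have h2 := hmin' e heS ((hE e).mp he).2.2 x hx (Ne.symm hex)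
          omega
        rw [Set.indicator_of_mem hS, Set.indicator_of_notMem hS', zero_add, hz]
    · have hS' : S ∉ Fam al ok P' := fun h => hS ⟨h.1, fun x hx => hPP' x (h.2 x hx)⟩
      rw [Set.indicator_of_notMem hS, Set.indicator_of_notMem hS', zero_add]
      symm
      apply Finset.sum_eq_zero
      intro e he
      apply Set.indicator_of_notMem
      rintro ⟨T, hT, rfl⟩
      apply hS
      obtain ⟨h1, h2, -⟩ := (hE e).mp he
      refine ⟨⟨?_, ?_⟩, ?_⟩
      · intro x hx
        rcases Finset.mem_insert.mp hx with h | h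
        · rw [h]; exact h1
        · exact hT.1.1 x h
      · intro x hx y hy hxy
        rcases Finset.mem_insert.mp hx with h | h
        · rcases Finset.mem_insert.mp hy with h' | h'
          · omega
          · rw [h]; exact (hT.2 y h').2.1
        · rcases Finset.mem_insert.mp hy with h' | h'
          · have := (hT.2 x h).1; omega
          · exact hT.1.2 x h y h' hxy
      · intro x hx
        rcases Finset.mem_insert.mp hx with h | h
        · rw [h]; exact h2
        · exact (hT.2 x h).2.2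
  have hs1 := summable_D (Fam_zero_notMem (ok := ok) h0 P') hr hr1
  have hs2 : ∀ e ∈ E, Summable (((fun S => insert e S) ''
      Fam al ok (fun x => e < x ∧ ok e x ∧ P x)).indicator
        (fun S : Finset ℕ => r ^ (∑ x ∈ S, x))) := by
    intro e he
    apply summable_D _ hr hr1
    rintro S ⟨T, hT, rfl⟩
    intro h
    rcases Finset.mem_insert.mp h with h | h
    · exact h0 (h ▸ ((hE e).mp he).1)
    · exact Fam_zero_notMem h0 _ T hT h
  have h1 : G (Fam al ok P) r = ∑' S : Finset ℕ,
      ((Fam al ok P').indicator (fun S : Finset ℕ => r ^ (∑ x ∈ S, x)) S +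
      ∑ e ∈ E, ((fun S => insert e S) '' Fam al ok (fun x => e < x ∧ ok e x ∧ P x)).indicator
        (fun S : Finset ℕ => r ^ (∑ x ∈ S, x)) S) := tsum_congr hpt
  rw [h1, hs1.tsum_add (summable_sum hs2), Summable.tsum_finsetSum hs2]
  congr 1
  refine Finset.sum_congr rfl fun e _ => ?_
  exact G_insert (fun x hx => hx.1) r

theorem G_ge_one {al : ℕ → Prop} {ok : ℕ → ℕ → Prop} (h0 : ¬ al 0) (P : ℕ → Prop) {r : ℝ}
    (hr : 0 ≤ r) (hr1 : r < 1) : 1 ≤ G (Fam al ok P) r := by
  have h1 := (summable_D (Fam_zero_notMem (ok := ok) h0 P) hr hr1).le_tsum ∅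
    (fun S _ => Set.indicator_nonneg (fun _ _ => by positivity) S)
  have h2 : (∅ : Finset ℕ) ∈ Fam al ok P := ⟨⟨by simp, by simp⟩, by simp⟩
  rw [Set.indicator_of_mem h2] at h1
  unfold G
  simpa using h1

/-- The sums over sets with large elements tend to one. -/
theorem G_tendsto_one {al : ℕ → Prop} {ok : ℕ → ℕ → Prop} (h0 : ¬ al 0) {P : ℕ → ℕ → Prop}
    (hP : ∀ n x, P n x → n ≤ x) {r : ℝ} (hr : 0 ≤ r) (hr1 : r < 1) :
    Tendsto (fun n => G (Fam al ok (P n)) r) atTop (𝓝 1) := by
  classical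
  have h2 : ∀ n, (∅ : Finset ℕ) ∈ Fam al ok (P n) := fun n => ⟨⟨by simp, by simp⟩, by simp⟩
  have hlim : (1 : ℝ) = ∑' S : Finset ℕ, if S = ∅ then (1 : ℝ) else 0 := by
    rw [tsum_ite_eq]
  rw [hlim]
  unfold G
  refine tendsto_tsum_of_dominated_convergence
    (bound := {S : Finset ℕ | 0 ∉ S}.indicator (fun S : Finset ℕ => r ^ (∑ x ∈ S, x)))
    (summable_D (fun S hS => hS) hr hr1) ?_ ?_
  · intro S
    apply tendsto_const_nhds.congr'
    filter_upwards [eventually_gt_atTop (S.sup id)] with n hn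
    by_cases hS : S = ∅
    · rw [if_pos hS, hS, Set.indicator_of_mem (h2 n)]; simp
    · rw [if_neg hS, Set.indicator_of_notMem]
      intro h
      obtain ⟨x, hx⟩ := Finset.nonempty_iff_ne_empty.mpr hS
      have h3 := hP n x (h.2 x hx)
      have h4 : x ≤ S.sup id := Finset.le_sup (f := id) hx
      omega
  · refine Eventually.of_forall fun n S => ?_
    by_cases hS : S ∈ Fam al ok (P n)
    · have h3 : S ∈ {S : Finset ℕ | 0 ∉ S} := Fam_zero_notMem h0 _ S hS
      rw [Set.indicator_of_mem hS, Set.indicator_of_mem h3, Real.norm_of_nonneg (by positivity)]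
    · rw [Set.indicator_of_notMem hS, norm_zero]
      exact Set.indicator_nonneg (fun _ _ => by positivity) S

/-! ### Coefficients -/

/-- number of admissible sets with given sum -/
noncomputable def cf (al : ℕ → Prop) (ok : ℕ → ℕ → Prop) (n : ℕ) : ℕ :=
  Set.ncard {S : Finset ℕ | Adm al ok S ∧ ∑ x ∈ S, x = n}

theorem finite_sum_eq (n : ℕ) : {S : Finset ℕ | 0 ∉ S ∧ ∑ x ∈ S, x = n}.Finite := by
  apply Set.Finite.subset (Finset.finite_toSet (Finset.range (n + 1)).powerset)
  rintro S ⟨-, hS⟩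
  rw [Finset.mem_coe, Finset.mem_powerset]
  intro x hx
  have : x ≤ ∑ x ∈ S, x := Finset.single_le_sum (f := fun x => x) (fun _ _ => Nat.zero_le _) hx
  rw [Finset.mem_range]
  omega

section coeffs

variable {𝕜 : Type*} [RCLike 𝕜]

theorem summable_D' {D : Set (Finset ℕ)} (hD : ∀ S ∈ D, 0 ∉ S) {z : 𝕜} (hz : ‖z‖ < 1) :
    Summable (D.indicator (fun S : Finset ℕ => z ^ (∑ x ∈ S, x))) := by
  apply Summable.of_norm
  have h := summable_D hD (norm_nonneg z) hz
  refine h.congr fun S => ?_
  by_cases hS : S ∈ D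
  · rw [Set.indicator_of_mem hS, Set.indicator_of_mem hS, norm_pow]
  · rw [Set.indicator_of_notMem hS, Set.indicator_of_notMem hS, norm_zero]

/-- The generating series in terms of coefficients. -/
theorem hasSum_cf {al : ℕ → Prop} {ok : ℕ → ℕ → Prop} (h0 : ¬ al 0) {z : 𝕜} (hz : ‖z‖ < 1) :
    HasSum (fun n : ℕ => (cf al ok n : 𝕜) * z ^ n)
      (∑' S : Finset ℕ, {S | Adm al ok S}.indicator (fun S : Finset ℕ => z ^ (∑ x ∈ S, x)) S) := by
  have hD : ∀ S ∈ {S | Adm al ok S}, 0 ∉ S := fun S hS h => h0 (hS.1 0 h)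
  have h1 := (summable_D' hD hz).hasSum.tsum_fiberwise (fun S : Finset ℕ => ∑ x ∈ S, x)
  have h2 : (fun c : ℕ => ∑' b : ((fun S : Finset ℕ => ∑ x ∈ S, x) ⁻¹' {c}),
      {S | Adm al ok S}.indicator (fun S : Finset ℕ => z ^ (∑ x ∈ S, x)) b) =
      fun n : ℕ => (cf al ok n : 𝕜) * z ^ n := by
    funext n
    rw [_root_.tsum_subtype ((fun S : Finset ℕ => ∑ x ∈ S, x) ⁻¹' {n})]
    have h3 : (fun S : Finset ℕ => ((fun S : Finset ℕ => ∑ x ∈ S, x) ⁻¹' {n}).indicator
        ({S | Adm al ok S}.indicator (fun S : Finset ℕ => z ^ (∑ x ∈ S, x))) S) =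
        {S : Finset ℕ | Adm al ok S ∧ ∑ x ∈ S, x = n}.indicator (fun _ => z ^ n) := by
      funext S
      by_cases hS : ∑ x ∈ S, x = n
      · by_cases hA : Adm al ok S
        · have e1 : S ∈ (fun S : Finset ℕ => ∑ x ∈ S, x) ⁻¹' {n} := hS
          have e2 : S ∈ {S | Adm al ok S} := hA
          have e3 : S ∈ {S : Finset ℕ | Adm al ok S ∧ ∑ x ∈ S, x = n} := ⟨hA, hS⟩
          rw [Set.indicator_of_mem e1, Set.indicator_of_mem e2, Set.indicator_of_mem e3, hS]
        · have e1 : S ∈ (fun S : Finset ℕ => ∑ x ∈ S, x) ⁻¹' {n} := hS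
          have e2 : S ∉ {S | Adm al ok S} := hA
          have e3 : S ∉ {S : Finset ℕ | Adm al ok S ∧ ∑ x ∈ S, x = n} := fun h => hA h.1
          rw [Set.indicator_of_mem e1, Set.indicator_of_notMem e2, Set.indicator_of_notMem e3]
      · have e1 : S ∉ (fun S : Finset ℕ => ∑ x ∈ S, x) ⁻¹' {n} := hS
        have e3 : S ∉ {S : Finset ℕ | Adm al ok S ∧ ∑ x ∈ S, x = n} := fun h => hS h.2
        rw [Set.indicator_of_notMem e1, Set.indicator_of_notMem e3]
    rw [h3]
    have hfin : {S : Finset ℕ | Adm al ok S ∧ ∑ x ∈ S, x = n}.Finite :=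
      (finite_sum_eq n).subset fun S hS => ⟨hD S hS.1, hS.2⟩
    rw [← _root_.tsum_subtype, tsum_const, nsmul_eq_mul, Nat.card_coe_set_eq]
    rfl
  rw [h2] at h1
  exact h1

/-- The finite sums `Z` converge to the full sum. -/
theorem Z_tendsto {al : ℕ → Prop} {ok : ℕ → ℕ → Prop} (h0 : ¬ al 0) {z : 𝕜} (hz : ‖z‖ < 1) :
    Tendsto (fun N => Z al ok z N ∅) atTop
      (𝓝 (∑' S : Finset ℕ, {S | Adm al ok S}.indicator
        (fun S : Finset ℕ => z ^ (∑ x ∈ S, x)) S)) := by
  classical
  have hD : ∀ S ∈ {S | Adm al ok S}, 0 ∉ S := fun S hS h => h0 (hS.1 0 h)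
  have h1 := (summable_D' hD hz).hasSum
  have h2 : Tendsto (fun N : ℕ => (Finset.range (N + 1)).powerset) atTop atTop :=
    tendsto_finset_powerset_atTop_atTop.comp
      (tendsto_finset_range.comp (tendsto_add_atTop_nat 1))
  have h3 := h1.comp h2
  refine h3.congr fun N => ?_
  rw [Z_eq_sum]
  simp only [Function.comp, Finset.union_empty]
  have h4 : (Icc 1 N).powerset ⊆ (Finset.range (N + 1)).powerset := by
    apply Finset.powerset_mono.mpr
    intro x hx
    rw [Finset.mem_Icc] at hx
    rw [Finset.mem_range]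
    omega
  symm
  calc ∑ S ∈ (Icc 1 N).powerset, (if Adm al ok S then z ^ (∑ x ∈ S, x) else 0)
      = ∑ S ∈ (Icc 1 N).powerset, {S | Adm al ok S}.indicator
        (fun S : Finset ℕ => z ^ (∑ x ∈ S, x)) S := by
        refine Finset.sum_congr rfl fun S _ => ?_
        by_cases h : Adm al ok S
        · rw [if_pos h, Set.indicator_of_mem (show S ∈ {S | Adm al ok S} from h)]
        · rw [if_neg h, Set.indicator_of_notMem (show S ∉ {S | Adm al ok S} from h)]
    _ = _ := by
        apply Finset.sum_subset h4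
        intro S hS hS'
        apply Set.indicator_of_notMem
        intro hA
        apply hS'
        rw [Finset.mem_powerset] at hS ⊢
        intro x hx
        have h5 := hS hx
        rw [Finset.mem_range] at h5
        rw [Finset.mem_Icc]
        constructor
        · rcases Nat.eq_zero_or_pos x with h | h
          · exact absurd (h ▸ hx) (hD S hA)
          · exact h
        · omega

end coeffs

end Pool.Agent.W_MP_af6696_nt
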