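import Mathlib
import Pool.Agent.W_MP_af6696_nt.Gen

set_option autoImplicit false

namespace Pool.Agent.W_MP_af6696_nt

open Filter Topology Finset

/-- Lists with consecutive conditions and admissible finite sets. -/
theorem ncard_lists {al : ℕ → Prop} {ok : ℕ → ℕ → Prop} (hlt : ∀ x y, ok x y → x < y)
    (htr : ∀ x y w, ok x y → ok y w → ok x w) (n : ℕ) :
    Set.ncard {l : List ℕ | l.sum = n ∧ (∀ x ∈ l, al x) ∧ l.Pairwise (· ≥ ·) ∧
      ∀ (i : ℕ) (h : i + 1 < l.length), ok l[i + 1] l[i]} = cf al ok n := by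
  have himg : {l : List ℕ | l.sum = n ∧ (∀ x ∈ l, al x) ∧ l.Pairwise (· ≥ ·) ∧
      ∀ (i : ℕ) (h : i + 1 < l.length), ok l[i + 1] l[i]} =
      (fun S : Finset ℕ => S.sort (· ≥ ·)) '' {S : Finset ℕ | Adm al ok S ∧ ∑ x ∈ S, x = n} := by
    ext l
    constructor
    · rintro ⟨h1, h2, h3, h4⟩
      have : Trans (fun a b : ℕ => ok b a) (fun a b : ℕ => ok b a) (fun a b : ℕ => ok b a) :=
        ⟨fun {a b c} hab hbc => htr c b a hbc hab⟩
      have hch : l.IsChain (fun a b : ℕ => ok b a) :=
        List.isChain_iff_getElem.mpr fun i hi => h4 i hi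
      have hpw : l.Pairwise (fun a b : ℕ => ok b a) := List.isChain_iff_pairwise.mp hch
      have hnd : l.Nodup := hpw.imp (fun {a b} h => by
        have := hlt _ _ h
        omega)
      have : Std.Symm (fun a b : ℕ => ok a b ∨ ok b a) := ⟨fun a b h => h.symm⟩
      have hall := List.Pairwise.forall (R := fun a b : ℕ => ok a b ∨ ok b a) (l := l)
        (hpw.imp (fun {a b} h => Or.inr h))
      refine ⟨l.toFinset, ⟨⟨?_, ?_⟩, ?_⟩, ?_⟩
      · intro x hx
        exact h2 x (List.mem_toFinset.mp hx)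
      · intro x hx y hy hxy
        rcases hall (List.mem_toFinset.mp hx) (List.mem_toFinset.mp hy) hxy.ne with h | h
        · exact h
        · have := hlt _ _ h
          omega
      · rw [← h1]
        rw [List.sum_toFinset (fun x => x) hnd]
        simp
      · exact (List.toFinset_sort (· ≥ ·) hnd).mpr h3
    · rintro ⟨S, ⟨hA, hS⟩, rfl⟩
      have hgt : (S.sort (· ≥ ·)).Pairwise (· > ·) :=
        (Finset.sortedGT_sort S).pairwise
      refine ⟨?_, ?_, Finset.pairwise_sort S (· ≥ ·), ?_⟩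
      · show (S.sort (· ≥ ·)).sum = n
        rw [← hS]
        have h1 : ((S.sort (· ≥ ·) : List ℕ) : Multiset ℕ).sum = S.1.sum := by
          rw [Finset.sort_eq]
        rw [Multiset.sum_coe] at h1
        rw [h1]
        exact (Finset.sum_eq_multiset_sum S (fun x => x)).symm ▸ by rw [Multiset.map_id']
      · intro x hx
        exact hA.1 x ((Finset.mem_sort (· ≥ ·)).mp hx)
      · intro i hi
        have hi' : i + 1 < (S.sort (· ≥ ·)).length := hi
        have hi'' : i < (S.sort (· ≥ ·)).length := by omega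
        apply hA.2 _ ((Finset.mem_sort (· ≥ ·)).mp (List.getElem_mem hi')) _
          ((Finset.mem_sort (· ≥ ·)).mp (List.getElem_mem hi''))
        exact List.pairwise_iff_getElem.mp hgt i (i + 1) hi'' hi' (by omega)
  rw [himg, Set.ncard_image_of_injective]
  · rfl
  · intro S T h
    have h1 : (S.sort (· ≥ ·)).toFinset = (T.sort (· ≥ ·)).toFinset := congrArg _ h
    rwa [Finset.sort_toFinset, Finset.sort_toFinset] at h1

/-- In case (ii) the forbidden set is finite. -/
theorem finite_case_two {M s : ℕ} (hM : 0 < M) (hs : 1 ≤ s) (hsM : 2 ^ (s - 1) < M) :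
    {m : ℕ | 1 ≤ m ∧ ¬ ∃ S : Finset ℕ, S.sum id = m ∧
        ∀ x ∈ S, 0 < x ∧ ∃ j : ℕ, 1 ≤ j ∧ j ≤ s ∧ Nat.ModEq M x (M - 2 ^ (j - 1))}.Finite := by
  have hM2 : 2 ≤ M := by
    have : 1 ≤ 2 ^ (s - 1) := Nat.one_le_two_pow
    omega
  apply Set.Finite.subset (Set.finite_Iio (M * M * M + M * M + 1))
  rintro m ⟨hm1, hm2⟩
  rw [Set.mem_Iio]
  by_contra hcon
  push Not at hcon
  apply hm2
  -- number of parts
  obtain ⟨k, hk1, hkM, hk⟩ : ∃ k, 1 ≤ k ∧ k ≤ M ∧ (m + k) % M = 0 := by
    have hmod := Nat.mod_lt m hM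
    refine ⟨M - m % M, by omega, by omega, ?_⟩
    have h1 : m = M * (m / M) + m % M := (Nat.div_add_mod m M).symm
    have h2 : m + (M - m % M) = M * (m / M + 1) := by
      rw [mul_add, mul_one]
      omega
    rw [h2]
    exact Nat.mul_mod_right _ _
  set T : Finset ℕ := (range (k - 1)).image (fun i => M * (i + 1) - 1) with hT
  have hTpos : ∀ i, 1 ≤ M * (i + 1) := fun i => Nat.one_le_iff_ne_zero.mpr (by positivity)
  have hTinj : Set.InjOn (fun i => M * (i + 1) - 1) (range (k - 1) : Set ℕ) := by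
    intro i _ j _ hij
    have h1 := hTpos i
    have h2 := hTpos j
    have hij' : M * (i + 1) - 1 = M * (j + 1) - 1 := hij
    have h3 : M * (i + 1) = M * (j + 1) := by omega
    have h4 := Nat.eq_of_mul_eq_mul_left hM h3
    omega
  have hTsum : T.sum id = ∑ i ∈ range (k - 1), (M * (i + 1) - 1) := by
    rw [hT, Finset.sum_image hTinj]
    rfl
  have hTle : T.sum id ≤ M * M * M := by
    rw [hTsum]
    calc ∑ i ∈ range (k - 1), (M * (i + 1) - 1) ≤ ∑ i ∈ range (k - 1), M * M := by
          apply Finset.sum_le_sum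
          intro i hi
          have hi' := Finset.mem_range.mp hi
          have : M * (i + 1) ≤ M * M := Nat.mul_le_mul_left _ (by omega)
          omega
      _ = (k - 1) * (M * M) := by rw [Finset.sum_const, Finset.card_range, smul_eq_mul]
      _ ≤ M * (M * M) := Nat.mul_le_mul_right _ (by omega)
      _ = M * M * M := by ring
  set w := m - T.sum id with hw
  have hwbig : M * M + 1 ≤ w := by omega
  have hTlt : ∀ x ∈ T, x < w := by
    intro x hx
    rw [hT, Finset.mem_image] at hx
    obtain ⟨i, hi, rfl⟩ := hx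
    have hi' := Finset.mem_range.mp hi
    have : M * (i + 1) ≤ M * M := Nat.mul_le_mul_left _ (by omega)
    omega
  have hwT : w ∉ T := fun h => lt_irrefl w (hTlt w h)
  -- the residue of w
  have hTsum' : T.sum id + (k - 1) = M * ∑ i ∈ range (k - 1), (i + 1) := by
    rw [hTsum, Finset.mul_sum]
    have h1 : ∑ i ∈ range (k - 1), (M * (i + 1) - 1) + (k - 1) =
        ∑ i ∈ range (k - 1), ((M * (i + 1) - 1) + 1) := by
      rw [Finset.sum_add_distrib]
      simp
    rw [h1]
    refine Finset.sum_congr rfl fun i _ => ?_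
    have := hTpos i
    omega
  have hwmod : (w + 1) % M = 0 := by
    have h1 : w + 1 + (T.sum id + (k - 1)) = m + k := by omega
    have h2 : (w + 1 + (T.sum id + (k - 1))) % M = 0 := by rw [h1]; exact hk
    rw [hTsum', Nat.add_mul_mod_self_left] at h2
    exact h2
  have hres : ∀ x, (x + 1) % M = 0 → Nat.ModEq M x (M - 2 ^ (1 - 1)) := by
    intro x hx
    have h1 : x + 1 ≡ M - 2 ^ (1 - 1) + 1 [MOD M] := by
      unfold Nat.ModEq
      rw [hx]
      have : M - 2 ^ (1 - 1) + 1 = M := by simp; omega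
      rw [this, Nat.mod_self]
    exact Nat.ModEq.add_right_cancel' 1 h1
  refine ⟨insert w T, ?_, ?_⟩
  · rw [Finset.sum_insert hwT]
    show w + T.sum id = m
    omega
  · intro x hx
    rcases Finset.mem_insert.mp hx with h | h
    · rw [h]
      exact ⟨by omega, 1, le_refl _, hs, hres w hwmod⟩
    · rw [hT, Finset.mem_image] at h
      obtain ⟨i, hi, rfl⟩ := h
      have h1 : M ≤ M * (i + 1) := Nat.le_mul_of_pos_right _ (by omega)
      refine ⟨by omega, 1, le_refl _, hs, hres _ ?_⟩
      have h2 : M * (i + 1) - 1 + 1 = M * (i + 1) := by have := hTpos i; omega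
      rw [h2]
      exact Nat.mul_mod_right _ _

end Pool.Agent.W_MP_af6696_nt
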