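import Mathlib

set_option autoImplicit false

namespace Pool.Agent.W_MP_af6696_nt

open Filter Topology

/-- Coefficients with a uniform geometric bound: pointwise convergence of the power series on a
real segment gives convergence of every coefficient. -/
theorem coeff_tendsto {c : ℕ → ℕ → ℂ} {ci : ℕ → ℂ} {R B : ℝ} (hR : 0 < R)
    (hc : ∀ᶠ n in atTop, ∀ k, ‖c n k‖ * R ^ k ≤ B) (hci : ∀ k, ‖ci k‖ * R ^ k ≤ B)
    (hlim : ∀ s : ℝ, 0 < s → s < R →
      Tendsto (fun n => ∑' k, c n k * (s : ℂ) ^ k) atTop (𝓝 (∑' k, ci k * (s : ℂ) ^ k))) (k : ℕ) :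
    Tendsto (fun n => c n k) atTop (𝓝 (ci k)) := by
  have hB : 0 ≤ B := le_trans (by positivity) (hci 0)
  induction k using Nat.strong_induction_on with
  | _ k ih =>
  rw [Metric.tendsto_atTop]
  intro ε hε
  -- choose s
  set Q : ℝ := 4 * B / R ^ (k + 1) with hQ
  have hQ0 : 0 ≤ Q := by positivity
  obtain ⟨s, hs0, hsR, hsQ⟩ : ∃ s : ℝ, 0 < s ∧ s ≤ R / 2 ∧ Q * s < ε / 2 := by
    refine ⟨min (R / 2) (ε / (4 * (Q + 1))), by positivity, min_le_left _ _, ?_⟩
    calc Q * min (R / 2) (ε / (4 * (Q + 1))) ≤ Q * (ε / (4 * (Q + 1))) := by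
          gcongr; exact min_le_right _ _
      _ ≤ (Q + 1) * (ε / (4 * (Q + 1))) := by gcongr; linarith
      _ = ε / 4 := by field_simp
      _ < ε / 2 := by linarith
  have hsR' : s < R := by linarith
  have hgeo : ∀ (d : ℕ → ℂ), (∀ j, ‖d j‖ * R ^ j ≤ B) → Summable (fun j => ‖d j * (s : ℂ) ^ j‖) := by
    intro d hd
    have hsum : Summable (fun j : ℕ => B * (s / R) ^ j) :=
      (summable_geometric_of_lt_one (by positivity) (by rw [div_lt_one hR]; exact hsR')).mul_left B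
    refine Summable.of_nonneg_of_le (fun j => norm_nonneg _) (fun j => ?_) hsum
    rw [norm_mul, norm_pow, Complex.norm_real, Real.norm_of_nonneg hs0.le]
    have h1 : ‖d j‖ ≤ B / R ^ j := by
      rw [le_div_iff₀ (by positivity)]; exact hd j
    calc ‖d j‖ * s ^ j ≤ B / R ^ j * s ^ j := by gcongr
      _ = B * (s / R) ^ j := by rw [div_pow]; ring
  -- the lower coefficients
  have hlow : Tendsto (fun n => ∑ j ∈ Finset.range k, c n j * (s : ℂ) ^ j) atTop
      (𝓝 (∑ j ∈ Finset.range k, ci j * (s : ℂ) ^ j)) := by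
    apply tendsto_finsetSum
    intro j hj
    exact (ih j (Finset.mem_range.mp hj)).mul_const _
  have htail := (hlim s hs0 hsR').sub hlow
  rw [Metric.tendsto_atTop] at htail
  obtain ⟨N₁, hN₁⟩ := htail (s ^ k * (ε / 2)) (by positivity)
  obtain ⟨N₂, hN₂⟩ := eventually_atTop.mp hc
  refine ⟨max N₁ N₂, fun n hn => ?_⟩
  have h1 := hN₁ n (le_trans (le_max_left _ _) hn)
  have h2 := hN₂ n (le_trans (le_max_right _ _) hn)
  -- split the series
  have hsplit : ∀ (d : ℕ → ℂ), (∀ j, ‖d j‖ * R ^ j ≤ B) →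
      (∑' j, d j * (s : ℂ) ^ j) - ∑ j ∈ Finset.range k, d j * (s : ℂ) ^ j =
        d k * (s : ℂ) ^ k + ∑' j, d (j + (k + 1)) * (s : ℂ) ^ (j + (k + 1)) := by
    intro d hd
    have := (hgeo d hd).of_norm.sum_add_tsum_nat_add (k + 1)
    rw [← this, Finset.sum_range_succ]
    ring
  have htl : ∀ (d : ℕ → ℂ), (∀ j, ‖d j‖ * R ^ j ≤ B) →
      ‖∑' j, d (j + (k + 1)) * (s : ℂ) ^ (j + (k + 1))‖ ≤ s ^ (k + 1) * (2 * B / R ^ (k + 1)) := by
    intro d hd
    have hsum : HasSum (fun j : ℕ => B / R ^ (k + 1) * s ^ (k + 1) * (1 / 2 : ℝ) ^ j)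
        (B / R ^ (k + 1) * s ^ (k + 1) * 2) := by
      have := (hasSum_geometric_of_lt_one (r := (1 / 2 : ℝ)) (by norm_num) (by norm_num)).mul_left
        (B / R ^ (k + 1) * s ^ (k + 1))
      norm_num at this ⊢
      exact this
    have := tsum_of_norm_bounded hsum (f := fun j => d (j + (k + 1)) * (s : ℂ) ^ (j + (k + 1))) (by
      intro j
      rw [norm_mul, norm_pow, Complex.norm_real, Real.norm_of_nonneg hs0.le]
      have h3 : ‖d (j + (k + 1))‖ ≤ B / R ^ (j + (k + 1)) := by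
        rw [le_div_iff₀ (by positivity)]; exact hd _
      calc ‖d (j + (k + 1))‖ * s ^ (j + (k + 1)) ≤ B / R ^ (j + (k + 1)) * s ^ (j + (k + 1)) := by
            gcongr
        _ = B / R ^ (k + 1) * s ^ (k + 1) * (s / R) ^ j := by
            rw [div_pow, pow_add R, pow_add s]; field_simp
        _ ≤ B / R ^ (k + 1) * s ^ (k + 1) * (1 / 2) ^ j := by
            have h4 : s / R ≤ 1 / 2 := by rw [div_le_iff₀ hR]; linarith
            have h5 : (s / R) ^ j ≤ (1 / 2) ^ j := by gcongr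
            have h6 : 0 ≤ B / R ^ (k + 1) * s ^ (k + 1) := by positivity
            exact mul_le_mul_of_nonneg_left h5 h6)
    refine this.trans (le_of_eq ?_)
    ring
  rw [dist_eq_norm] at h1 ⊢
  have h3 : (∑' j, c n j * (s : ℂ) ^ j) - (∑ j ∈ Finset.range k, c n j * (s : ℂ) ^ j) -
      ((∑' j, ci j * (s : ℂ) ^ j) - ∑ j ∈ Finset.range k, ci j * (s : ℂ) ^ j) =
      (c n k - ci k) * (s : ℂ) ^ k +
        ((∑' j, c n (j + (k + 1)) * (s : ℂ) ^ (j + (k + 1))) -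
          ∑' j, ci (j + (k + 1)) * (s : ℂ) ^ (j + (k + 1))) := by
    rw [hsplit (c n) h2, hsplit ci hci]
    ring
  rw [h3] at h1
  have h4 := htl (c n) h2
  have h5 := htl ci hci
  set T₁ := ∑' j, c n (j + (k + 1)) * (s : ℂ) ^ (j + (k + 1)) with hT₁
  set T₂ := ∑' j, ci (j + (k + 1)) * (s : ℂ) ^ (j + (k + 1)) with hT₂
  have h6 : ‖c n k - ci k‖ * s ^ k < s ^ k * (ε / 2) + s ^ (k + 1) * Q := by
    have h7 : ‖(c n k - ci k) * (s : ℂ) ^ k‖ = ‖c n k - ci k‖ * s ^ k := by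
      rw [norm_mul, norm_pow, Complex.norm_real, Real.norm_of_nonneg hs0.le]
    rw [← h7]
    have h8 : (c n k - ci k) * (s : ℂ) ^ k =
        ((c n k - ci k) * (s : ℂ) ^ k + (T₁ - T₂)) - (T₁ - T₂) := by ring
    rw [h8]
    calc _ ≤ ‖(c n k - ci k) * (s : ℂ) ^ k + (T₁ - T₂)‖ + ‖T₁ - T₂‖ := norm_sub_le _ _
      _ ≤ ‖(c n k - ci k) * (s : ℂ) ^ k + (T₁ - T₂)‖ + (‖T₁‖ + ‖T₂‖) := by
          gcongr; exact norm_sub_le _ _
      _ < s ^ k * (ε / 2) + (s ^ (k + 1) * (2 * B / R ^ (k + 1)) +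
            s ^ (k + 1) * (2 * B / R ^ (k + 1))) := by
          apply add_lt_add_of_lt_of_le h1
          linarith
      _ = s ^ k * (ε / 2) + s ^ (k + 1) * Q := by rw [hQ]; ring
  have h9 : s ^ k * (ε / 2) + s ^ (k + 1) * Q = (ε / 2 + Q * s) * s ^ k := by ring
  rw [h9] at h6
  have h10 : ‖c n k - ci k‖ < ε / 2 + Q * s := lt_of_mul_lt_mul_right h6 (by positivity)
  linarith

/-- The corresponding statement for complex arguments. -/
theorem series_tendsto {c : ℕ → ℕ → ℂ} {ci : ℕ → ℂ} {R B : ℝ} (hR : 0 < R)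
    (hc : ∀ᶠ n in atTop, ∀ k, ‖c n k‖ * R ^ k ≤ B) (hci : ∀ k, ‖ci k‖ * R ^ k ≤ B)
    (hlim : ∀ s : ℝ, 0 < s → s < R →
      Tendsto (fun n => ∑' k, c n k * (s : ℂ) ^ k) atTop (𝓝 (∑' k, ci k * (s : ℂ) ^ k)))
    (z : ℂ) (hz : ‖z‖ < R) :
    Tendsto (fun n => ∑' k, c n k * z ^ k) atTop (𝓝 (∑' k, ci k * z ^ k)) := by
  have hsum : Summable (fun j : ℕ => B * (‖z‖ / R) ^ j) :=
    (summable_geometric_of_lt_one (by positivity) (by rw [div_lt_one hR]; exact hz)).mul_left B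
  refine tendsto_tsum_of_dominated_convergence hsum (fun k => ?_) ?_
  · exact (coeff_tendsto hR hc hci hlim k).mul_const _
  · filter_upwards [hc] with n hn k
    rw [norm_mul, norm_pow]
    have h1 : ‖c n k‖ ≤ B / R ^ k := by
      rw [le_div_iff₀ (by positivity)]; exact hn k
    calc ‖c n k‖ * ‖z‖ ^ k ≤ B / R ^ k * ‖z‖ ^ k := by gcongr
      _ = B * (‖z‖ / R) ^ k := by rw [div_pow]; ring

/-- Coefficients of `exp (A z ^ 2)`. -/
noncomputable def gc (A : ℝ) (k : ℕ) : ℂ :=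
  if Even k then ((A ^ (k / 2) / (k / 2).factorial : ℝ) : ℂ) else 0

theorem exp_hasSum (z : ℂ) : HasSum (fun j : ℕ => z ^ j / (j.factorial : ℂ)) (Complex.exp z) := by
  have := NormedSpace.expSeries_div_hasSum_exp (𝔸 := ℂ) z
  rw [← Complex.exp_eq_exp_ℂ] at this
  exact this

theorem gc_even (A : ℝ) (z : ℂ) (j : ℕ) :
    gc A (2 * j) * z ^ (2 * j) = ((A : ℂ) * z ^ 2) ^ j / (j.factorial : ℂ) := by
  have hd : 2 * j / 2 = j := by omega
  have he : Even (2 * j) := even_two_mul j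
  rw [gc, if_pos he, hd, mul_pow (A : ℂ) (z ^ 2) j, ← pow_mul]
  push_cast
  ring

theorem gc_odd (A : ℝ) (z : ℂ) (j : ℕ) : gc A (2 * j + 1) * z ^ (2 * j + 1) = 0 := by
  have : ¬ Even (2 * j + 1) := by
    rw [Nat.not_even_iff_odd]; exact odd_two_mul_add_one j
  rw [gc, if_neg this, zero_mul]

theorem gc_hasSum (A : ℝ) (z : ℂ) : HasSum (fun k => gc A k * z ^ k) (Complex.exp (A * z ^ 2)) := by
  have h1 : HasSum (fun j : ℕ => gc A (2 * j) * z ^ (2 * j)) (Complex.exp (A * z ^ 2)) := by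
    rw [funext (gc_even A z)]
    exact exp_hasSum _
  have h2 : HasSum (fun j : ℕ => gc A (2 * j + 1) * z ^ (2 * j + 1)) 0 := by
    rw [funext (gc_odd A z)]
    exact hasSum_zero
  have h3 := HasSum.even_add_odd (f := fun k => gc A k * z ^ k) h1 h2
  rw [add_zero] at h3
  exact h3

theorem gc_bound (A R : ℝ) (hA : 0 ≤ A) (k : ℕ) :
    ‖gc A k‖ * R ^ k ≤ Real.exp (A * R ^ 2) := by
  by_cases hk : Even k
  · obtain ⟨j, rfl⟩ := hk
    have h1 : gc A (j + j) = ((A ^ j / j.factorial : ℝ) : ℂ) := by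
      have : (j + j) / 2 = j := by omega
      simp [gc, this]
    rw [h1, Complex.norm_real, Real.norm_of_nonneg (by positivity)]
    have h2 : A ^ j / j.factorial * R ^ (j + j) = (A * R ^ 2) ^ j / j.factorial := by
      rw [mul_pow, ← pow_mul]; ring
    rw [h2]
    exact Real.pow_div_factorial_le_exp _ (by positivity) j
  · simp only [gc, hk, if_false, norm_zero, zero_mul]
    positivity

end Pool.Agent.W_MP_af6696_nt
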