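import Mathlib
import Pool.Agent.W_MP_af6696_nt.Series

set_option autoImplicit false

namespace Pool.Agent.W_MP_af6696_nt

open Filter Topology

theorem moment_summable {p y : ℕ → ℝ} (hp : ∀ m, 0 ≤ p m) {R : ℝ}
    (hs : Summable fun m => p m * Real.exp (R * |y m|)) {x : ℝ} (hx0 : 0 ≤ x) (hx : x ≤ R) :
    Summable fun q : ℕ × ℕ => p q.1 * ((x * |y q.1|) ^ q.2 / (q.2.factorial : ℝ)) := by
  rw [summable_prod_of_nonneg]
  · refine ⟨fun m => ?_, ?_⟩
    · show Summable fun k : ℕ => p m * ((x * |y m|) ^ k / (k.factorial : ℝ))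
      exact (Real.summable_pow_div_factorial _).mul_left _
    · show Summable fun m : ℕ => ∑' k : ℕ, p m * ((x * |y m|) ^ k / (k.factorial : ℝ))
      refine Summable.of_nonneg_of_le (fun m => ?_) (fun m => ?_) hs
      · apply tsum_nonneg
        intro k
        have := hp m
        positivity
      · rw [tsum_mul_left]
        have h1 : ∑' k : ℕ, (x * |y m|) ^ k / (k.factorial : ℝ) = Real.exp (x * |y m|) := by
          rw [Real.exp_eq_exp_ℝ]
          exact (NormedSpace.expSeries_div_hasSum_exp (𝔸 := ℝ) (x * |y m|)).tsum_eq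
        rw [h1]
        have := hp m
        gcongr
  · intro q
    have := hp q.1
    simp only [Pi.zero_apply]
    positivity

theorem moment_series {p y : ℕ → ℝ} (hp : ∀ m, 0 ≤ p m) {R : ℝ}
    (hs : Summable fun m => p m * Real.exp (R * |y m|)) (z : ℂ) (hz : ‖z‖ ≤ R) :
    ∑' m, (p m : ℂ) * Complex.exp (z * y m) =
      ∑' k : ℕ, ((∑' m, p m * (y m ^ k / (k.factorial : ℝ)) : ℝ) : ℂ) * z ^ k := by
  have hsum := moment_summable hp hs (norm_nonneg z) hz
  obtain ⟨F, hF⟩ : ∃ F : ℕ → ℕ → ℂ, ∀ m k, F m k =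
      (p m : ℂ) * ((z * y m) ^ k / (k.factorial : ℂ)) := ⟨_, fun _ _ => rfl⟩
  have hsumC : Summable (Function.uncurry F) := by
    refine Summable.of_norm (hsum.congr fun q => ?_)
    rw [Function.uncurry, hF, norm_mul, Complex.norm_real, Real.norm_of_nonneg (hp _), norm_div,
      norm_pow, norm_mul, Complex.norm_real, Real.norm_eq_abs, Complex.norm_natCast]
  have h1 : ∀ m, (p m : ℂ) * Complex.exp (z * y m) = ∑' k : ℕ, F m k := by
    intro m
    simp only [hF]
    rw [tsum_mul_left, (exp_hasSum (z * y m)).tsum_eq]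
  have h2 : ∀ k : ℕ, ((∑' m, p m * (y m ^ k / (k.factorial : ℝ)) : ℝ) : ℂ) * z ^ k =
      ∑' m, F m k := by
    intro k
    rw [Complex.ofReal_tsum, ← tsum_mul_right]
    refine tsum_congr fun m => ?_
    rw [hF]
    push_cast
    rw [mul_pow]
    ring
  rw [tsum_congr h1, tsum_congr h2]
  exact hsumC.tsum_comm.symm

theorem moment_bound {p y : ℕ → ℝ} (hp : ∀ m, 0 ≤ p m) {R : ℝ} (hR : 0 ≤ R)
    (hs : Summable fun m => p m * Real.exp (R * |y m|)) (k : ℕ) :
    ‖((∑' m, p m * (y m ^ k / (k.factorial : ℝ)) : ℝ) : ℂ)‖ * R ^ k ≤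
      ∑' m, p m * Real.exp (R * |y m|) := by
  rw [Complex.norm_real, Real.norm_eq_abs]
  have hsum1 : Summable fun m => p m * ((R * |y m|) ^ k / (k.factorial : ℝ)) := by
    refine Summable.of_nonneg_of_le (fun m => ?_) (fun m => ?_) hs
    · have := hp m
      positivity
    · have := hp m
      gcongr
      exact Real.pow_div_factorial_le_exp _ (by positivity) k
  have h1 : |∑' m, p m * (y m ^ k / (k.factorial : ℝ))| * R ^ k ≤
      ∑' m, p m * ((R * |y m|) ^ k / (k.factorial : ℝ)) := by
    have hRk : |R ^ k| = R ^ k := abs_of_nonneg (by positivity)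
    rw [← hRk, ← abs_mul, ← tsum_mul_right]
    have h2 : ‖∑' m, p m * (y m ^ k / (k.factorial : ℝ)) * R ^ k‖ ≤
        ∑' m, p m * ((R * |y m|) ^ k / (k.factorial : ℝ)) := by
      apply tsum_of_norm_bounded hsum1.hasSum
      intro m
      rw [norm_mul, norm_mul, norm_div, norm_pow, Real.norm_of_nonneg (hp m), Real.norm_eq_abs,
        Real.norm_eq_abs, Real.norm_eq_abs, hRk, abs_of_nonneg (a := (k.factorial : ℝ))
        (by positivity), mul_pow]
      apply le_of_eq
      ring
    exact h2
  refine h1.trans ?_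
  apply Summable.tsum_le_tsum _ hsum1 hs
  intro m
  have := hp m
  gcongr
  exact Real.pow_div_factorial_le_exp _ (by positivity) k

/-- If the moment generating functions converge to that of a centred Gaussian on the real line,
then they converge on the imaginary axis. -/
theorem charfun_tendsto {p y : ℕ → ℕ → ℝ} (hp : ∀ n m, 0 ≤ p n m) (A : ℝ) (hA : 0 ≤ A)
    (hs : ∀ R : ℝ, 0 < R → ∀ᶠ n in atTop, Summable fun m => p n m * Real.exp (R * |y n m|))
    (hlim : ∀ s : ℝ, Tendsto (fun n => ∑' m, p n m * Real.exp (s * y n m)) atTop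
      (𝓝 (Real.exp (A * s ^ 2)))) (w : ℝ) :
    Tendsto (fun n => ∑' m, (p n m : ℂ) * Complex.exp ((w * Complex.I) * y n m)) atTop
      (𝓝 (Complex.exp (-A * w ^ 2))) := by
  set R : ℝ := |w| + 1 with hR
  have hR0 : 0 < R := by positivity
  have hsR := hs R hR0
  -- uniform bound
  have hbd : ∀ᶠ n in atTop, ∑' m, p n m * Real.exp (R * |y n m|) ≤ 2 * (Real.exp (A * R ^ 2) + 1) := by
    have h1 := (hlim R).eventually (gt_mem_nhds (lt_add_one (Real.exp (A * R ^ 2))))
    have h2 := (hlim (-R)).eventually (gt_mem_nhds (lt_add_one (Real.exp (A * (-R) ^ 2))))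
    filter_upwards [h1, h2, hsR] with n h1 h2 h3
    rw [neg_sq] at h2
    have hle : ∀ m, p n m * Real.exp (R * y n m) ≤ p n m * Real.exp (R * |y n m|) := by
      intro m
      have := hp n m
      have h4 := le_abs_self (y n m)
      gcongr
    have hle' : ∀ m, p n m * Real.exp (-R * y n m) ≤ p n m * Real.exp (R * |y n m|) := by
      intro m
      have := hp n m
      have h4 := neg_abs_le (y n m)
      have h5 : -R * y n m ≤ R * |y n m| := by nlinarith
      gcongr
    have hs1 : Summable fun m => p n m * Real.exp (R * y n m) :=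
      Summable.of_nonneg_of_le (fun m => mul_nonneg (hp n m) (Real.exp_nonneg _)) hle h3
    have hs2 : Summable fun m => p n m * Real.exp (-R * y n m) :=
      Summable.of_nonneg_of_le (fun m => mul_nonneg (hp n m) (Real.exp_nonneg _)) hle' h3
    calc ∑' m, p n m * Real.exp (R * |y n m|)
        ≤ ∑' m, (p n m * Real.exp (R * y n m) + p n m * Real.exp (-R * y n m)) := by
          apply Summable.tsum_le_tsum _ h3 (hs1.add hs2)
          intro m
          rw [← mul_add]
          apply mul_le_mul_of_nonneg_left _ (hp n m)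
          rcases abs_cases (y n m) with ⟨h, _⟩ | ⟨h, _⟩
          · rw [h]
            have := Real.exp_nonneg (-R * y n m)
            linarith
          · rw [h]
            have := Real.exp_nonneg (R * y n m)
            have h6 : R * -y n m = -R * y n m := by ring
            rw [h6]
            linarith
      _ = ∑' m, p n m * Real.exp (R * y n m) + ∑' m, p n m * Real.exp (-R * y n m) :=
          hs1.tsum_add hs2
      _ ≤ 2 * (Real.exp (A * R ^ 2) + 1) := by linarith
  set B : ℝ := 2 * (Real.exp (A * R ^ 2) + 1) with hB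
  set c : ℕ → ℕ → ℂ := fun n k => ((∑' m, p n m * (y n m ^ k / (k.factorial : ℝ)) : ℝ) : ℂ)
    with hc
  have hcb : ∀ᶠ n in atTop, ∀ k, ‖c n k‖ * R ^ k ≤ B := by
    filter_upwards [hbd, hsR] with n h1 h2 k
    exact (moment_bound (hp n) hR0.le h2 k).trans h1
  have hcib : ∀ k, ‖gc A k‖ * R ^ k ≤ B := by
    intro k
    refine (gc_bound A R hA k).trans ?_
    have := Real.exp_nonneg (A * R ^ 2)
    linarith
  have hgc : ∀ z : ℂ, ∑' k, gc A k * z ^ k = Complex.exp (A * z ^ 2) := fun z =>
    (gc_hasSum A z).tsum_eq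
  have hreal : ∀ s : ℝ, 0 < s → s < R →
      Tendsto (fun n => ∑' k, c n k * (s : ℂ) ^ k) atTop (𝓝 (∑' k, gc A k * (s : ℂ) ^ k)) := by
    intro s hs0 hsR'
    rw [hgc]
    have h1 : Tendsto (fun n => ((∑' m, p n m * Real.exp (s * y n m) : ℝ) : ℂ)) atTop
        (𝓝 ((Real.exp (A * s ^ 2) : ℝ) : ℂ)) :=
      (Complex.continuous_ofReal.tendsto _).comp (hlim s)
    have h2 : ((Real.exp (A * s ^ 2) : ℝ) : ℂ) = Complex.exp (A * (s : ℂ) ^ 2) := by
      push_cast; rfl
    rw [h2] at h1
    refine h1.congr' ?_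
    filter_upwards [hsR] with n hn
    have h3 := moment_series (hp n) hn (s : ℂ) (by
      rw [Complex.norm_real, Real.norm_of_nonneg hs0.le]; exact hsR'.le)
    rw [hc]
    simp only
    rw [← h3, Complex.ofReal_tsum]
    refine tsum_congr fun m => ?_
    push_cast
    rfl
  have hfin := series_tendsto hR0 hcb hcib hreal (w * Complex.I) (by
    rw [norm_mul, Complex.norm_I, mul_one, Complex.norm_real, Real.norm_eq_abs, hR]
    linarith)
  rw [hgc] at hfin
  have h4 : (A : ℂ) * ((w : ℂ) * Complex.I) ^ 2 = -A * (w : ℂ) ^ 2 := by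
    rw [mul_pow, Complex.I_sq]; ring
  rw [h4] at hfin
  refine hfin.congr' ?_
  filter_upwards [hsR] with n hn
  rw [hc]
  simp only
  rw [← moment_series (hp n) hn (w * Complex.I) (by
    rw [norm_mul, Complex.norm_I, mul_one, Complex.norm_real, Real.norm_eq_abs, hR]
    linarith)]

end Pool.Agent.W_MP_af6696_nt
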