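import Mathlib
import Pool.Agent.W_MP_af6696_nt.Moments

set_option autoImplicit false

namespace Pool.Agent.W_MP_af6696_nt

open Filter Topology MeasureTheory Real

/-- The generating function on the positive real axis. -/
noncomputable def fR (a : ℕ → ℝ) (t : ℝ) : ℝ := ∑' n : ℕ, a n * Real.exp (-t * n)

theorem exp_int_pi (k : ℤ) (hk : k ≠ 0) :
    ∫ θ in (-π)..π, Complex.exp ((k * Complex.I) * θ) = 0 := by
  have hc : (k : ℂ) * Complex.I ≠ 0 := by
    simp [Complex.I_ne_zero, hk]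
  rw [integral_exp_mul_complex hc]
  have h1 : Complex.exp ((k : ℂ) * Complex.I * (π : ℝ)) =
      Complex.exp ((k : ℂ) * Complex.I * ((-π : ℝ) : ℂ)) := by
    rw [Complex.exp_eq_exp_iff_exists_int]
    refine ⟨k, ?_⟩
    push_cast
    ring
  rw [h1, sub_self, zero_div]

theorem coeff_integral {a : ℕ → ℝ} (ha : ∀ n, 0 ≤ a n)
    (hsum : ∀ t : ℝ, 0 < t → Summable fun n : ℕ => a n * Real.exp (-t * n)) {t : ℝ} (ht : 0 < t)
    (n : ℕ) :
    ∫ θ in (-π)..π, ∑' m : ℕ, ((a m * Real.exp (-t * m) : ℝ) : ℂ) *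
      Complex.exp ((θ * Complex.I) * ((m : ℂ) - n)) = ((2 * π * (a n * Real.exp (-t * n)) : ℝ) : ℂ) := by
  have hnn : ∀ m : ℕ, 0 ≤ a m * Real.exp (-t * m) := fun m => mul_nonneg (ha m) (exp_nonneg _)
  have hnorm : ∀ (m : ℕ) (θ : ℝ), ‖((a m * Real.exp (-t * m) : ℝ) : ℂ) *
      Complex.exp ((θ * Complex.I) * ((m : ℂ) - n))‖ = a m * Real.exp (-t * m) := by
    intro m θ
    have h1 : (θ : ℂ) * Complex.I * ((m : ℂ) - n) = ((θ * ((m : ℝ) - n) : ℝ) : ℂ) * Complex.I := by
      push_cast; ring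
    rw [norm_mul, Complex.norm_real, Real.norm_of_nonneg (hnn m), h1,
      Complex.norm_exp_ofReal_mul_I, mul_one]
  have hs := intervalIntegral.hasSum_integral_of_dominated_convergence (μ := volume)
    (a := -π) (b := π)
    (F := fun (m : ℕ) (θ : ℝ) => ((a m * Real.exp (-t * m) : ℝ) : ℂ) *
      Complex.exp ((θ * Complex.I) * ((m : ℂ) - n)))
    (f := fun θ : ℝ => ∑' m : ℕ, ((a m * Real.exp (-t * m) : ℝ) : ℂ) *
      Complex.exp ((θ * Complex.I) * ((m : ℂ) - n)))
    (bound := fun m _ => a m * Real.exp (-t * m))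
    (fun m => (by fun_prop : Continuous fun θ : ℝ => ((a m * Real.exp (-t * m) : ℝ) : ℂ) *
      Complex.exp ((θ * Complex.I) * ((m : ℂ) - n))).aestronglyMeasurable)
    (fun m => Filter.Eventually.of_forall fun θ _ => (hnorm m θ).le)
    (Filter.Eventually.of_forall fun θ _ => hsum t ht)
    (by exact intervalIntegrable_const)
    (Filter.Eventually.of_forall fun θ _ => by
      apply Summable.hasSum
      apply Summable.of_norm
      simp only [hnorm]
      exact hsum t ht)
  rw [← hs.tsum_eq]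
  rw [tsum_eq_single n]
  · simp only [sub_self, mul_zero, Complex.exp_zero, mul_one]
    rw [intervalIntegral.integral_const]
    rw [sub_neg_eq_add, Complex.real_smul]
    push_cast
    ring
  · intro m hm
    rw [intervalIntegral.integral_const_mul]
    have h2 : ∫ θ in (-π)..π, Complex.exp ((θ * Complex.I) * ((m : ℂ) - n)) =
        ∫ θ in (-π)..π, Complex.exp (((((m : ℤ) - n : ℤ) : ℂ) * Complex.I) * θ) := by
      apply intervalIntegral.integral_congr
      intro θ _
      simp only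
      congr 1
      push_cast
      ring
    rw [h2, exp_int_pi _ (by omega), mul_zero]

/-- the scale -/
noncomputable def us (A : ℝ) (n : ℕ) : ℝ := (A / n) ^ (1 / 4 : ℝ)

theorem us_pos {A : ℝ} (hA : 0 < A) {n : ℕ} (hn : 0 < n) : 0 < us A n := by
  unfold us; positivity

theorem us_pow {A : ℝ} (hA : 0 < A) {n : ℕ} (hn : 0 < n) : us A n ^ 4 * n = A := by
  unfold us
  have hn' : (0 : ℝ) < n := by exact_mod_cast hn
  rw [← Real.rpow_natCast, ← Real.rpow_mul (by positivity)]
  norm_num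
  field_simp

theorem us_tendsto {A : ℝ} : Tendsto (us A) atTop (𝓝 0) := by
  unfold us
  have h1 : Tendsto (fun n : ℕ => A / (n : ℝ)) atTop (𝓝 0) := tendsto_const_div_atTop_nhds_zero_nat A
  have h2 := h1.rpow_const (p := (1 / 4 : ℝ)) (Or.inr (by norm_num))
  rwa [Real.zero_rpow (by norm_num)] at h2

theorem fR_tendsto_ratio {a : ℕ → ℝ} {A K : ℝ} (hA : 0 < A) (hK : 0 < K)
    (hR : Tendsto (fun t => fR a t * Real.exp (-A / t)) (𝓝[>] 0) (𝓝 K)) (s : ℝ) :
    Tendsto (fun n : ℕ => Real.exp (-(s * us A n ^ 3 * n)) *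
      (fR a (us A n ^ 2 - s * us A n ^ 3) / fR a (us A n ^ 2))) atTop (𝓝 (Real.exp (A * s ^ 2))) := by
  have hu := us_tendsto (A := A)
  have hupos : ∀ᶠ n : ℕ in atTop, 0 < us A n := by
    filter_upwards [eventually_gt_atTop 0] with n hn
    exact us_pos hA hn
  have hsu : ∀ᶠ n : ℕ in atTop, s * us A n < 1 := by
    have h1 : Tendsto (fun n => s * us A n) atTop (𝓝 (s * 0)) := hu.const_mul s
    rw [mul_zero] at h1
    exact h1.eventually (gt_mem_nhds one_pos)
  have ht : Tendsto (fun n : ℕ => us A n ^ 2) atTop (𝓝[>] 0) := by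
    rw [tendsto_nhdsWithin_iff]
    refine ⟨?_, ?_⟩
    · have := hu.pow 2
      simpa using this
    · filter_upwards [hupos] with n hn
      exact Set.mem_Ioi.mpr (by positivity)
  have ht' : Tendsto (fun n : ℕ => us A n ^ 2 - s * us A n ^ 3) atTop (𝓝[>] 0) := by
    rw [tendsto_nhdsWithin_iff]
    refine ⟨?_, ?_⟩
    · have := (hu.pow 2).sub ((hu.pow 3).const_mul s)
      simpa using this
    · filter_upwards [hupos, hsu] with n hn h1
      rw [Set.mem_Ioi]
      have : us A n ^ 2 - s * us A n ^ 3 = us A n ^ 2 * (1 - s * us A n) := by ring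
      rw [this]
      have : 0 < 1 - s * us A n := by linarith
      positivity
  have h1 := hR.comp ht
  have h2 := hR.comp ht'
  have h3 : Tendsto (fun n : ℕ => Real.exp (A * s ^ 2 / (1 - s * us A n))) atTop
      (𝓝 (Real.exp (A * s ^ 2))) := by
    apply (Real.continuous_exp.tendsto _).comp
    have h4 : Tendsto (fun n : ℕ => 1 - s * us A n) atTop (𝓝 1) := by
      have := (hu.const_mul s).const_sub 1
      simpa using this
    have h5 : Tendsto (fun n : ℕ => A * s ^ 2 / (1 - s * us A n)) atTop (𝓝 (A * s ^ 2 / 1)) :=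
      tendsto_const_nhds.div h4 one_ne_zero
    rwa [div_one] at h5
  have h4 := (h2.div h1 hK.ne').mul h3
  rw [div_self hK.ne', one_mul] at h4
  refine h4.congr' ?_
  filter_upwards [hupos, hsu, eventually_gt_atTop 0] with n hn h5 hn0
  simp only [Function.comp, Pi.div_apply]
  set u := us A n with hudef
  have hun : u ^ 4 * n = A := us_pow hA hn0
  have hn' : (n : ℝ) = A / u ^ 4 := by
    rw [← hun]; field_simp
  have h6 : 0 < 1 - s * u := by linarith
  have h7 : u ^ 2 - s * u ^ 3 = u ^ 2 * (1 - s * u) := by ring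
  have h8 : Real.exp (-A / (u ^ 2 - s * u ^ 3)) ≠ 0 := (Real.exp_pos _).ne'
  have h9 : Real.exp (-A / u ^ 2) ≠ 0 := (Real.exp_pos _).ne'
  have hexp : Real.exp (-A / (u ^ 2 - s * u ^ 3)) / Real.exp (-A / u ^ 2) *
      Real.exp (A * s ^ 2 / (1 - s * u)) = Real.exp (-(s * u ^ 3 * n)) := by
    rw [← Real.exp_sub, ← Real.exp_add]
    congr 1
    rw [hn', h7]
    obtain ⟨v, hv⟩ : ∃ v, v = 1 - s * u := ⟨_, rfl⟩
    rw [← hv] at h6 ⊢
    have hs : s = (1 - v) / u := by
      rw [eq_div_iff hn.ne', hv]; ring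
    rw [hs]
    field_simp
    ring
  rw [← hexp]
  ring

end Pool.Agent.W_MP_af6696_nt
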