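import Mathlib
import Pool.Agent.W_MP_af6696_nt.Local

set_option autoImplicit false

namespace Pool.Agent.W_MP_af6696_nt

open Filter Topology MeasureTheory Real

section

variable {a : ℕ → ℝ} {A K : ℝ}

/-- the normalized weights -/
noncomputable def pw (a : ℕ → ℝ) (A : ℝ) (n m : ℕ) : ℝ :=
  a m * Real.exp (-(us A n ^ 2) * m) / fR a (us A n ^ 2)

/-- the normalized positions -/
noncomputable def yw (A : ℝ) (n m : ℕ) : ℝ := ((m : ℝ) - n) * us A n ^ 3

theorem fR_nonneg (ha : ∀ n, 0 ≤ a n) (t : ℝ) : 0 ≤ fR a t :=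
  tsum_nonneg fun n => mul_nonneg (ha n) (exp_nonneg _)

theorem pw_nonneg (ha : ∀ n, 0 ≤ a n) (n m : ℕ) : 0 ≤ pw a A n m :=
  div_nonneg (mul_nonneg (ha m) (exp_nonneg _)) (fR_nonneg ha _)

theorem tsum_pw_exp (n : ℕ) (s : ℝ) :
    ∑' m, pw a A n m * Real.exp (s * yw A n m) = Real.exp (-(s * us A n ^ 3 * n)) *
      (fR a (us A n ^ 2 - s * us A n ^ 3) / fR a (us A n ^ 2)) := by
  have h1 : ∀ m : ℕ, pw a A n m * Real.exp (s * yw A n m) =
      (Real.exp (-(s * us A n ^ 3 * n)) / fR a (us A n ^ 2)) *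
        (a m * Real.exp (-(us A n ^ 2 - s * us A n ^ 3) * m)) := by
    intro m
    have h2 : Real.exp (-(us A n ^ 2) * m) * Real.exp (s * yw A n m) =
        Real.exp (-(s * us A n ^ 3 * n)) * Real.exp (-(us A n ^ 2 - s * us A n ^ 3) * m) := by
      rw [← Real.exp_add, ← Real.exp_add]
      congr 1
      unfold yw
      ring
    unfold pw
    rw [div_mul_eq_mul_div, mul_assoc, h2]
    ring
  rw [tsum_congr h1, tsum_mul_left]
  unfold fR
  ring

theorem summable_pw (hsum : ∀ t : ℝ, 0 < t → Summable fun n : ℕ => a n * Real.exp (-t * n))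
    (ha : ∀ n, 0 ≤ a n) {R : ℝ} (hR : 0 < R) {n : ℕ} (hn : 0 < us A n) (h : R * us A n < 1) :
    Summable fun m => pw a A n m * Real.exp (R * |yw A n m|) := by
  set u := us A n with hu
  have ht : 0 < u ^ 2 - R * u ^ 3 := by
    have : u ^ 2 - R * u ^ 3 = u ^ 2 * (1 - R * u) := by ring
    rw [this]
    have : 0 < 1 - R * u := by linarith
    positivity
  have hs := (hsum _ ht).mul_left (Real.exp (R * u ^ 3 * n) / fR a (u ^ 2))
  refine Summable.of_nonneg_of_le (fun m => mul_nonneg (pw_nonneg ha n m) (exp_nonneg _))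
    (fun m => ?_) hs
  have h1 : |yw A n m| ≤ (m + n) * u ^ 3 := by
    unfold yw
    rw [abs_mul, abs_of_nonneg (a := us A n ^ 3) (by positivity)]
    gcongr
    calc |(m : ℝ) - n| ≤ |(m : ℝ)| + |(n : ℝ)| := abs_sub _ _
      _ = m + n := by simp
  have h2 : Real.exp (-(u ^ 2) * m) * Real.exp (R * |yw A n m|) ≤
      Real.exp (R * u ^ 3 * n) * Real.exp (-(u ^ 2 - R * u ^ 3) * m) := by
    rw [← Real.exp_add, ← Real.exp_add]
    apply Real.exp_le_exp.mpr
    nlinarith [mul_le_mul_of_nonneg_left h1 hR.le]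
  have hf := fR_nonneg ha (u ^ 2)
  calc pw a A n m * Real.exp (R * |yw A n m|)
      = a m / fR a (u ^ 2) * (Real.exp (-(u ^ 2) * m) * Real.exp (R * |yw A n m|)) := by
        unfold pw; rw [← hu]; ring
    _ ≤ a m / fR a (u ^ 2) *
        (Real.exp (R * u ^ 3 * n) * Real.exp (-(u ^ 2 - R * u ^ 3) * m)) := by
        apply mul_le_mul_of_nonneg_left h2 (div_nonneg (ha m) hf)
    _ = _ := by ring

/-- the normalized characteristic function -/
noncomputable def chf (a : ℕ → ℝ) (A : ℝ) (n : ℕ) (w : ℝ) : ℂ :=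
  ∑' m, (pw a A n m : ℂ) * Complex.exp ((w * Complex.I) * yw A n m)

theorem chf_tendsto (ha : ∀ n, 0 ≤ a n)
    (hsum : ∀ t : ℝ, 0 < t → Summable fun n : ℕ => a n * Real.exp (-t * n))
    (hA : 0 < A) (hK : 0 < K)
    (hR : Tendsto (fun t => fR a t * Real.exp (-A / t)) (𝓝[>] 0) (𝓝 K)) (w : ℝ) :
    Tendsto (fun n => chf a A n w) atTop (𝓝 (Complex.exp (-A * w ^ 2))) := by
  unfold chf
  refine charfun_tendsto (p := pw a A) (y := yw A) (fun n m => pw_nonneg ha n m) A hA.le ?_ ?_ w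
  · intro R hR0
    have h1 : Tendsto (fun n => R * us A n) atTop (𝓝 (R * 0)) := us_tendsto.const_mul R
    rw [mul_zero] at h1
    filter_upwards [h1.eventually (gt_mem_nhds one_pos), eventually_gt_atTop 0] with n h2 hn
    exact summable_pw hsum ha hR0 (us_pos hA hn) h2
  · intro s
    simp only [tsum_pw_exp]
    exact fR_tendsto_ratio hA hK hR s

theorem chf_eq (n : ℕ) (w : ℝ) :
    chf a A n w = Complex.exp (-((w * us A n ^ 3 * n : ℝ) : ℂ) * Complex.I) *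
      (∑' m : ℕ, (a m : ℂ) * Complex.exp ((-((us A n ^ 2 : ℝ) : ℂ) +
        ((us A n ^ 3 * w : ℝ) : ℂ) * Complex.I) * m)) / fR a (us A n ^ 2) := by
  unfold chf
  rw [mul_div_right_comm, ← tsum_mul_left]
  refine tsum_congr fun m => ?_
  unfold pw yw
  rw [Complex.ofReal_div, Complex.ofReal_mul, Complex.ofReal_exp]
  have h1 : Complex.exp ((-(us A n ^ 2) * m : ℝ) : ℂ) *
      Complex.exp ((w * Complex.I) * (((m : ℝ) - n) * us A n ^ 3 : ℝ)) =
      Complex.exp (-((w * us A n ^ 3 * n : ℝ) : ℂ) * Complex.I) *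
        Complex.exp ((-((us A n ^ 2 : ℝ) : ℂ) + ((us A n ^ 3 * w : ℝ) : ℂ) * Complex.I) * m) := by
    rw [← Complex.exp_add, ← Complex.exp_add]
    congr 1
    push_cast
    ring
  rw [div_mul_eq_mul_div, mul_assoc, h1]
  ring

theorem chf_bound (ha : ∀ n, 0 ≤ a n) {κ t₀ : ℝ} (hκ : 0 < κ)
    (hM : ∀ t : ℝ, 0 < t → t ≤ t₀ → ∀ θ : ℝ, |θ| ≤ π →
      ‖∑' m : ℕ, (a m : ℂ) * Complex.exp ((-(t : ℂ) + (θ : ℂ) * Complex.I) * m)‖ ≤
        Real.exp (-κ * min (1 / t) (θ ^ 2 / t ^ 3)) * fR a t) {n : ℕ} (hn : 0 < us A n)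
    (hn1 : us A n ≤ 1) (hnt : us A n ^ 2 ≤ t₀) (hf : 0 < fR a (us A n ^ 2)) (w : ℝ)
    (hw : |w| ≤ π / us A n ^ 3) :
    ‖chf a A n w‖ ≤ Real.exp (-κ * w ^ 2) + 6 * (1 + π ^ 2) / κ ^ 3 * (1 + w ^ 2)⁻¹ := by
  set u := us A n with hu
  have hθ : |u ^ 3 * w| ≤ π := by
    rw [abs_mul, abs_of_nonneg (a := u ^ 3) (by positivity)]
    rw [le_div_iff₀ (by positivity)] at hw
    linarith
  have h1 := hM (u ^ 2) (by positivity) hnt (u ^ 3 * w) hθ
  rw [chf_eq, ← hu, norm_div, norm_mul]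
  have h2 : ‖Complex.exp (-((w * u ^ 3 * n : ℝ) : ℂ) * Complex.I)‖ = 1 := by
    rw [← Complex.ofReal_neg]
    exact Complex.norm_exp_ofReal_mul_I _
  rw [h2, one_mul, Complex.norm_real, Real.norm_of_nonneg hf.le, div_le_iff₀ hf]
  refine h1.trans (mul_le_mul_of_nonneg_right ?_ hf.le)
  have h3 : (u ^ 3 * w) ^ 2 / (u ^ 2) ^ 3 = w ^ 2 := by field_simp
  rw [h3]
  have hw2 : 1 + w ^ 2 ≤ (1 + π ^ 2) / (u ^ 2) ^ 3 := by
    have h4 : w ^ 2 ≤ (π / u ^ 3) ^ 2 := by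
      rw [← sq_abs w]
      gcongr
    have h5 : (1 : ℝ) ≤ 1 / (u ^ 2) ^ 3 := by
      rw [le_div_iff₀ (by positivity)]
      have : (u ^ 2) ^ 3 ≤ 1 := pow_le_one₀ (by positivity) (pow_le_one₀ hn.le hn1)
      linarith
    have h6 : (π / u ^ 3) ^ 2 = π ^ 2 / (u ^ 2) ^ 3 := by field_simp
    rw [h6] at h4
    calc 1 + w ^ 2 ≤ 1 / (u ^ 2) ^ 3 + π ^ 2 / (u ^ 2) ^ 3 := by linarith
      _ = _ := by ring
  have hexp : Real.exp (-κ * (1 / u ^ 2)) ≤ 6 * (1 + π ^ 2) / κ ^ 3 * (1 + w ^ 2)⁻¹ := by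
    have h7 : (κ / u ^ 2) ^ 3 / (Nat.factorial 3 : ℝ) ≤ Real.exp (κ / u ^ 2) :=
      Real.pow_div_factorial_le_exp _ (by positivity) 3
    have h8 : ((Nat.factorial 3 : ℕ) : ℝ) = 6 := by norm_num [Nat.factorial]
    rw [h8] at h7
    have h9 : -κ * (1 / u ^ 2) = -(κ / u ^ 2) := by ring
    rw [h9, Real.exp_neg, ← div_eq_mul_inv, inv_eq_one_div,
      div_le_div_iff₀ (exp_pos _) (by positivity), one_mul]
    calc 1 + w ^ 2 ≤ (1 + π ^ 2) / (u ^ 2) ^ 3 := hw2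
      _ = 6 * (1 + π ^ 2) / κ ^ 3 * ((κ / u ^ 2) ^ 3 / 6) := by field_simp
      _ ≤ 6 * (1 + π ^ 2) / κ ^ 3 * Real.exp (κ / u ^ 2) := by gcongr
  rcases min_cases (1 / u ^ 2) (w ^ 2) with ⟨h, _⟩ | ⟨h, _⟩
  · rw [h]
    have := Real.exp_nonneg (-κ * w ^ 2)
    linarith
  · rw [h]
    have : 0 ≤ 6 * (1 + π ^ 2) / κ ^ 3 * (1 + w ^ 2)⁻¹ := by positivity
    linarith

theorem chf_continuous (hsum : ∀ t : ℝ, 0 < t → Summable fun n : ℕ => a n * Real.exp (-t * n))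
    (ha : ∀ n, 0 ≤ a n) {n : ℕ} (hn : 0 < us A n) : Continuous (chf a A n) := by
  unfold chf
  have hs : Summable fun m : ℕ => pw a A n m := by
    unfold pw
    simp only [div_eq_mul_inv]
    exact (hsum _ (by positivity)).mul_right _
  refine continuous_tsum (fun m => by fun_prop) hs (fun m w => ?_)
  rw [norm_mul, Complex.norm_real, Real.norm_of_nonneg (pw_nonneg ha n m)]
  have h1 : (w : ℂ) * Complex.I * yw A n m = ((w * yw A n m : ℝ) : ℂ) * Complex.I := by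
    push_cast; ring
  rw [h1, Complex.norm_exp_ofReal_mul_I, mul_one]

theorem chf_integral (ha : ∀ n, 0 ≤ a n)
    (hsum : ∀ t : ℝ, 0 < t → Summable fun n : ℕ => a n * Real.exp (-t * n)) {n : ℕ}
    (hn : 0 < us A n) :
    ∫ w in (-(π / us A n ^ 3))..(π / us A n ^ 3), chf a A n w =
      ((2 * π * (a n * Real.exp (-(us A n ^ 2) * n)) / (fR a (us A n ^ 2) * us A n ^ 3) : ℝ) : ℂ) := by
  set u := us A n with hu
  have h1 := coeff_integral ha hsum (t := u ^ 2) (by positivity) n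
  have hu3 : u ^ 3 ≠ 0 := by positivity
  set g : ℝ → ℂ := fun θ => ∑' m : ℕ, ((a m * Real.exp (-(u ^ 2) * m) : ℝ) : ℂ) *
      Complex.exp ((θ * Complex.I) * ((m : ℂ) - n)) with hg
  have h2 := intervalIntegral.integral_comp_mul_left (a := -(π / u ^ 3)) (b := π / u ^ 3) g hu3
  have h3 : u ^ 3 * -(π / u ^ 3) = -π := by field_simp
  have h4 : u ^ 3 * (π / u ^ 3) = π := by field_simp
  rw [h3, h4, h1] at h2
  have h5 : ∀ w : ℝ, chf a A n w = g (u ^ 3 * w) * ((fR a (u ^ 2) : ℝ) : ℂ)⁻¹ := by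
    intro w
    unfold chf
    simp only [hg]
    rw [← tsum_mul_right]
    refine tsum_congr fun m => ?_
    unfold pw yw
    rw [← hu, Complex.ofReal_div, div_eq_mul_inv]
    have h6 : (w : ℂ) * Complex.I * ((((m : ℝ) - n) * u ^ 3 : ℝ) : ℂ) =
        ((u ^ 3 * w : ℝ) : ℂ) * Complex.I * ((m : ℂ) - n) := by
      push_cast; ring
    rw [h6]
    ring
  simp only [h5]
  rw [intervalIntegral.integral_mul_const, h2, Complex.real_smul]
  push_cast
  field_simp

theorem chf_integral_tendsto (ha : ∀ n, 0 ≤ a n)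
    (hsum : ∀ t : ℝ, 0 < t → Summable fun n : ℕ => a n * Real.exp (-t * n))
    (hA : 0 < A) (hK : 0 < K)
    (hR : Tendsto (fun t => fR a t * Real.exp (-A / t)) (𝓝[>] 0) (𝓝 K))
    {κ t₀ : ℝ} (hκ : 0 < κ) (ht₀ : 0 < t₀)
    (hM : ∀ t : ℝ, 0 < t → t ≤ t₀ → ∀ θ : ℝ, |θ| ≤ π →
      ‖∑' m : ℕ, (a m : ℂ) * Complex.exp ((-(t : ℂ) + (θ : ℂ) * Complex.I) * m)‖ ≤
        Real.exp (-κ * min (1 / t) (θ ^ 2 / t ^ 3)) * fR a t) :
    Tendsto (fun n => ∫ w in (-(π / us A n ^ 3))..(π / us A n ^ 3), chf a A n w) atTop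
      (𝓝 ((√(π / A) : ℝ) : ℂ)) := by
  have hu := us_tendsto (A := A)
  have hupos : ∀ᶠ n : ℕ in atTop, 0 < us A n := by
    filter_upwards [eventually_gt_atTop 0] with n hn
    exact us_pos hA hn
  have hu1 : ∀ᶠ n : ℕ in atTop, us A n ≤ 1 := by
    filter_upwards [hu.eventually (gt_mem_nhds one_pos)] with n hn using hn.le
  have hut : ∀ᶠ n : ℕ in atTop, us A n ^ 2 ≤ t₀ := by
    have h1 : Tendsto (fun n => us A n ^ 2) atTop (𝓝 0) := by simpa using hu.pow 2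
    filter_upwards [h1.eventually (gt_mem_nhds ht₀)] with n hn using hn.le
  have ht : Tendsto (fun n : ℕ => us A n ^ 2) atTop (𝓝[>] 0) := by
    rw [tendsto_nhdsWithin_iff]
    refine ⟨by simpa using hu.pow 2, ?_⟩
    filter_upwards [hupos] with n hn
    exact Set.mem_Ioi.mpr (by positivity)
  have hf : ∀ᶠ n : ℕ in atTop, 0 < fR a (us A n ^ 2) := by
    have h1 := (hR.comp ht).eventually (lt_mem_nhds hK)
    filter_upwards [h1] with n hn
    simp only [Function.comp] at hn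
    exact pos_of_mul_pos_left hn (exp_nonneg _)
  have hlim : ∫ w : ℝ, Complex.exp (-A * (w : ℂ) ^ 2) = ((√(π / A) : ℝ) : ℂ) := by
    rw [← integral_gaussian A, ← integral_complex_ofReal]
    apply integral_congr_ae
    filter_upwards with w
    push_cast
    rfl
  rw [← hlim]
  have hcongr : ∀ᶠ n : ℕ in atTop,
      ∫ w : ℝ, (Set.Ioc (-(π / us A n ^ 3)) (π / us A n ^ 3)).indicator (chf a A n) w =
      ∫ w in (-(π / us A n ^ 3))..(π / us A n ^ 3), chf a A n w := by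
    filter_upwards [hupos] with n hn
    have h1 : 0 < π / us A n ^ 3 := by positivity
    rw [intervalIntegral.integral_of_le (by linarith), integral_indicator measurableSet_Ioc]
  refine Tendsto.congr' hcongr ?_
  refine tendsto_integral_filter_of_dominated_convergence
    (fun w => Real.exp (-κ * w ^ 2) + 6 * (1 + π ^ 2) / κ ^ 3 * (1 + w ^ 2)⁻¹) ?_ ?_ ?_ ?_
  · filter_upwards [hupos] with n hn
    exact (chf_continuous hsum ha hn).aestronglyMeasurable.indicator measurableSet_Ioc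
  · filter_upwards [hupos, hu1, hut, hf] with n h1 h2 h3 h4
    filter_upwards with w
    by_cases hw : w ∈ Set.Ioc (-(π / us A n ^ 3)) (π / us A n ^ 3)
    · rw [Set.indicator_of_mem hw]
      exact chf_bound ha hκ hM h1 h2 h3 h4 w (abs_le.mpr ⟨hw.1.le, hw.2⟩)
    · rw [Set.indicator_of_notMem hw, norm_zero]
      positivity
  · exact (integrable_exp_neg_mul_sq hκ).add (integrable_inv_one_add_sq.const_mul _)
  · filter_upwards with w
    refine (chf_tendsto ha hsum hA hK hR w).congr' ?_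
    have h1 : Tendsto (fun n => |w| * us A n ^ 3) atTop (𝓝 (|w| * 0 ^ 3)) :=
      (hu.pow 3).const_mul _
    have h2 : |w| * (0 : ℝ) ^ 3 = 0 := by ring
    rw [h2] at h1
    filter_upwards [h1.eventually (gt_mem_nhds pi_pos), hupos] with n h3 h4
    rw [Set.indicator_of_mem]
    have h5 : |w| < π / us A n ^ 3 := by
      rw [lt_div_iff₀ (by positivity)]; exact h3
    rw [abs_lt] at h5
    exact ⟨h5.1, h5.2.le⟩

/-- The local limit theorem for the coefficients. -/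
theorem llt (ha : ∀ n, 0 ≤ a n)
    (hsum : ∀ t : ℝ, 0 < t → Summable fun n : ℕ => a n * Real.exp (-t * n))
    (hA : 0 < A) (hK : 0 < K)
    (hR : Tendsto (fun t => fR a t * Real.exp (-A / t)) (𝓝[>] 0) (𝓝 K))
    {κ t₀ : ℝ} (hκ : 0 < κ) (ht₀ : 0 < t₀)
    (hM : ∀ t : ℝ, 0 < t → t ≤ t₀ → ∀ θ : ℝ, |θ| ≤ π →
      ‖∑' m : ℕ, (a m : ℂ) * Complex.exp ((-(t : ℂ) + (θ : ℂ) * Complex.I) * m)‖ ≤
        Real.exp (-κ * min (1 / t) (θ ^ 2 / t ^ 3)) * fR a t) :
    Tendsto (fun n : ℕ => a n / ((n : ℝ) ^ (-(3 / 4 : ℝ)) * Real.exp ((2 * √A) * √n))) atTop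
      (𝓝 (√(π / A) * K * A ^ (3 / 4 : ℝ) / (2 * π))) := by
  have hu := us_tendsto (A := A)
  have hupos : ∀ᶠ n : ℕ in atTop, 0 < us A n := by
    filter_upwards [eventually_gt_atTop 0] with n hn
    exact us_pos hA hn
  have ht : Tendsto (fun n : ℕ => us A n ^ 2) atTop (𝓝[>] 0) := by
    rw [tendsto_nhdsWithin_iff]
    refine ⟨by simpa using hu.pow 2, ?_⟩
    filter_upwards [hupos] with n hn
    exact Set.mem_Ioi.mpr (by positivity)
  have hf : ∀ᶠ n : ℕ in atTop, 0 < fR a (us A n ^ 2) := by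
    have h1 := (hR.comp ht).eventually (lt_mem_nhds hK)
    filter_upwards [h1] with n hn
    simp only [Function.comp] at hn
    exact pos_of_mul_pos_left hn (exp_nonneg _)
  have h1 := chf_integral_tendsto ha hsum hA hK hR hκ ht₀ hM
  have h2 : Tendsto (fun n : ℕ => 2 * π * (a n * Real.exp (-(us A n ^ 2) * n)) /
      (fR a (us A n ^ 2) * us A n ^ 3)) atTop (𝓝 (√(π / A))) := by
    have h3 := (Complex.continuous_re.tendsto _).comp h1
    rw [Complex.ofReal_re] at h3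
    refine h3.congr' ?_
    filter_upwards [hupos] with n hn
    simp only [Function.comp]
    rw [chf_integral ha hsum hn, Complex.ofReal_re]
  have h3 := ((h2.mul (hR.comp ht)).mul_const (A ^ (3 / 4 : ℝ))).div_const (2 * π)
  refine h3.congr' ?_
  filter_upwards [hupos, hf, eventually_gt_atTop 0] with n hn hfn hn0
  simp only [Function.comp]
  set u := us A n with hudef
  have hn' : (0 : ℝ) < n := by exact_mod_cast hn0
  have hun : u ^ 4 * n = A := us_pow hA hn0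
  have hu2 : u ^ 2 * √n = √A := by
    rw [← hun, Real.sqrt_mul (by positivity)]
    congr 1
    have : u ^ 4 = (u ^ 2) ^ 2 := by ring
    rw [this, Real.sqrt_sq (by positivity)]
  have hu3 : u ^ 3 = A ^ (3 / 4 : ℝ) * (n : ℝ) ^ (-(3 / 4 : ℝ)) := by
    rw [hudef, us, ← Real.rpow_natCast, ← Real.rpow_mul (by positivity), Real.div_rpow hA.le hn'.le,
      Real.rpow_neg hn'.le]
    norm_num
    rw [div_eq_mul_inv]
  have hexp1 : -(u ^ 2) * n = -(√A * √n) := by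
    have : (n : ℝ) = √n * √n := (Real.mul_self_sqrt hn'.le).symm
    rw [← hu2]
    nth_rewrite 1 [this]
    ring
  have hexp2 : -A / u ^ 2 = -(√A * √n) := by
    rw [neg_div, neg_inj, div_eq_iff (by positivity)]
    have : A = √A * √A := (Real.mul_self_sqrt hA.le).symm
    calc A = √A * √A := this
      _ = √A * (u ^ 2 * √n) := by rw [hu2]
      _ = √A * √n * u ^ 2 := by ring
  rw [hexp1, hexp2, hu3]
  have hexp3 : Real.exp ((2 * √A) * √n) = (Real.exp (-(√A * √n)) * Real.exp (-(√A * √n)))⁻¹ := by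
    rw [← Real.exp_add, ← Real.exp_neg]
    congr 1
    ring
  rw [hexp3]
  have hE : Real.exp (-(√A * √n)) ≠ 0 := (Real.exp_pos _).ne'
  have hnp : (n : ℝ) ^ (-(3 / 4 : ℝ)) ≠ 0 := (Real.rpow_pos_of_pos hn' _).ne'
  have hAp : A ^ (3 / 4 : ℝ) ≠ 0 := (Real.rpow_pos_of_pos hA _).ne'
  field_simp

end

end Pool.Agent.W_MP_af6696_nt
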