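import Mathlib
import Pool.Agent.W_MP_af6696_nt.Block

set_option autoImplicit false

namespace Pool.Agent.W_MP_af6696_nt

open Finset Real

theorem abs_sum_cos_le (n a : ℕ) {θ : ℝ} (hθ : 0 < |θ|) (hθπ : |θ| ≤ π) :
    ∑ i ∈ range n, Real.cos ((i + a : ℕ) * θ) ≤ π / |θ| := by
  have htel : ∀ n : ℕ, 2 * Real.sin (θ / 2) * ∑ i ∈ range n, Real.cos ((i + a : ℕ) * θ) =
      Real.sin (((n + a : ℕ) : ℝ) * θ - θ / 2) - Real.sin ((a : ℝ) * θ - θ / 2) := by
    intro n
    induction n with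
    | zero => simp
    | succ n ih =>
      rw [Finset.sum_range_succ, mul_add, ih]
      have h1 : ((n + 1 + a : ℕ) : ℝ) * θ - θ / 2 = ((n + a : ℕ) : ℝ) * θ + θ / 2 := by
        push_cast; ring
      rw [h1, Real.sin_add, Real.sin_sub]
      ring
  have h1 := htel n
  set S := ∑ i ∈ range n, Real.cos ((i + a : ℕ) * θ) with hS
  have h2 : |2 * Real.sin (θ / 2) * S| ≤ 2 := by
    rw [h1]
    have ha := Real.abs_sin_le_one (((n + a : ℕ) : ℝ) * θ - θ / 2)
    have hb := Real.abs_sin_le_one ((a : ℝ) * θ - θ / 2)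
    calc _ ≤ |Real.sin (((n + a : ℕ) : ℝ) * θ - θ / 2)| + |Real.sin ((a : ℝ) * θ - θ / 2)| :=
          abs_sub _ _
      _ ≤ 2 := by linarith
  have h3 : |θ| / π ≤ |Real.sin (θ / 2)| := by
    have h4 : |Real.sin (θ / 2)| = Real.sin (|θ| / 2) := by
      rcases abs_cases θ with ⟨h, h0⟩ | ⟨h, h0⟩
      · rw [h]
        apply abs_of_nonneg
        apply Real.sin_nonneg_of_nonneg_of_le_pi <;> linarith [Real.pi_pos]
      · rw [h, neg_div, Real.sin_neg]
        apply abs_of_nonpos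
        apply Real.sin_nonpos_of_nonpos_of_neg_pi_le <;> linarith [Real.pi_pos]
    rw [h4]
    have h5 := Real.mul_le_sin (x := |θ| / 2) (by positivity) (by linarith)
    calc |θ| / π = 2 / π * (|θ| / 2) := by ring
      _ ≤ _ := h5
  have hpi := Real.pi_pos
  have h6 : |Real.sin (θ / 2)| * |S| ≤ 1 := by
    have : |2 * Real.sin (θ / 2) * S| = 2 * (|Real.sin (θ / 2)| * |S|) := by
      rw [abs_mul, abs_mul]; simp; ring
    linarith
  have h7 : |θ| / π * |S| ≤ 1 := by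
    refine le_trans ?_ h6
    gcongr
  have h8 : S ≤ |S| := le_abs_self S
  rw [le_div_iff₀ hθ]
  have h9 : |θ| / π * |S| = (|S| * |θ|) / π := by ring
  rw [h9, div_le_one hpi] at h7
  nlinarith

/-- The constant in the trigonometric lower bound. -/
noncomputable def kap : ℝ := 1 / (2048 * π ^ 2)

theorem kap_pos : 0 < kap := by unfold kap; positivity

theorem sum_one_sub_cos_ge (n a : ℕ) (hn : 8 ≤ n) (ha : 1 ≤ a) (han : 4 * a ≤ n) {θ : ℝ}
    (hθπ : |θ| ≤ π) :
    kap * (n * min 1 (n ^ 2 * θ ^ 2)) ≤ ∑ i ∈ range n, (1 - Real.cos ((i + a : ℕ) * θ)) := by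
  have hpi := Real.pi_pos
  have hn0 : (0 : ℝ) < n := by exact_mod_cast (by omega : 0 < n)
  have hterm : ∀ i : ℕ, 0 ≤ 1 - Real.cos ((i + a : ℕ) * θ) := fun i => by
    linarith [Real.cos_le_one ((i + a : ℕ) * θ)]
  rcases le_or_gt |θ| (2 * π / n) with hsmall | hlarge
  · -- small theta
    set m := n / 4 with hm
    have hmn : m ≤ n := Nat.div_le_self _ _
    have hm1 : 4 * m ≤ n := by omega
    have hm2 : n ≤ 8 * m := by omega
    have hmR : (n : ℝ) / 8 ≤ m := by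
      have : (n : ℝ) ≤ 8 * m := by exact_mod_cast hm2
      linarith
    have hsub : ∑ i ∈ Ico (m / 2) m, (1 - Real.cos ((i + a : ℕ) * θ)) ≤
        ∑ i ∈ range n, (1 - Real.cos ((i + a : ℕ) * θ)) := by
      apply Finset.sum_le_sum_of_subset_of_nonneg
      · intro i hi
        rw [mem_Ico] at hi
        rw [mem_range]
        omega
      · intro i _ _
        exact hterm i
    refine le_trans ?_ hsub
    have hlow : ∀ i ∈ Ico (m / 2) m, 2 / π ^ 2 * ((m / 2) ^ 2 * θ ^ 2) ≤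
        1 - Real.cos ((i + a : ℕ) * θ) := by
      intro i hi
      rw [mem_Ico] at hi
      have hia : (m : ℝ) / 2 ≤ ((i + a : ℕ) : ℝ) := by
        have : m ≤ 2 * (i + a) := by omega
        have : (m : ℝ) ≤ 2 * ((i + a : ℕ) : ℝ) := by exact_mod_cast this
        linarith
      have hia2 : ((i + a : ℕ) : ℝ) ≤ n / 2 := by
        have : 2 * (i + a) ≤ n := by omega
        have : 2 * ((i + a : ℕ) : ℝ) ≤ (n : ℝ) := by exact_mod_cast this
        linarith
      have habs : |((i + a : ℕ) : ℝ) * θ| ≤ π := by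
        rw [abs_mul, abs_of_nonneg (by positivity)]
        calc ((i + a : ℕ) : ℝ) * |θ| ≤ (n / 2) * (2 * π / n) := by gcongr
          _ = π := by field_simp
      have h1 := Real.cos_le_one_sub_mul_cos_sq habs
      have h2 : 2 / π ^ 2 * ((m / 2 : ℝ) ^ 2 * θ ^ 2) ≤
          2 / π ^ 2 * (((i + a : ℕ) : ℝ) * θ) ^ 2 := by
        rw [mul_pow]
        gcongr
      linarith
    have hcard : (m : ℝ) / 2 ≤ ((Ico (m / 2) m).card : ℝ) := by
      rw [Nat.card_Ico]
      have : m ≤ 2 * (m - m / 2) := by omega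
      have : (m : ℝ) ≤ 2 * ((m - m / 2 : ℕ) : ℝ) := by exact_mod_cast this
      linarith
    calc kap * (n * min 1 (n ^ 2 * θ ^ 2)) ≤ kap * (n * (n ^ 2 * θ ^ 2)) := by
          have := kap_pos
          gcongr
          exact min_le_right _ _
      _ = (n / 8 / 2) * (2 / π ^ 2 * ((n / 8 / 2) ^ 2 * θ ^ 2)) := by
          unfold kap
          field_simp
          ring
      _ ≤ (m / 2) * (2 / π ^ 2 * ((m / 2) ^ 2 * θ ^ 2)) := by gcongr
      _ ≤ ((Ico (m / 2) m).card : ℝ) * (2 / π ^ 2 * ((m / 2) ^ 2 * θ ^ 2)) := by gcongr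
      _ = ∑ i ∈ Ico (m / 2) m, 2 / π ^ 2 * ((m / 2 : ℝ) ^ 2 * θ ^ 2) := by
          rw [Finset.sum_const, nsmul_eq_mul]
      _ ≤ _ := Finset.sum_le_sum hlow
  · have hθ0 : 0 < |θ| := lt_trans (by positivity) hlarge
    rw [Finset.sum_sub_distrib]
    have h1 := abs_sum_cos_le n a hθ0 hθπ
    have h2 : π / |θ| ≤ n / 2 := by
      rw [div_le_iff₀ hθ0]
      rw [div_lt_iff₀ hn0] at hlarge
      nlinarith
    have h3 : kap ≤ 1 / 2 := by
      unfold kap
      rw [div_le_div_iff₀ (by positivity) (by norm_num)]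
      nlinarith [Real.pi_gt_three]
    have h4 : kap * (n * min 1 (n ^ 2 * θ ^ 2)) ≤ 1 / 2 * (n * 1) := by
      have := kap_pos
      gcongr
      exact min_le_left _ _
    simp only [Finset.sum_const, card_range, nsmul_eq_mul, mul_one]
    linarith

/-- Lower bound for the total weight of gains. -/
theorem sum_gw_ge (al : ℕ → Prop) (L c₀ : ℕ) (hL : 0 < L) (hal : ∀ c, c₀ < c → al c) {r θ : ℝ}
    (hr : 0 < r) (hr1 : r ≤ 1) (hθπ : |θ| ≤ π) (n : ℕ) (hn : 8 + 5 * (c₀ + L) ≤ n) :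
    r ^ (n + L) * (kap * ((n - c₀ : ℕ) * min 1 ((n - c₀ : ℕ) ^ 2 * θ ^ 2))) ≤
      ∑ i ∈ range n, gw al r θ (i + L) := by
  have h1 := sum_one_sub_cos_ge (n - c₀) (c₀ + L) (by omega) (by omega) (by omega) hθπ
  have h2 : ∑ i ∈ range (n - c₀), gw al r θ (c₀ + i + L) ≤ ∑ i ∈ range n, gw al r θ (i + L) := by
    have hsplit : n = c₀ + (n - c₀) := by omega
    rw [hsplit, Finset.sum_range_add, ← hsplit]
    have : 0 ≤ ∑ x ∈ range c₀, gw al r θ (x + L) :=
      Finset.sum_nonneg fun i _ => gw_nonneg al hr.le _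
    linarith
  refine le_trans ?_ h2
  calc r ^ (n + L) * (kap * ((n - c₀ : ℕ) * min 1 ((n - c₀ : ℕ) ^ 2 * θ ^ 2)))
      ≤ r ^ (n + L) * ∑ i ∈ range (n - c₀), (1 - Real.cos ((i + (c₀ + L) : ℕ) * θ)) := by gcongr
    _ = ∑ i ∈ range (n - c₀), r ^ (n + L) * (1 - Real.cos ((i + (c₀ + L) : ℕ) * θ)) := by
        rw [Finset.mul_sum]
    _ ≤ ∑ i ∈ range (n - c₀), gw al r θ (c₀ + i + L) := by
        apply Finset.sum_le_sum
        intro i hi
        rw [mem_range] at hi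
        have hal' : al (c₀ + i + L) := hal _ (by omega)
        simp only [gw, hal', if_true]
        have he : i + (c₀ + L) = c₀ + i + L := by ring
        rw [he]
        apply mul_le_mul_of_nonneg_right
        · exact pow_le_pow_of_le_one hr.le hr1 (by omega)
        · linarith [Real.cos_le_one ((c₀ + i + L : ℕ) * θ)]

/-- The uniform bound for the sums `Z` on circles. -/
theorem norm_Z_uniform (al : ℕ → Prop) (ok : ℕ → ℕ → Prop) (L c₀ : ℕ) (hL : 0 < L)
    (hfar : ∀ x y, x + L ≤ y → ok x y) (hal : ∀ c, c₀ < c → al c) :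
    ∃ κ > 0, ∃ t₀ > 0, ∀ t : ℝ, 0 < t → t ≤ t₀ → ∀ θ : ℝ, |θ| ≤ π → ∃ N₀ : ℕ, ∀ N ≥ N₀,
      ‖Z al ok ((Real.exp (-t) : ℂ) * Complex.exp (θ * Complex.I)) N ∅‖ ≤
        Real.exp (-κ * min (1 / t) (θ ^ 2 / t ^ 3)) * Z al ok (Real.exp (-t)) N ∅ := by
  set s := 2 * L - 1 with hs
  have hs0 : 0 < s := by omega
  have hsR : (0 : ℝ) < s := by exact_mod_cast hs0
  set D : ℕ := 8 + 5 * (c₀ + L) + s with hD
  have hDR : (0 : ℝ) < D := by exact_mod_cast (by omega : 0 < D)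
  refine ⟨Real.exp (-2) * (kap / 64) / (s * 2 ^ (2 * L)), by have := kap_pos; positivity,
    1 / (4 * D), by positivity, ?_⟩
  intro t ht htt θ hθ
  set J : ℕ := ⌊1 / (t * s)⌋₊ with hJ
  set n := J * s with hn
  have hnle : (n : ℝ) ≤ 1 / t := by
    have h1 : (J : ℝ) ≤ 1 / (t * s) := Nat.floor_le (by positivity)
    rw [hn]; push_cast
    calc (J : ℝ) * s ≤ 1 / (t * s) * s := by gcongr
      _ = 1 / t := by field_simp
  have hnge : 1 / t - s < n := by
    have h1 : 1 / (t * s) < J + 1 := Nat.lt_floor_add_one _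
    rw [hn]; push_cast
    have h2 : 1 / (t * s) * s < (J + 1) * s := by gcongr
    have h3 : 1 / (t * s) * s = 1 / t := by field_simp
    rw [h3] at h2
    linarith
  have htD : 4 * (D : ℝ) ≤ 1 / t := by
    rw [le_div_iff₀ ht]
    rw [le_div_iff₀ (by positivity)] at htt
    linarith
  have hDs : (s : ℝ) ≤ D := by exact_mod_cast (by omega : s ≤ D)
  have hn3D : 3 * D ≤ n := by
    have : (3 * D : ℝ) ≤ n := by linarith
    exact_mod_cast this
  have hn8 : 8 + 5 * (c₀ + L) ≤ n := by omega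
  have hc0D : (c₀ : ℝ) ≤ D := by exact_mod_cast (by omega : c₀ ≤ D)
  have hsub : ((n - c₀ : ℕ) : ℝ) = n - c₀ := by
    rw [Nat.cast_sub (by omega)]
  have hnc : 1 / (4 * t) ≤ ((n - c₀ : ℕ) : ℝ) := by
    rw [hsub]
    have h1 : 1 / (4 * t) = (1 / t) / 4 := by field_simp
    rw [h1]
    linarith
  set r := Real.exp (-t) with hr
  have hr0 : 0 < r := Real.exp_pos _
  have hr1 : r ≤ 1 := by rw [hr]; exact Real.exp_le_one_iff.mpr (by linarith)
  have hW := sum_gw_ge al L c₀ hL hal hr0 hr1 hθ n hn8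
  refine ⟨(J + 1) * s, fun N hN => ?_⟩
  have h1 := norm_Z_le al ok hfar hL (θ := θ) hr0.le hr1 J N hN
  rw [← hs, ← hn] at h1
  refine h1.trans ?_
  apply mul_le_mul_of_nonneg_right _ (Z_nonneg al ok hr0.le _ _)
  apply Real.exp_le_exp.mpr
  rw [neg_div, neg_mul, neg_le_neg_iff]
  set W := ∑ i ∈ range n, gw al r θ (i + L) with hWdef
  have hpow : Real.exp (-2) ≤ r ^ (n + L) := by
    rw [hr, ← Real.exp_nat_mul]
    apply Real.exp_le_exp.mpr
    push_cast
    have h2 : (n : ℝ) * t ≤ 1 := by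
      calc (n : ℝ) * t ≤ 1 / t * t := by gcongr
        _ = 1 := by field_simp
    have hLD : (L : ℝ) ≤ D := by exact_mod_cast (by omega : L ≤ D)
    have h3 : (L : ℝ) * t ≤ 1 := by
      rw [le_div_iff₀ ht] at htD
      nlinarith
    nlinarith
  have hmin : (1 / 64 : ℝ) * min (1 / t) (θ ^ 2 / t ^ 3) ≤
      (n - c₀ : ℕ) * min 1 (((n - c₀ : ℕ) : ℝ) ^ 2 * θ ^ 2) := by
    have hpos : (0 : ℝ) < 1 / (4 * t) := by positivity
    calc (1 / 64 : ℝ) * min (1 / t) (θ ^ 2 / t ^ 3)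
        ≤ 1 / (4 * t) * min 1 ((1 / (4 * t)) ^ 2 * θ ^ 2) := by
          rw [mul_min_of_nonneg _ _ (by norm_num), mul_min_of_nonneg _ _ hpos.le]
          apply min_le_min
          · have : (1 : ℝ) / 64 * (1 / t) = 1 / (64 * t) := by ring
            rw [this, mul_one]
            apply one_div_le_one_div_of_le <;> linarith
          · apply le_of_eq
            field_simp
            ring
      _ ≤ (n - c₀ : ℕ) * min 1 (((n - c₀ : ℕ) : ℝ) ^ 2 * θ ^ 2) := by
          gcongr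
  have hfin : Real.exp (-2) * (kap / 64) * min (1 / t) (θ ^ 2 / t ^ 3) ≤ W := by
    calc Real.exp (-2) * (kap / 64) * min (1 / t) (θ ^ 2 / t ^ 3)
        = Real.exp (-2) * (kap * (1 / 64 * min (1 / t) (θ ^ 2 / t ^ 3))) := by ring
      _ ≤ r ^ (n + L) * (kap * ((n - c₀ : ℕ) * min 1 (((n - c₀ : ℕ) : ℝ) ^ 2 * θ ^ 2))) := by
          have hk := kap_pos
          have hm : 0 ≤ min (1 / t) (θ ^ 2 / t ^ 3) := by positivity
          gcongr
      _ ≤ W := hW
  calc Real.exp (-2) * (kap / 64) / (s * 2 ^ (2 * L)) * min (1 / t) (θ ^ 2 / t ^ 3)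
      = (Real.exp (-2) * (kap / 64) * min (1 / t) (θ ^ 2 / t ^ 3)) / (s * 2 ^ (2 * L)) := by ring
    _ ≤ W / (s * 2 ^ (2 * L)) := by gcongr

end Pool.Agent.W_MP_af6696_nt
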