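import Mathlib

set_option autoImplicit false

namespace Pool.Agent.W_MP_af6696_nt

open Filter Topology Finset

/-- tail sums -/
noncomputable def tail (X : ℕ → ℝ) (n : ℕ) : ℝ := ∑' i : ℕ, X (n + i)

theorem tail_succ {X : ℕ → ℝ} (hX : Summable X) (n : ℕ) : tail X n = X n + tail X (n + 1) := by
  unfold tail
  have h : Summable fun i : ℕ => X (n + i) := by
    have := (summable_nat_add_iff n).mpr hX
    simpa [add_comm] using this
  rw [h.tsum_eq_zero_add]
  simp only [add_zero]
  congr 1
  refine tsum_congr fun i => ?_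
  congr 1
  ring

theorem tail_tendsto {X : ℕ → ℝ} : Tendsto (tail X) atTop (𝓝 0) := by
  have h := tendsto_sum_nat_add X
  unfold tail
  simpa [add_comm] using h

theorem tail_add {X : ℕ → ℝ} (hX : Summable X) (n i : ℕ) :
    tail X n = ∑ j ∈ range i, X (n + j) + tail X (n + i) := by
  induction i with
  | zero => simp
  | succ i ih =>
    rw [Finset.sum_range_succ, ih, tail_succ hX (n + i)]
    ring_nf

theorem tail_nonneg {ρ : ℕ → ℝ} (hρ : ∀ n, 0 ≤ ρ n) (n : ℕ) : 0 ≤ tail ρ n :=
  tsum_nonneg fun _ => hρ _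

theorem tail_anti {ρ : ℕ → ℝ} (hρ : ∀ n, 0 ≤ ρ n) (hs : Summable ρ) (n i : ℕ) :
    tail ρ (n + i) ≤ tail ρ n := by
  rw [tail_add hs n i]
  have : 0 ≤ ∑ j ∈ range i, ρ (n + j) := Finset.sum_nonneg fun j _ => hρ _
  linarith

/-- one-sided comparison: upper bound -/
theorem compare_upper {L K₀ : ℕ} {w : ℕ → ℕ → ℝ} (hw : ∀ n i, 0 ≤ w n i) {H V E ρ : ℕ → ℝ}
    (hH : ∀ n ≥ K₀, H n = H (n + 1) + ∑ i ∈ range L, w n i * H (n + 1 + i))
    (hpos : ∀ n, 0 < H n)
    (hlim : Tendsto H atTop (𝓝 1)) (hV : Tendsto V atTop (𝓝 0))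
    (hE0 : ∀ n, 0 ≤ E n) (hE : ∀ n, E n = ρ n + E (n + 1)) (hEa : ∀ n i, E (n + i) ≤ E n)
    (hres : ∀ n ≥ K₀, Real.exp (V (n + 1)) + ∑ i ∈ range L, w n i * Real.exp (V (n + 1 + i)) ≤
      Real.exp (V n + ρ n)) (n : ℕ) (hn : K₀ ≤ n) :
    Real.log (H n) ≤ V n + E n := by
  apply le_of_forall_pos_le_add
  intro η hη
  -- eventual bound
  have hlog : Tendsto (fun n => Real.log (H n) - V n) atTop (𝓝 0) := by
    have h1 := (Real.continuousAt_log (one_ne_zero)).tendsto.comp hlim
    rw [Real.log_one] at h1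
    simpa using h1.sub hV
  have hev : ∀ᶠ n in atTop, Real.log (H n) - V n < η := by
    have := hlog.eventually (gt_mem_nhds hη)
    exact this
  obtain ⟨N, hN⟩ := eventually_atTop.mp hev
  -- downward induction
  have key : ∀ m : ℕ, ∀ n : ℕ, K₀ ≤ n → N ≤ n + m → H n ≤ Real.exp (V n + E n + η) := by
    intro m
    induction m with
    | zero =>
      intro n _ hn2
      have h1 := hN n (by simpa using hn2)
      have h2 : Real.log (H n) ≤ V n + E n + η := by linarith [hE0 n]
      calc H n = Real.exp (Real.log (H n)) := (Real.exp_log (hpos n)).symm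
        _ ≤ _ := Real.exp_le_exp.mpr h2
    | succ m ih =>
      intro n hn1 hn2
      rw [hH n hn1]
      have h1 : H (n + 1) ≤ Real.exp (E (n + 1) + η) * Real.exp (V (n + 1)) := by
        rw [← Real.exp_add]
        refine (ih (n + 1) (by omega) (by omega)).trans (Real.exp_le_exp.mpr (by linarith))
      have h2 : ∀ i ∈ range L, w n i * H (n + 1 + i) ≤
          Real.exp (E (n + 1) + η) * (w n i * Real.exp (V (n + 1 + i))) := by
        intro i _
        have h3 : H (n + 1 + i) ≤ Real.exp (E (n + 1) + η) * Real.exp (V (n + 1 + i)) := by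
          rw [← Real.exp_add]
          refine (ih (n + 1 + i) (by omega) (by omega)).trans (Real.exp_le_exp.mpr ?_)
          linarith [hEa (n + 1) i]
        calc w n i * H (n + 1 + i) ≤ w n i * (Real.exp (E (n + 1) + η) * Real.exp (V (n + 1 + i))) :=
              mul_le_mul_of_nonneg_left h3 (hw n i)
          _ = _ := by ring
      calc H (n + 1) + ∑ i ∈ range L, w n i * H (n + 1 + i)
          ≤ Real.exp (E (n + 1) + η) * Real.exp (V (n + 1)) +
            ∑ i ∈ range L, Real.exp (E (n + 1) + η) * (w n i * Real.exp (V (n + 1 + i))) :=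
            add_le_add h1 (Finset.sum_le_sum h2)
        _ = Real.exp (E (n + 1) + η) * (Real.exp (V (n + 1)) +
            ∑ i ∈ range L, w n i * Real.exp (V (n + 1 + i))) := by
            rw [mul_add, Finset.mul_sum]
        _ ≤ Real.exp (E (n + 1) + η) * Real.exp (V n + ρ n) := by
            have := hres n hn1
            gcongr
        _ = Real.exp (V n + E n + η) := by
            rw [← Real.exp_add, hE n]; congr 1; ring
  have h1 := key N n hn (by omega)
  have h2 := Real.log_le_log (hpos n) h1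
  rw [Real.log_exp] at h2
  exact h2

/-- one-sided comparison: lower bound -/
theorem compare_lower {L K₀ : ℕ} {w : ℕ → ℕ → ℝ} (hw : ∀ n i, 0 ≤ w n i) {H V E ρ : ℕ → ℝ}
    (hH : ∀ n ≥ K₀, H n = H (n + 1) + ∑ i ∈ range L, w n i * H (n + 1 + i))
    (hpos : ∀ n, 0 < H n)
    (hlim : Tendsto H atTop (𝓝 1)) (hV : Tendsto V atTop (𝓝 0))
    (hE0 : ∀ n, 0 ≤ E n) (hE : ∀ n, E n = ρ n + E (n + 1)) (hEa : ∀ n i, E (n + i) ≤ E n)
    (hres : ∀ n ≥ K₀, Real.exp (V n - ρ n) ≤
      Real.exp (V (n + 1)) + ∑ i ∈ range L, w n i * Real.exp (V (n + 1 + i))) (n : ℕ)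
    (hn : K₀ ≤ n) :
    V n - E n ≤ Real.log (H n) := by
  rw [sub_le_iff_le_add]
  have hgoal : V n - E n ≤ Real.log (H n) := by
    apply le_of_forall_pos_le_add
    intro η hη
    -- eventual bound
    have hlog : Tendsto (fun n => V n - Real.log (H n)) atTop (𝓝 0) := by
      have h1 := (Real.continuousAt_log (one_ne_zero)).tendsto.comp hlim
      rw [Real.log_one] at h1
      simpa using hV.sub h1
    have hev : ∀ᶠ n in atTop, V n - Real.log (H n) < η := hlog.eventually (gt_mem_nhds hη)
    obtain ⟨N, hN⟩ := eventually_atTop.mp hev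
    have key : ∀ m : ℕ, ∀ n : ℕ, K₀ ≤ n → N ≤ n + m → Real.exp (V n - E n - η) ≤ H n := by
      intro m
      induction m with
      | zero =>
        intro n _ hn2
        have h1 := hN n (by simpa using hn2)
        have h2 : V n - E n - η ≤ Real.log (H n) := by linarith [hE0 n]
        calc Real.exp (V n - E n - η) ≤ Real.exp (Real.log (H n)) := Real.exp_le_exp.mpr h2
          _ = H n := Real.exp_log (hpos n)
      | succ m ih =>
        intro n hn1 hn2
        rw [hH n hn1]
        have h1 : Real.exp (-E (n + 1) - η) * Real.exp (V (n + 1)) ≤ H (n + 1) := by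
          rw [← Real.exp_add]
          refine le_trans (Real.exp_le_exp.mpr (by linarith)) (ih (n + 1) (by omega) (by omega))
        have h2 : ∀ i ∈ range L, Real.exp (-E (n + 1) - η) * (w n i * Real.exp (V (n + 1 + i))) ≤
            w n i * H (n + 1 + i) := by
          intro i _
          have h3 : Real.exp (-E (n + 1) - η) * Real.exp (V (n + 1 + i)) ≤ H (n + 1 + i) := by
            rw [← Real.exp_add]
            refine le_trans (Real.exp_le_exp.mpr ?_) (ih (n + 1 + i) (by omega) (by omega))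
            linarith [hEa (n + 1) i]
          calc Real.exp (-E (n + 1) - η) * (w n i * Real.exp (V (n + 1 + i)))
              = w n i * (Real.exp (-E (n + 1) - η) * Real.exp (V (n + 1 + i))) := by ring
            _ ≤ _ := mul_le_mul_of_nonneg_left h3 (hw n i)
        calc Real.exp (V n - E n - η) = Real.exp (-E (n + 1) - η) * Real.exp (V n - ρ n) := by
              rw [← Real.exp_add, hE n]; congr 1; ring
          _ ≤ Real.exp (-E (n + 1) - η) * (Real.exp (V (n + 1)) +
              ∑ i ∈ range L, w n i * Real.exp (V (n + 1 + i))) := by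
              have := hres n hn1
              gcongr
          _ = Real.exp (-E (n + 1) - η) * Real.exp (V (n + 1)) +
              ∑ i ∈ range L, Real.exp (-E (n + 1) - η) * (w n i * Real.exp (V (n + 1 + i))) := by
              rw [mul_add, Finset.mul_sum]
          _ ≤ _ := add_le_add h1 (Finset.sum_le_sum h2)
    have h1 := key N n hn (by omega)
    have h2 := Real.log_le_log (Real.exp_pos _) h1
    rw [Real.log_exp] at h2
    linarith
  linarith

/-- Two-sided comparison with an approximate solution. -/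
theorem compare {L K₀ : ℕ} {w : ℕ → ℕ → ℝ} (hw : ∀ n i, 0 ≤ w n i) {H X ρ : ℕ → ℝ}
    (hH : ∀ n ≥ K₀, H n = H (n + 1) + ∑ i ∈ range L, w n i * H (n + 1 + i))
    (hpos : ∀ n, 0 < H n) (hlim : Tendsto H atTop (𝓝 1)) (hX : Summable X)
    (hρ : ∀ n, 0 ≤ ρ n) (hρs : Summable ρ)
    (hres : ∀ n ≥ K₀, |X n - Real.log (1 + ∑ i ∈ range L, w n i *
      Real.exp (-∑ j ∈ range i, X (n + 1 + j)))| ≤ ρ n) (n : ℕ) (hn : K₀ ≤ n) :
    |Real.log (H n) - tail X n| ≤ tail ρ n := by
  have hsum : ∀ n, Real.exp (tail X (n + 1)) + ∑ i ∈ range L, w n i * Real.exp (tail X (n + 1 + i)) =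
      Real.exp (tail X (n + 1) + Real.log (1 + ∑ i ∈ range L, w n i *
        Real.exp (-∑ j ∈ range i, X (n + 1 + j)))) := by
    intro n
    have h1 : 0 < 1 + ∑ i ∈ range L, w n i * Real.exp (-∑ j ∈ range i, X (n + 1 + j)) := by
      have : 0 ≤ ∑ i ∈ range L, w n i * Real.exp (-∑ j ∈ range i, X (n + 1 + j)) :=
        Finset.sum_nonneg fun i _ => mul_nonneg (hw n i) (Real.exp_nonneg _)
      linarith
    rw [Real.exp_add, Real.exp_log h1, mul_add, mul_one, Finset.mul_sum]
    congr 1
    refine Finset.sum_congr rfl fun i _ => ?_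
    have h2 : tail X (n + 1 + i) = tail X (n + 1) + -∑ j ∈ range i, X (n + 1 + j) := by
      rw [tail_add hX (n + 1) i]; ring
    rw [h2, Real.exp_add]
    ring
  have hu := compare_upper hw hH hpos hlim (tail_tendsto (X := X)) (tail_nonneg hρ)
    (tail_succ hρs) (tail_anti hρ hρs) (fun m hm => by
      rw [hsum m]
      apply Real.exp_le_exp.mpr
      have h1 := (abs_le.mp (hres m hm)).1
      rw [tail_succ hX m]
      linarith) n hn
  have hl := compare_lower hw hH hpos hlim (tail_tendsto (X := X)) (tail_nonneg hρ)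
    (tail_succ hρs) (tail_anti hρ hρs) (fun m hm => by
      rw [hsum m]
      apply Real.exp_le_exp.mpr
      have h1 := (abs_le.mp (hres m hm)).2
      rw [tail_succ hX m]
      linarith) n hn
  rw [abs_le]
  constructor <;> linarith

end Pool.Agent.W_MP_af6696_nt
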