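import Mathlib

set_option autoImplicit false

namespace Pool.Agent.W_MP_af6696_nt

open Filter Topology Finset

/-! ### Averaging sequences -/

/-- `Y n` is an average of the later values with positive weight on `Y (n + 1)`. -/
def Avg (L : ℕ) (p : ℕ → ℕ → ℝ) (Y : ℕ → ℝ) : Prop :=
  ∀ n, Y n = (1 - ∑ i ∈ range L, p n i) * Y (n + 1) + ∑ i ∈ range L, p n i * Y (n + 1 + i)

theorem Avg.neg {L : ℕ} {p : ℕ → ℕ → ℝ} {Y : ℕ → ℝ} (h : Avg L p Y) : Avg L p (fun n => -Y n) := by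
  intro n
  simp only
  rw [h n]
  simp only [mul_neg, Finset.sum_neg_distrib]
  ring

theorem Avg.const_of_max {L : ℕ} {p : ℕ → ℕ → ℝ} (hp : ∀ n i, 0 ≤ p n i)
    (hp1 : ∀ n, ∑ i ∈ range L, p n i < 1) {Y : ℕ → ℝ} (h : Avg L p Y) {V : ℝ} (hV : ∀ n, Y n ≤ V)
    {n₀ : ℕ} (h0 : Y n₀ = V) (n : ℕ) (hn : n₀ ≤ n) : Y n = V := by
  induction n, hn using Nat.le_induction with
  | base => exact h0
  | succ n _ ih =>
    apply le_antisymm (hV _)
    have h1 := h n
    rw [ih] at h1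
    have h2 : ∑ i ∈ range L, p n i * Y (n + 1 + i) ≤ (∑ i ∈ range L, p n i) * V := by
      rw [Finset.sum_mul]
      apply Finset.sum_le_sum
      intro i _
      exact mul_le_mul_of_nonneg_left (hV _) (hp n i)
    have h3 := hp1 n
    set P := ∑ i ∈ range L, p n i with hP
    by_contra hcon
    push Not at hcon
    have : (1 - P) * Y (n + 1) < (1 - P) * V := by
      apply mul_lt_mul_of_pos_left hcon
      linarith
    nlinarith

theorem Avg.const_of_anti {L M : ℕ} (hM : 0 < M) {p : ℕ → ℕ → ℝ} (hp : ∀ n i, 0 ≤ p n i)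
    (hp1 : ∀ n, ∑ i ∈ range L, p n i < 1) {Y : ℕ → ℝ} (h : Avg L p Y)
    (hanti : ∀ n, Y (n + M) ≤ Y n) : ∃ n₀, ∀ n ≥ n₀, Y n = Y n₀ := by
  have hne : (range M).Nonempty := ⟨0, by simpa using hM⟩
  obtain ⟨n₀, hn₀, hmax⟩ := Finset.exists_max_image (range M) Y hne
  have hV : ∀ n, Y n ≤ Y n₀ := by
    intro n
    induction n using Nat.strong_induction_on with
    | _ n ih =>
    by_cases hn : n < M
    · exact hmax n (by simpa using hn)
    · have h1 := hanti (n - M)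
      have h2 : n - M + M = n := by omega
      rw [h2] at h1
      exact h1.trans (ih (n - M) (by omega))
  exact ⟨n₀, fun n hn => h.const_of_max hp hp1 hV rfl n hn⟩

theorem Avg.const_of_mono {L M : ℕ} (hM : 0 < M) {p : ℕ → ℕ → ℝ} (hp : ∀ n i, 0 ≤ p n i)
    (hp1 : ∀ n, ∑ i ∈ range L, p n i < 1) {Y : ℕ → ℝ} (h : Avg L p Y)
    (hmono : ∀ n, Y n ≤ Y (n + M)) : ∃ n₀, ∀ n ≥ n₀, Y n = Y n₀ := by
  obtain ⟨n₀, hn₀⟩ := h.neg.const_of_anti hM hp hp1 (fun n => neg_le_neg (hmono n))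
  exact ⟨n₀, fun n hn => neg_injective (hn₀ n hn)⟩

/-! ### The periodic equation -/

variable {M : ℕ} (L : ℕ) (c : ZMod M → ℕ → ℝ)

/-- sum of `i` consecutive values after `k` -/
def Sg (x : ZMod M → ℝ) (k : ZMod M) (i : ℕ) : ℝ := ∑ j ∈ range i, x (k + 1 + j)

/-- the right side of the periodic equation -/
noncomputable def Qf (z : ℝ) (x : ZMod M → ℝ) (k : ZMod M) : ℝ :=
  1 + z * ∑ i ∈ range L, c k i * Real.exp (-(Sg x k i))

/-- the map whose zeros are the periodic solutions -/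
noncomputable def Fm (v : ℝ × (ZMod M → ℝ)) : ZMod M → ℝ := fun k => v.2 k - Real.log (Qf L c v.1 v.2 k)

/-- conditional occupation probabilities -/
noncomputable def pf (z : ℝ) (x : ZMod M → ℝ) (k : ZMod M) (i : ℕ) : ℝ :=
  z * c k i * Real.exp (-(Sg x k i)) / Qf L c z x k

variable {L c}

theorem Qf_ge_one (hc : ∀ k i, 0 ≤ c k i) {z : ℝ} (hz : 0 ≤ z) (x : ZMod M → ℝ) (k : ZMod M) :
    1 ≤ Qf L c z x k := by
  unfold Qf
  have : 0 ≤ ∑ i ∈ range L, c k i * Real.exp (-(Sg x k i)) :=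
    Finset.sum_nonneg fun i _ => mul_nonneg (hc k i) (Real.exp_nonneg _)
  nlinarith [mul_nonneg hz this]

theorem Qf_pos (hc : ∀ k i, 0 ≤ c k i) {z : ℝ} (hz : 0 ≤ z) (x : ZMod M → ℝ) (k : ZMod M) :
    0 < Qf L c z x k := lt_of_lt_of_le one_pos (Qf_ge_one hc hz x k)

theorem pf_nonneg (hc : ∀ k i, 0 ≤ c k i) {z : ℝ} (hz : 0 ≤ z) (x : ZMod M → ℝ) (k : ZMod M)
    (i : ℕ) : 0 ≤ pf L c z x k i :=
  div_nonneg (mul_nonneg (mul_nonneg hz (hc k i)) (Real.exp_nonneg _)) (Qf_pos hc hz x k).le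

theorem sum_pf (hc : ∀ k i, 0 ≤ c k i) {z : ℝ} (hz : 0 ≤ z) (x : ZMod M → ℝ) (k : ZMod M) :
    ∑ i ∈ range L, pf L c z x k i = 1 - 1 / Qf L c z x k := by
  have hQ := Qf_pos (L := L) hc hz x k
  unfold pf
  rw [← Finset.sum_div]
  have h1 : ∑ i ∈ range L, z * c k i * Real.exp (-(Sg x k i)) = Qf L c z x k - 1 := by
    unfold Qf
    rw [Finset.mul_sum]
    simp only [mul_assoc]
    ring
  rw [h1]
  field_simp

theorem sum_pf_lt (hc : ∀ k i, 0 ≤ c k i) {z : ℝ} (hz : 0 ≤ z) (x : ZMod M → ℝ) (k : ZMod M) :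
    ∑ i ∈ range L, pf L c z x k i < 1 := by
  rw [sum_pf hc hz]
  have hQ := Qf_pos (L := L) hc hz x k
  have : 0 < 1 / Qf L c z x k := by positivity
  linarith

/-- partial sums of a periodic sequence -/
def Ps (x : ZMod M → ℝ) (n : ℕ) : ℝ := ∑ m ∈ range n, x (m : ZMod M)

theorem Ps_add (x : ZMod M → ℝ) (n i : ℕ) :
    Ps x (n + 1 + i) = Ps x (n + 1) + Sg x (n : ZMod M) i := by
  unfold Ps Sg
  rw [Finset.sum_range_add]
  congr 1
  refine Finset.sum_congr rfl fun j _ => ?_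
  congr 1
  push_cast
  ring

theorem Ps_succ (x : ZMod M → ℝ) (n : ℕ) : Ps x (n + 1) = Ps x n + x (n : ZMod M) := by
  unfold Ps
  rw [Finset.sum_range_succ]

theorem Ps_period (x : ZMod M → ℝ) (n : ℕ) : Ps x (n + M) = Ps x n + Ps x M := by
  induction n with
  | zero => simp [Ps]
  | succ n ih =>
    have h1 : n + 1 + M = n + M + 1 := by ring
    rw [h1, Ps_succ, ih, Ps_succ]
    have : ((n + M : ℕ) : ZMod M) = (n : ZMod M) := by simp
    rw [this]
    ring

theorem exists_large_rep [NeZero M] (k : ZMod M) (n₀ : ℕ) : ∃ n ≥ n₀, (n : ZMod M) = k := by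
  refine ⟨k.val + M * n₀, ?_, ?_⟩
  · have : 0 < M := Nat.pos_of_ne_zero (NeZero.ne M)
    nlinarith
  · simp

/-- The linearized equation has only the zero solution. -/
theorem lin_injective [NeZero M] (hc : ∀ k i, 0 ≤ c k i) {z : ℝ} (hz : 0 ≤ z) (x : ZMod M → ℝ)
    (δ : ZMod M → ℝ) (h : ∀ k, δ k + ∑ i ∈ range L, pf L c z x k i * Sg δ k i = 0) : δ = 0 := by
  have hM : 0 < M := Nat.pos_of_ne_zero (NeZero.ne M)
  set Y : ℕ → ℝ := fun n => -Ps δ n with hY
  set p : ℕ → ℕ → ℝ := fun n i => pf L c z x (n : ZMod M) i with hp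
  have havg : Avg L p Y := by
    intro n
    have h1 := h (n : ZMod M)
    simp only [hY, hp]
    have h2 : ∀ i, Ps δ (n + 1 + i) = Ps δ (n + 1) + Sg δ (n : ZMod M) i := Ps_add δ n
    simp only [h2, mul_neg, Finset.sum_neg_distrib, mul_add, Finset.sum_add_distrib,
      ← Finset.sum_mul]
    rw [Ps_succ]
    linarith
  have hpn : ∀ n i, 0 ≤ p n i := fun n i => pf_nonneg (L := L) hc hz x _ i
  have hp1 : ∀ n, ∑ i ∈ range L, p n i < 1 := fun n => sum_pf_lt (L := L) hc hz x _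
  have hconst : ∃ n₀, ∀ n ≥ n₀, Y n = Y n₀ := by
    rcases le_total 0 (Ps δ M) with h0 | h0
    · have h3 : ∀ n, Y (n + M) ≤ Y n := by
        intro n
        simp only [hY]
        rw [Ps_period]; linarith
      exact havg.const_of_anti hM hpn hp1 h3
    · have h3 : ∀ n, Y n ≤ Y (n + M) := by
        intro n
        simp only [hY]
        rw [Ps_period]; linarith
      exact havg.const_of_mono hM hpn hp1 h3
  obtain ⟨n₀, hn₀⟩ := hconst
  funext k
  obtain ⟨n, hn, hk⟩ := exists_large_rep k n₀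
  have h1 := hn₀ n hn
  have h2 := hn₀ (n + 1) (by omega)
  rw [← h2] at h1
  simp only [hY] at h1
  rw [Ps_succ] at h1
  rw [← hk]
  simp only [Pi.zero_apply]
  linarith

/-- Uniqueness of the periodic solution. -/
theorem sol_unique [NeZero M] (hc : ∀ k i, 0 ≤ c k i) {z : ℝ} (hz : 0 ≤ z)
    {x x' : ZMod M → ℝ} (hx : Fm L c (z, x) = 0) (hx' : Fm L c (z, x') = 0) : x = x' := by
  have hM : 0 < M := Nat.pos_of_ne_zero (NeZero.ne M)
  -- the positive solutions of the linear recursion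
  have hrec : ∀ y : ZMod M → ℝ, Fm L c (z, y) = 0 → ∀ n : ℕ,
      Real.exp (-Ps y n) = Real.exp (-Ps y (n + 1)) +
        ∑ i ∈ range L, z * c (n : ZMod M) i * Real.exp (-Ps y (n + 1 + i)) := by
    intro y hy n
    have h1 := congrFun hy (n : ZMod M)
    simp only [Fm, Pi.zero_apply] at h1
    have hQ := Qf_pos (L := L) hc hz y (n : ZMod M)
    have h2 : Real.exp (y (n : ZMod M)) = Qf L c z y (n : ZMod M) := by
      have : y (n : ZMod M) = Real.log (Qf L c z y (n : ZMod M)) := by linarith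
      rw [this, Real.exp_log hQ]
    have h3 : Real.exp (-Ps y n) = Real.exp (-Ps y (n + 1)) * Real.exp (y (n : ZMod M)) := by
      rw [← Real.exp_add, Ps_succ]
      congr 1
      ring
    rw [h3, h2]
    unfold Qf
    rw [mul_add, mul_one, Finset.mul_sum, Finset.mul_sum]
    congr 1
    refine Finset.sum_congr rfl fun i _ => ?_
    rw [Ps_add, neg_add, Real.exp_add]
    ring
  set h : ℕ → ℝ := fun n => Real.exp (-Ps x n) with hh
  set h' : ℕ → ℝ := fun n => Real.exp (-Ps x' n) with hh'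
  have hpos : ∀ n, 0 < h n := fun n => Real.exp_pos _
  have hpos' : ∀ n, 0 < h' n := fun n => Real.exp_pos _
  have hr : ∀ n, h n = h (n + 1) + ∑ i ∈ range L, z * c (n : ZMod M) i * h (n + 1 + i) :=
    hrec x hx
  have hr' : ∀ n, h' n = h' (n + 1) + ∑ i ∈ range L, z * c (n : ZMod M) i * h' (n + 1 + i) :=
    hrec x' hx'
  set Y : ℕ → ℝ := fun n => h' n / h n with hY
  set p : ℕ → ℕ → ℝ := fun n i => z * c (n : ZMod M) i * h (n + 1 + i) / h n with hp
  have hpn : ∀ n i, 0 ≤ p n i := fun n i =>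
    div_nonneg (mul_nonneg (mul_nonneg hz (hc _ i)) (hpos _).le) (hpos n).le
  have hps : ∀ n, ∑ i ∈ range L, p n i = 1 - h (n + 1) / h n := by
    intro n
    simp only [hp]
    rw [← Finset.sum_div]
    have h1 : ∑ i ∈ range L, z * c (n : ZMod M) i * h (n + 1 + i) = h n - h (n + 1) := by
      have := hr n; linarith
    rw [h1, sub_div, div_self (hpos n).ne']
  have hp1 : ∀ n, ∑ i ∈ range L, p n i < 1 := by
    intro n
    rw [hps]
    have : 0 < h (n + 1) / h n := div_pos (hpos _) (hpos _)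
    linarith
  have havg : Avg L p Y := by
    intro n
    rw [hps]
    simp only [hY, hp]
    have h1 : ∑ i ∈ range L, z * c (n : ZMod M) i * h (n + 1 + i) / h n *
        (h' (n + 1 + i) / h (n + 1 + i)) =
        (∑ i ∈ range L, z * c (n : ZMod M) i * h' (n + 1 + i)) / h n := by
      rw [Finset.sum_div]
      refine Finset.sum_congr rfl fun i _ => ?_
      have := (hpos (n + 1 + i)).ne'
      field_simp
    rw [h1]
    have h2 : ∑ i ∈ range L, z * c (n : ZMod M) i * h' (n + 1 + i) = h' n - h' (n + 1) := by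
      have := hr' n; linarith
    rw [h2]
    have h3 := (hpos n).ne'
    have h4 := (hpos (n + 1)).ne'
    field_simp
    ring
  have hYM : ∀ n, Y (n + M) = Real.exp (Ps x M - Ps x' M) * Y n := by
    intro n
    simp only [hY, hh, hh']
    rw [Ps_period, Ps_period, ← Real.exp_sub, ← Real.exp_sub, ← Real.exp_add]
    congr 1
    ring
  have hYpos : ∀ n, 0 < Y n := fun n => div_pos (hpos' n) (hpos n)
  have hconst : ∃ n₀, ∀ n ≥ n₀, Y n = Y n₀ := by
    rcases le_total (Ps x M - Ps x' M) 0 with h0 | h0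
    · refine havg.const_of_anti hM hpn hp1 (fun n => ?_)
      rw [hYM]
      have h1 : Real.exp (Ps x M - Ps x' M) ≤ 1 := Real.exp_le_one_iff.mpr h0
      have := hYpos n
      nlinarith
    · refine havg.const_of_mono hM hpn hp1 (fun n => ?_)
      rw [hYM]
      have h1 : 1 ≤ Real.exp (Ps x M - Ps x' M) := Real.one_le_exp h0
      have := hYpos n
      nlinarith
  obtain ⟨n₀, hn₀⟩ := hconst
  funext k
  obtain ⟨n, hn, hk⟩ := exists_large_rep k n₀
  have h1 := hn₀ n hn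
  have h2 := hn₀ (n + 1) (by omega)
  rw [← h2] at h1
  simp only [hY, hh, hh'] at h1
  rw [← Real.exp_sub, ← Real.exp_sub] at h1
  have h3 := Real.exp_injective h1
  rw [Ps_succ, Ps_succ] at h3
  rw [← hk]
  linarith

end Pool.Agent.W_MP_af6696_nt
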