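import Mathlib
import Pool.Agent.W_MP_af6696_nt.Perron

set_option autoImplicit false

namespace Pool.Agent.W_MP_af6696_nt

open Filter Topology Finset

variable {M : ℕ} [NeZero M] {L : ℕ} {c : ZMod M → ℕ → ℝ}

omit [NeZero M] in
theorem Sg_add_smul (x δ : ZMod M → ℝ) (s : ℝ) (k : ZMod M) (i : ℕ) :
    Sg (x + s • δ) k i = Sg x k i + s * Sg δ k i := by
  unfold Sg
  simp only [Pi.add_apply, Pi.smul_apply, smul_eq_mul, Finset.sum_add_distrib, Finset.mul_sum]

theorem contDiff_Qf (n : WithTop ℕ∞) (k : ZMod M) :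
    ContDiff ℝ n (fun v : ℝ × (ZMod M → ℝ) => Qf L c v.1 v.2 k) := by
  unfold Qf Sg
  have hproj : ∀ j : ZMod M, ContDiff ℝ n (fun v : ℝ × (ZMod M → ℝ) => v.2 j) := fun j =>
    (contDiff_apply ℝ ℝ j).comp contDiff_snd
  refine contDiff_const.add (contDiff_fst.mul (ContDiff.sum fun i _ => ?_))
  refine contDiff_const.mul (ContDiff.exp (ContDiff.neg (ContDiff.sum fun j _ => ?_)))
  exact hproj _

theorem contDiffAt_Fm (n : WithTop ℕ∞) (v : ℝ × (ZMod M → ℝ)) (hv : ∀ k, 0 < Qf L c v.1 v.2 k) :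
    ContDiffAt ℝ n (Fm L c) v := by
  unfold Fm
  rw [contDiffAt_pi]
  intro k
  have hproj : ContDiff ℝ n (fun v : ℝ × (ZMod M → ℝ) => v.2 k) :=
    (contDiff_apply ℝ ℝ k).comp contDiff_snd
  exact hproj.contDiffAt.sub ((contDiff_Qf n k).contDiffAt.log (hv k).ne')

theorem hasDerivAt_Fm_line (z : ℝ) (x δ : ZMod M → ℝ) (k : ZMod M) (hk : 0 < Qf L c z x k) :
    HasDerivAt (fun s : ℝ => Fm L c (z, x + s • δ) k)
      (δ k + ∑ i ∈ range L, pf L c z x k i * Sg δ k i) 0 := by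
  unfold Fm
  simp only
  have h1 : HasDerivAt (fun s : ℝ => (x + s • δ) k) (δ k) 0 := by
    simp only [Pi.add_apply, Pi.smul_apply, smul_eq_mul]
    simpa using ((hasDerivAt_id (0 : ℝ)).mul_const (δ k)).const_add (x k)
  have h2 : HasDerivAt (fun s : ℝ => Qf L c z (x + s • δ) k)
      (z * ∑ i ∈ range L, c k i * (Real.exp (-(Sg x k i)) * (-(Sg δ k i)))) 0 := by
    unfold Qf
    apply HasDerivAt.const_add
    apply HasDerivAt.const_mul
    have h3 : ∀ i ∈ range L, HasDerivAt (fun s : ℝ => c k i * Real.exp (-(Sg (x + s • δ) k i)))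
        (c k i * (Real.exp (-(Sg x k i)) * (-(Sg δ k i)))) 0 := by
      intro i _
      apply HasDerivAt.const_mul
      have h4 : HasDerivAt (fun s : ℝ => -(Sg (x + s • δ) k i)) (-(Sg δ k i)) 0 := by
        simp only [Sg_add_smul]
        have h6 := (((hasDerivAt_id (0 : ℝ)).mul_const (Sg δ k i)).const_add (Sg x k i)).fun_neg
        rw [one_mul] at h6
        exact h6
      have h5 := h4.exp
      simpa using h5
    exact HasDerivAt.fun_sum h3
  have h0 : Qf L c z (x + (0 : ℝ) • δ) k = Qf L c z x k := by simp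
  have h3 := h1.fun_sub (h2.log (by rw [h0]; exact hk.ne'))
  rw [h0] at h3
  have heq : δ k + ∑ i ∈ range L, pf L c z x k i * Sg δ k i =
      δ k - (z * ∑ i ∈ range L, c k i * (Real.exp (-Sg x k i) * -Sg δ k i)) / Qf L c z x k := by
    rw [sub_eq_add_neg]
    congr 1
    unfold pf
    rw [Finset.mul_sum, Finset.sum_div, ← Finset.sum_neg_distrib]
    refine Finset.sum_congr rfl fun i _ => ?_
    ring
  rw [heq]
  exact h3

theorem fderiv_Fm_apply (z : ℝ) (x δ : ZMod M → ℝ) (hk : ∀ k, 0 < Qf L c z x k) (k : ZMod M) :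
    (fderiv ℝ (Fm L c) (z, x) (0, δ)) k = δ k + ∑ i ∈ range L, pf L c z x k i * Sg δ k i := by
  have hd : HasFDerivAt (Fm L c) (fderiv ℝ (Fm L c) (z, x)) (z, x) :=
    ((contDiffAt_Fm 1 (z, x) hk).differentiableAt one_ne_zero).hasFDerivAt
  have hline : HasDerivAt (fun s : ℝ => (z, x + s • δ)) ((0 : ℝ), δ) 0 := by
    have h1 : HasDerivAt (fun _ : ℝ => z) 0 (0 : ℝ) := hasDerivAt_const _ _
    have h2 : HasDerivAt (fun s : ℝ => x + s • δ) δ 0 := by
      simpa using ((hasDerivAt_id (0 : ℝ)).smul_const δ).const_add x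
    exact h1.prodMk h2
  have hd' : HasFDerivAt (Fm L c) (fderiv ℝ (Fm L c) (z, x)) (z, x + (0 : ℝ) • δ) := by
    simpa using hd
  have h3 := hd'.comp_hasDerivAt (0 : ℝ) hline
  rw [hasDerivAt_pi] at h3
  exact (h3 k).unique (hasDerivAt_Fm_line z x δ k (hk k))

/-- the linearization in the periodic variable -/
noncomputable def Jm (L : ℕ) (c : ZMod M → ℕ → ℝ) (z : ℝ) (x : ZMod M → ℝ) :
    (ZMod M → ℝ) →L[ℝ] (ZMod M → ℝ) :=
  fderiv ℝ (Fm L c) (z, x) ∘L .inr ℝ ℝ (ZMod M → ℝ)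

theorem Jm_apply (hc : ∀ k i, 0 ≤ c k i) {z : ℝ} (hz : 0 ≤ z) (x δ : ZMod M → ℝ) (k : ZMod M) :
    Jm L c z x δ k = δ k + ∑ i ∈ range L, pf L c z x k i * Sg δ k i := by
  unfold Jm
  simp only [ContinuousLinearMap.coe_comp, Function.comp_apply, ContinuousLinearMap.inr_apply]
  exact fderiv_Fm_apply z x δ (Qf_pos hc hz x) k

theorem Jm_invertible (hc : ∀ k i, 0 ≤ c k i) {z : ℝ} (hz : 0 ≤ z) (x : ZMod M → ℝ) :
    (Jm L c z x).IsInvertible := by
  have hinj : Function.Injective (Jm L c z x) := by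
    rw [injective_iff_map_eq_zero]
    intro δ hδ
    apply lin_injective (L := L) hc hz x δ
    intro k
    rw [← Jm_apply hc hz x δ k, hδ]
    rfl
  refine ⟨(LinearEquiv.ofInjectiveEndo (Jm L c z x).toLinearMap hinj).toContinuousLinearEquiv, ?_⟩
  ext δ
  rfl

/-- Near a solution there is a smooth curve of solutions. -/
theorem local_curve (hc : ∀ k i, 0 ≤ c k i) {z : ℝ} (hz : 0 ≤ z) (x : ZMod M → ℝ)
    (hx : Fm L c (z, x) = 0) :
    ∃ X : ℝ → (ZMod M → ℝ), ContDiffAt ℝ 3 X z ∧ X z = x ∧ ∀ᶠ y in 𝓝 z, Fm L c (y, X y) = 0 := by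
  have cdf : ContDiffAt ℝ 3 (Fm L c) (z, x) := contDiffAt_Fm 3 (z, x) (Qf_pos hc hz x)
  have hinv : (fderiv ℝ (Fm L c) (z, x) ∘L .inr ℝ ℝ (ZMod M → ℝ)).IsInvertible :=
    Jm_invertible hc hz x
  have h3 : (3 : WithTop ℕ∞) ≠ 0 := by norm_num
  refine ⟨cdf.implicitFunction h3 hinv, cdf.contDiffAt_implicitFunction h3 hinv,
    cdf.implicitFunction_apply_self h3 hinv, ?_⟩
  have := cdf.eventually_apply_implicitFunction h3 hinv
  filter_upwards [this] with y hy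
  rw [hy, hx]

omit [NeZero M] in
theorem sol_bounds (hc : ∀ k i, 0 ≤ c k i) {z : ℝ} (hz : 0 ≤ z) (x : ZMod M → ℝ)
    (hx : Fm L c (z, x) = 0) (k : ZMod M) : 0 ≤ x k ∧ x k ≤ z * ∑ i ∈ range L, c k i := by
  have h1 : ∀ k, x k = Real.log (Qf L c z x k) := by
    intro k
    have := congrFun hx k
    simp only [Fm, Pi.zero_apply] at this
    linarith
  have h0 : ∀ k, 0 ≤ x k := by
    intro k
    rw [h1]
    exact Real.log_nonneg (Qf_ge_one hc hz x k)
  refine ⟨h0 k, ?_⟩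
  have h2 : x k ≤ Qf L c z x k - 1 := by
    rw [h1 k]
    exact Real.log_le_sub_one_of_pos (Qf_pos hc hz x k)
  refine h2.trans ?_
  unfold Qf
  rw [add_sub_cancel_left]
  apply mul_le_mul_of_nonneg_left _ hz
  apply Finset.sum_le_sum
  intro i _
  have h3 : 0 ≤ Sg x k i := Finset.sum_nonneg fun j _ => h0 _
  have h4 : Real.exp (-(Sg x k i)) ≤ 1 := Real.exp_le_one_iff.mpr (by linarith)
  have := hc k i
  nlinarith

omit [NeZero M] in
theorem sol_zero : Fm L c (0, (0 : ZMod M → ℝ)) = 0 := by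
  funext k
  simp [Fm, Qf]

theorem sol_exists (hc : ∀ k i, 0 ≤ c k i) {z : ℝ} (hz : 0 ≤ z) : ∃ x, Fm L c (z, x) = 0 := by
  set S : Set ℝ := {y | ∃ x, Fm L c (y, x) = 0} with hS
  set R : ℝ := ∑ k : ZMod M, z * ∑ i ∈ range L, c k i with hR
  have hterm : ∀ k : ZMod M, 0 ≤ z * ∑ i ∈ range L, c k i := fun k =>
    mul_nonneg hz (Finset.sum_nonneg fun i _ => hc k i)
  set T : Set (ℝ × (ZMod M → ℝ)) :=
    (Set.Icc 0 z ×ˢ Metric.closedBall (0 : ZMod M → ℝ) R) ∩ (Fm L c) ⁻¹' {0} with hT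
  have hcont : ContinuousOn (Fm L c) (Set.Icc 0 z ×ˢ Metric.closedBall (0 : ZMod M → ℝ) R) := by
    intro v hv
    exact (contDiffAt_Fm 0 v (Qf_pos hc hv.1.1 v.2)).continuousAt.continuousWithinAt
  have hTc : IsCompact T := by
    have h1 : IsCompact (Set.Icc 0 z ×ˢ Metric.closedBall (0 : ZMod M → ℝ) R) :=
      isCompact_Icc.prod (isCompact_closedBall _ _)
    refine h1.of_isClosed_subset ?_ Set.inter_subset_left
    exact hcont.preimage_isClosed_of_isClosed h1.isClosed isClosed_singleton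
  have himg : S ∩ Set.Icc 0 z = Prod.fst '' T := by
    ext y
    constructor
    · rintro ⟨⟨x, hx⟩, hy⟩
      refine ⟨(y, x), ⟨⟨hy, ?_⟩, hx⟩, rfl⟩
      rw [Metric.mem_closedBall, dist_zero_right]
      rw [pi_norm_le_iff_of_nonneg (Finset.sum_nonneg fun k _ => hterm k)]
      intro k
      have h1 := sol_bounds hc hy.1 x hx k
      rw [Real.norm_of_nonneg h1.1]
      refine h1.2.trans ?_
      calc y * ∑ i ∈ range L, c k i ≤ z * ∑ i ∈ range L, c k i :=
            mul_le_mul_of_nonneg_right hy.2 (Finset.sum_nonneg fun i _ => hc k i)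
        _ ≤ R := Finset.single_le_sum (f := fun k : ZMod M => z * ∑ i ∈ range L, c k i)
            (fun k _ => hterm k) (Finset.mem_univ k)
    · rintro ⟨⟨y', x⟩, ⟨⟨hy, _⟩, hx⟩, rfl⟩
      exact ⟨⟨x, hx⟩, hy⟩
  have hclosed : IsClosed (S ∩ Set.Icc 0 z) := by
    rw [himg]
    exact (hTc.image continuous_fst).isClosed
  have hsub : Set.Icc 0 z ⊆ S := by
    apply hclosed.Icc_subset_of_forall_exists_gt ⟨0, sol_zero⟩
    rintro y ⟨⟨x, hx⟩, hy⟩ w hw
    obtain ⟨X, -, -, hX⟩ := local_curve hc hy.1 x hx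
    have h1 : ∀ᶠ y' in 𝓝[>] y, Fm L c (y', X y') = 0 := nhdsWithin_le_nhds hX
    have h2 : ∀ᶠ y' in 𝓝[>] y, y' ∈ Set.Ioc y w := Ioc_mem_nhdsGT hw
    obtain ⟨y', h3, h4⟩ := (h1.and h2).exists
    exact ⟨y', ⟨X y', h3⟩, h4⟩
  exact hsub ⟨hz, le_refl _⟩

/-- The smooth family of periodic solutions. -/
theorem exists_phi (hc : ∀ k i, 0 ≤ c k i) :
    ∃ φ : ℝ → (ZMod M → ℝ), (∀ z, 0 ≤ z → Fm L c (z, φ z) = 0) ∧
      ∀ z, 0 ≤ z → ContDiffAt ℝ 3 φ z := by
  classical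
  obtain ⟨X₀, hX₀, hX₀0, hX₀s⟩ := local_curve (L := L) hc (le_refl (0 : ℝ)) 0 sol_zero
  choose! f hf using fun (z : ℝ) (hz : 0 ≤ z) => sol_exists (L := L) hc hz
  set φ : ℝ → (ZMod M → ℝ) := fun z => if 0 ≤ z then f z else X₀ z with hφ
  have hφs : ∀ z, 0 ≤ z → Fm L c (z, φ z) = 0 := by
    intro z hz
    simp only [hφ, hz, if_true]
    exact hf z hz
  refine ⟨φ, hφs, fun z hz => ?_⟩
  rcases hz.eq_or_lt with h0 | h0
  · rw [← h0]
    refine hX₀.congr_of_eventuallyEq ?_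
    filter_upwards [hX₀s] with y hy
    by_cases hy0 : 0 ≤ y
    · exact sol_unique hc hy0 (hφs y hy0) hy
    · simp [hφ, hy0]
  · obtain ⟨X, hX, -, hXs⟩ := local_curve (L := L) hc hz (φ z) (hφs z hz)
    refine hX.congr_of_eventuallyEq ?_
    filter_upwards [hXs, lt_mem_nhds h0] with y hy hy0
    exact sol_unique hc hy0.le (hφs y hy0.le) hy

/-- right side for the corrector -/
noncomputable def rhs (L : ℕ) (c : ZMod M → ℕ → ℝ) (σ : ℝ) (φ : ℝ → (ZMod M → ℝ)) (z : ℝ) :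
    ZMod M → ℝ := fun k =>
  -∑ i ∈ range L, pf L c z (φ z) k i *
    (σ * (i + 1) - ∑ j ∈ range i, (1 + j) * (z * deriv (fun y => φ y (k + 1 + j)) z))

/-- The smooth corrector. -/
theorem exists_psi (hc : ∀ k i, 0 ≤ c k i) (σ : ℝ) (φ : ℝ → (ZMod M → ℝ))
    (hφs : ∀ z, 0 ≤ z → Fm L c (z, φ z) = 0) (hφ : ∀ z, 0 ≤ z → ContDiffAt ℝ 3 φ z) :
    ∃ ψ : ℝ → (ZMod M → ℝ), (∀ z, 0 ≤ z → ContDiffAt ℝ 1 ψ z) ∧ ψ 0 = 0 ∧
      ∀ z, 0 ≤ z → ∀ k, ψ z k + ∑ i ∈ range L, pf L c z (φ z) k i * Sg (ψ z) k i =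
        rhs L c σ φ z k := by
  set ψ : ℝ → (ZMod M → ℝ) := fun z => (Jm L c z (φ z)).inverse (rhs L c σ φ z) with hψ
  have hJψ : ∀ z, 0 ≤ z → Jm L c z (φ z) (ψ z) = rhs L c σ φ z := fun z hz =>
    (Jm_invertible hc hz (φ z)).self_apply_inverse _
  refine ⟨ψ, fun z hz => ?_, ?_, fun z hz k => ?_⟩
  · -- smoothness
    have hpair : ContDiffAt ℝ 3 (fun y : ℝ => (y, φ y)) z := contDiffAt_id.prodMk (hφ z hz)
    have hJ : ContDiffAt ℝ 1 (fun y => Jm L c y (φ y)) z := by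
      unfold Jm
      have h1 : ContDiffAt ℝ 1 (fderiv ℝ (Fm L c)) (z, φ z) :=
        (contDiffAt_Fm 3 (z, φ z) (Qf_pos hc hz (φ z))).fderiv_right (by norm_num)
      have h2 : ContDiffAt ℝ 1 (fun y : ℝ => fderiv ℝ (Fm L c) (y, φ y)) z :=
        ContDiffAt.comp z h1 (hpair.of_le (by norm_num))
      exact h2.clm_comp contDiffAt_const
    have hcoord : ∀ j : ZMod M, ContDiffAt ℝ 3 (fun y => φ y j) z := fun j =>
      (contDiffAt_pi.mp (hφ z hz)) j
    have hrhs : ContDiffAt ℝ 1 (rhs L c σ φ) z := by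
      unfold rhs
      rw [contDiffAt_pi]
      intro k
      refine (ContDiffAt.sum fun i _ => ?_).neg
      refine ContDiffAt.mul ?_ ?_
      · unfold pf
        have h0 : ContDiffAt ℝ 1 (fun y : ℝ => (y, φ y)) z := hpair.of_le (by norm_num)
        have h1 : ContDiffAt ℝ 1 (fun y => Qf L c y (φ y) k) z :=
          ContDiffAt.comp (g := fun v : ℝ × (ZMod M → ℝ) => Qf L c v.1 v.2 k)
            (f := fun y : ℝ => (y, φ y)) z (contDiff_Qf 1 k).contDiffAt h0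
        refine ContDiffAt.div ?_ h1 (Qf_pos hc hz (φ z) k).ne'
        refine ContDiffAt.mul (contDiffAt_id.mul contDiffAt_const) ?_
        refine ContDiffAt.exp (ContDiffAt.neg ?_)
        unfold Sg
        exact ContDiffAt.sum fun j _ => (hcoord _).of_le (by norm_num)
      · refine contDiffAt_const.sub (ContDiffAt.sum fun j _ => ?_)
        refine contDiffAt_const.mul (contDiffAt_id.mul ?_)
        have h1 : ContDiffAt ℝ 1 (fderiv ℝ (fun y => φ y (k + 1 + j))) z :=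
          (hcoord (k + 1 + j)).fderiv_right (by norm_num)
        have h2 : (deriv (fun y => φ y (k + 1 + j))) =
            fun y => fderiv ℝ (fun y => φ y (k + 1 + j)) y 1 := by
          funext y
          rfl
        rw [h2]
        exact h1.clm_apply contDiffAt_const
    obtain ⟨e, he⟩ := Jm_invertible (L := L) hc hz (φ z)
    have hinv : ContDiffAt ℝ 1 (fun y => (Jm L c y (φ y)).inverse) z := by
      have h1 := contDiffAt_map_inverse (n := 1) e
      rw [he] at h1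
      exact ContDiffAt.comp z h1 hJ
    exact hinv.clm_apply hrhs
  · have h1 := hJψ 0 (le_refl _)
    have h2 : rhs L c σ φ 0 = 0 := by
      funext k
      simp [rhs, pf]
    rw [h2] at h1
    have h3 := (Jm_invertible (L := L) hc (le_refl (0 : ℝ)) (φ 0)).injective
    apply h3
    rw [h1, map_zero]
  · rw [← hJψ z hz, Jm_apply hc hz]

end Pool.Agent.W_MP_af6696_nt
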