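import Mathlib

set_option autoImplicit false

namespace Pool.Agent.W_MP_af6696_nt

open Finset

/-- the logarithmic part of the estimate -/
theorem resid_log {a a0 a1 P C3 t z : ℝ} (hz0 : 0 ≤ z) (hz1 : z ≤ 1) (ht : 0 < t)
    (ha0 : 0 ≤ a0) (hP : 0 ≤ P) (hC3 : 0 ≤ C3) (haa : |a - a0 - t * a1| ≤ P * t ^ 2 * z)
    (haa' : |a - a0| ≤ C3 * t * z) (ht3 : C3 * t ≤ 1 / 2) :
    |Real.log (1 + a0) + t * (a1 / (1 + a0)) - Real.log (1 + a)| ≤
      (P + 2 * C3 ^ 2) * t ^ 2 * z := by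
  have hQ1 : 1 ≤ 1 + a0 := by linarith
  have hQpos : 0 < 1 + a0 := by linarith
  obtain ⟨y, hy⟩ : ∃ y, y = (a - a0) / (1 + a0) := ⟨_, rfl⟩
  have hyb : |y| ≤ C3 * t * z := by
    rw [hy, abs_div, abs_of_pos hQpos, div_le_iff₀ hQpos]
    refine haa'.trans ?_
    have : 0 ≤ C3 * t * z := by positivity
    nlinarith
  have hyhalf : |y| ≤ 1 / 2 := by
    refine hyb.trans ?_
    calc C3 * t * z ≤ C3 * t * 1 := by gcongr
      _ ≤ 1 / 2 := by rw [mul_one]; exact ht3
  have hy1 : 1 / 2 ≤ 1 + y := by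
    have := neg_abs_le y; linarith
  have hprod : 1 + a = (1 + a0) * (1 + y) := by
    rw [hy]; field_simp; ring
  have hlog : Real.log (1 + a) = Real.log (1 + a0) + Real.log (1 + y) := by
    rw [hprod, Real.log_mul hQpos.ne' (by linarith)]
  have hlogy : |Real.log (1 + y) - y| ≤ 2 * y ^ 2 := by
    have h1 : Real.log (1 + y) ≤ y := by
      have := Real.log_le_sub_one_of_pos (show 0 < 1 + y by linarith)
      linarith
    have h2 : y - 2 * y ^ 2 ≤ Real.log (1 + y) := by
      have h3 := Real.one_sub_inv_le_log_of_pos (show 0 < 1 + y by linarith)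
      refine le_trans ?_ h3
      have h4 : 0 < 1 + y := by linarith
      rw [← sub_nonneg]
      have h5 : 1 - (1 + y)⁻¹ - (y - 2 * y ^ 2) = y ^ 2 * (1 + 2 * y) / (1 + y) := by
        field_simp
        ring
      rw [h5]
      apply div_nonneg _ h4.le
      apply mul_nonneg (sq_nonneg y)
      linarith
    rw [abs_le]
    constructor <;> nlinarith [sq_nonneg y]
  rw [hlog]
  have hfin : Real.log (1 + a0) + t * (a1 / (1 + a0)) - (Real.log (1 + a0) + Real.log (1 + y)) =
      -((a - a0 - t * a1) / (1 + a0)) - (Real.log (1 + y) - y) := by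
    rw [hy]; ring
  rw [hfin]
  refine (abs_sub _ _).trans ?_
  rw [abs_neg, abs_div, abs_of_pos hQpos]
  have h1 : |a - a0 - t * a1| / (1 + a0) ≤ P * t ^ 2 * z := by
    rw [div_le_iff₀ hQpos]
    refine haa.trans ?_
    have : 0 ≤ P * t ^ 2 * z := by positivity
    nlinarith
  have h2 : 2 * y ^ 2 ≤ 2 * C3 ^ 2 * t ^ 2 * z := by
    have h3 : y ^ 2 ≤ (C3 * t * z) ^ 2 := by
      rw [← sq_abs y]
      gcongr
    have h4 : (C3 * t * z) ^ 2 ≤ C3 ^ 2 * t ^ 2 * z := by
      have : z ^ 2 ≤ z := by nlinarith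
      calc (C3 * t * z) ^ 2 = C3 ^ 2 * t ^ 2 * z ^ 2 := by ring
        _ ≤ C3 ^ 2 * t ^ 2 * z := by gcongr
    linarith
  calc |a - a0 - t * a1| / (1 + a0) + |Real.log (1 + y) - y|
      ≤ P * t ^ 2 * z + 2 * C3 ^ 2 * t ^ 2 * z := by linarith
    _ = _ := by ring

/-- The residual of the first order approximation in the logarithmic recursion. -/
theorem resid_core (L : ℕ) (cc s s0 d : ℕ → ℝ) {z t S D C1 : ℝ} (hz0 : 0 ≤ z) (hz1 : z ≤ 1)
    (ht : 0 < t) (hcc : ∀ i, 0 ≤ cc i) (hS : ∑ i ∈ range L, cc i ≤ S)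
    (hs0 : ∀ i ∈ range L, 0 ≤ s0 i) (hd : ∀ i ∈ range L, |d i| ≤ D)
    (hs : ∀ i ∈ range L, |s i - s0 i - t * d i| ≤ C1 * t ^ 2) (hD : 0 ≤ D) (hC1 : 0 ≤ C1)
    (ht1 : t ≤ 1) (ht2 : (D + C1) * t ≤ 1)
    (ht3 : (S * D + S * ((D + C1) ^ 2 + C1)) * t ≤ 1 / 2) :
    |Real.log (1 + z * ∑ i ∈ range L, cc i * Real.exp (-(s0 i))) +
      t * (-∑ i ∈ range L, z * cc i * Real.exp (-(s0 i)) /
        (1 + z * ∑ i ∈ range L, cc i * Real.exp (-(s0 i))) * d i) -
      Real.log (1 + z * ∑ i ∈ range L, cc i * Real.exp (-(s i)))| ≤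
      (S * ((D + C1) ^ 2 + C1) + 2 * (S * D + S * ((D + C1) ^ 2 + C1)) ^ 2) * t ^ 2 * z := by
  have hS0 : 0 ≤ S := (Finset.sum_nonneg fun i _ => hcc i).trans hS
  set C2 := (D + C1) ^ 2 + C1 with hC2
  have hC20 : 0 ≤ C2 := by positivity
  set C3 := S * D + S * C2 with hC3
  have hC30 : 0 ≤ C3 := by positivity
  -- exponentials
  have hexp : ∀ i ∈ range L, |Real.exp (-(s i)) - Real.exp (-(s0 i)) * (1 - t * d i)| ≤ C2 * t ^ 2 := by
    intro i hi
    set δ := s i - s0 i with hδ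
    have h1 : |δ - t * d i| ≤ C1 * t ^ 2 := hs i hi
    have h2 : |δ| ≤ (D + C1) * t := by
      have h3 : δ = (δ - t * d i) + t * d i := by ring
      rw [h3]
      refine (abs_add_le _ _).trans ?_
      rw [abs_mul, abs_of_pos ht]
      have h4 : C1 * t ^ 2 ≤ C1 * t := by
        have : t ^ 2 ≤ t := by nlinarith
        exact mul_le_mul_of_nonneg_left this hC1
      have h5 : t * |d i| ≤ t * D := mul_le_mul_of_nonneg_left (hd i hi) ht.le
      linarith
    have h3 : |(-δ)| ≤ 1 := by rw [abs_neg]; exact h2.trans ht2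
    have h4 := Real.abs_exp_sub_one_sub_id_le h3
    have h5 : Real.exp (-(s i)) = Real.exp (-(s0 i)) * Real.exp (-δ) := by
      rw [← Real.exp_add]; congr 1; rw [hδ]; ring
    have h6 : Real.exp (-(s0 i)) ≤ 1 := Real.exp_le_one_iff.mpr (by linarith [hs0 i hi])
    have h7 : Real.exp (-(s i)) - Real.exp (-(s0 i)) * (1 - t * d i) =
        Real.exp (-(s0 i)) * ((Real.exp (-δ) - 1 - -δ) - (δ - t * d i)) := by
      rw [h5]; ring
    rw [h7, abs_mul, abs_of_nonneg (Real.exp_nonneg _)]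
    have h8 : |(Real.exp (-δ) - 1 - -δ) - (δ - t * d i)| ≤ C2 * t ^ 2 := by
      refine (abs_sub _ _).trans ?_
      have h9 : (-δ) ^ 2 ≤ ((D + C1) * t) ^ 2 := by
        rw [neg_sq, ← sq_abs]
        gcongr
      calc |Real.exp (-δ) - 1 - -δ| + |δ - t * d i| ≤ ((D + C1) * t) ^ 2 + C1 * t ^ 2 := by
            linarith
        _ = C2 * t ^ 2 := by rw [hC2]; ring
    calc Real.exp (-(s0 i)) * |(Real.exp (-δ) - 1 - -δ) - (δ - t * d i)|
        ≤ 1 * (C2 * t ^ 2) := by
          apply mul_le_mul h6 h8 (abs_nonneg _) zero_le_one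
      _ = C2 * t ^ 2 := one_mul _
  set a := z * ∑ i ∈ range L, cc i * Real.exp (-(s i)) with ha
  set a0 := z * ∑ i ∈ range L, cc i * Real.exp (-(s0 i)) with ha0
  set a1 := -(z * ∑ i ∈ range L, cc i * Real.exp (-(s0 i)) * d i) with ha1
  have ha0n : 0 ≤ a0 := mul_nonneg hz0
    (Finset.sum_nonneg fun i _ => mul_nonneg (hcc i) (Real.exp_nonneg _))
  have han : 0 ≤ a := mul_nonneg hz0
    (Finset.sum_nonneg fun i _ => mul_nonneg (hcc i) (Real.exp_nonneg _))
  have haa : |a - a0 - t * a1| ≤ S * C2 * t ^ 2 * z := by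
    have h1 : a - a0 - t * a1 = z * ∑ i ∈ range L,
        cc i * (Real.exp (-(s i)) - Real.exp (-(s0 i)) * (1 - t * d i)) := by
      rw [ha, ha0, ha1]
      have h2 : ∑ i ∈ range L, cc i * (Real.exp (-(s i)) - Real.exp (-(s0 i)) * (1 - t * d i)) =
          (∑ i ∈ range L, cc i * Real.exp (-(s i))) - (∑ i ∈ range L, cc i * Real.exp (-(s0 i))) +
            t * ∑ i ∈ range L, cc i * Real.exp (-(s0 i)) * d i := by
        rw [Finset.mul_sum, ← Finset.sum_sub_distrib, ← Finset.sum_add_distrib]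
        refine Finset.sum_congr rfl fun i _ => ?_
        ring
      rw [h2]; ring
    rw [h1, abs_mul, abs_of_nonneg hz0]
    have h3 : |∑ i ∈ range L, cc i * (Real.exp (-(s i)) - Real.exp (-(s0 i)) * (1 - t * d i))| ≤
        S * (C2 * t ^ 2) := by
      refine (Finset.abs_sum_le_sum_abs _ _).trans ?_
      calc ∑ i ∈ range L, |cc i * (Real.exp (-(s i)) - Real.exp (-(s0 i)) * (1 - t * d i))|
          ≤ ∑ i ∈ range L, cc i * (C2 * t ^ 2) := by
            apply Finset.sum_le_sum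
            intro i hi
            rw [abs_mul, abs_of_nonneg (hcc i)]
            exact mul_le_mul_of_nonneg_left (hexp i hi) (hcc i)
        _ = (∑ i ∈ range L, cc i) * (C2 * t ^ 2) := by rw [Finset.sum_mul]
        _ ≤ S * (C2 * t ^ 2) := by gcongr
    calc z * _ ≤ z * (S * (C2 * t ^ 2)) := by gcongr
      _ = _ := by ring
  have ha1b : |a1| ≤ S * D * z := by
    rw [ha1, abs_neg, abs_mul, abs_of_nonneg hz0]
    have h3 : |∑ i ∈ range L, cc i * Real.exp (-(s0 i)) * d i| ≤ S * D := by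
      refine (Finset.abs_sum_le_sum_abs _ _).trans ?_
      calc ∑ i ∈ range L, |cc i * Real.exp (-(s0 i)) * d i| ≤ ∑ i ∈ range L, cc i * D := by
            apply Finset.sum_le_sum
            intro i hi
            rw [abs_mul, abs_mul, abs_of_nonneg (hcc i), abs_of_nonneg (Real.exp_nonneg _)]
            have h6 : Real.exp (-(s0 i)) ≤ 1 := Real.exp_le_one_iff.mpr (by linarith [hs0 i hi])
            have h7 := hd i hi
            have h8 := Real.exp_nonneg (-(s0 i))
            calc cc i * Real.exp (-(s0 i)) * |d i| ≤ cc i * 1 * D := by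
                  have := hcc i
                  gcongr
              _ = cc i * D := by ring
        _ = (∑ i ∈ range L, cc i) * D := by rw [Finset.sum_mul]
        _ ≤ S * D := by gcongr
    calc z * _ ≤ z * (S * D) := by gcongr
      _ = _ := by ring
  have haa' : |a - a0| ≤ C3 * t * z := by
    have h1 : a - a0 = (a - a0 - t * a1) + t * a1 := by ring
    rw [h1]
    refine (abs_add_le _ _).trans ?_
    rw [abs_mul, abs_of_pos ht]
    have h2 : S * C2 * t ^ 2 * z ≤ S * C2 * t * z := by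
      have : t ^ 2 ≤ t := by nlinarith
      gcongr
    have h3 : t * |a1| ≤ t * (S * D * z) := mul_le_mul_of_nonneg_left ha1b ht.le
    calc _ ≤ S * C2 * t * z + t * (S * D * z) := by linarith
      _ = C3 * t * z := by rw [hC3]; ring
  -- rewrite the corrector term
  have hcorr : -∑ i ∈ range L, z * cc i * Real.exp (-(s0 i)) / (1 + a0) * d i = a1 / (1 + a0) := by
    rw [ha1, neg_div, Finset.mul_sum, Finset.sum_div]
    congr 1
    refine Finset.sum_congr rfl fun i _ => ?_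
    ring
  rw [hcorr]
  exact resid_log hz0 hz1 ht ha0n (by positivity) hC30 haa haa' ht3

end Pool.Agent.W_MP_af6696_nt
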