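import Mathlib

set_option autoImplicit false

namespace Pool.Agent.W_MP_af6696_nt

open Filter Topology MeasureTheory

/-- decaying Lipschitz functions -/
structure T1 (q : ℝ → ℝ) (C : ℝ) : Prop where
  nonneg : 0 ≤ C
  cont : ContinuousOn q (Set.Ici 0)
  b0 : ∀ u, 0 ≤ u → |q u| ≤ C * Real.exp (-u)
  lip : ∀ u, 0 ≤ u → ∀ h, 0 ≤ h → |q (u + h) - q u| ≤ C * h * Real.exp (-u)

/-- decaying functions with a second order Taylor bound -/
structure T2 (g g1 : ℝ → ℝ) (C : ℝ) : Prop where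
  nonneg : 0 ≤ C
  cont : ContinuousOn g (Set.Ici 0)
  b0 : ∀ u, 0 ≤ u → |g u| ≤ C * Real.exp (-u)
  b1 : ∀ u, 0 ≤ u → |g1 u| ≤ C * Real.exp (-u)
  tay : ∀ u, 0 ≤ u → ∀ h, 0 ≤ h → |g (u + h) - g u - h * g1 u| ≤ C * h ^ 2 * Real.exp (-u)

theorem T1.mono {q : ℝ → ℝ} {C C' : ℝ} (h : T1 q C) (hC : C ≤ C') : T1 q C' where
  nonneg := h.nonneg.trans hC
  cont := h.cont
  b0 := fun u hu => (h.b0 u hu).trans (by gcongr)
  lip := fun u hu t ht => (h.lip u hu t ht).trans (by gcongr)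

theorem T2.mono {g g1 : ℝ → ℝ} {C C' : ℝ} (h : T2 g g1 C) (hC : C ≤ C') : T2 g g1 C' where
  nonneg := h.nonneg.trans hC
  cont := h.cont
  b0 := fun u hu => (h.b0 u hu).trans (by gcongr)
  b1 := fun u hu => (h.b1 u hu).trans (by gcongr)
  tay := fun u hu t ht => (h.tay u hu t ht).trans (by gcongr)

theorem exp_neg_mem {u : ℝ} (hu : 0 ≤ u) : Real.exp (-u) ∈ Set.Icc (0 : ℝ) 1 :=
  ⟨(Real.exp_pos _).le, Real.exp_le_one_iff.mpr (by linarith)⟩

/-- A continuous-at-every-point function is bounded on `[0, 1]`. -/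
theorem bdd_Icc {f : ℝ → ℝ} (hf : ∀ z ∈ Set.Icc (0 : ℝ) 1, ContinuousAt f z) :
    ∃ C, 0 ≤ C ∧ ∀ z ∈ Set.Icc (0 : ℝ) 1, |f z| ≤ C := by
  have hc : ContinuousOn f (Set.Icc 0 1) := fun z hz => (hf z hz).continuousWithinAt
  obtain ⟨C, hC⟩ := isCompact_Icc.exists_bound_of_continuousOn hc
  exact ⟨C, (norm_nonneg _).trans (hC 0 (by simp)), hC⟩

theorem exists_T1 {f : ℝ → ℝ} (hf : ∀ z ∈ Set.Icc (0 : ℝ) 1, ContDiffAt ℝ 1 f z) (h0 : f 0 = 0) :
    ∃ C, T1 (fun u => f (Real.exp (-u))) C := by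
  have hd : ∀ z ∈ Set.Icc (0 : ℝ) 1, HasDerivAt f (deriv f z) z := fun z hz =>
    ((hf z hz).differentiableAt one_ne_zero).hasDerivAt
  have hdc : ∀ z ∈ Set.Icc (0 : ℝ) 1, ContinuousAt (deriv f) z := by
    intro z hz
    have h1 : ContDiffAt ℝ 0 (fderiv ℝ f) z := (hf z hz).fderiv_right (by norm_num)
    have h2 : ContinuousAt (fun y => fderiv ℝ f y 1) z :=
      (h1.continuousAt).clm_apply continuousAt_const
    exact h2
  obtain ⟨C, hC0, hC⟩ := bdd_Icc hdc
  have hmv : ∀ z ∈ Set.Icc (0 : ℝ) 1, ∀ w ∈ Set.Icc (0 : ℝ) 1, |f w - f z| ≤ C * |w - z| := by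
    intro z hz w hw
    have := (convex_Icc (0 : ℝ) 1).norm_image_sub_le_of_norm_hasDerivWithin_le
      (f := f) (f' := deriv f) (C := C) (fun x hx => (hd x hx).hasDerivWithinAt)
      (fun x hx => hC x hx) hz hw
    simpa using this
  refine ⟨C, hC0, ?_, ?_, ?_⟩
  · intro u hu
    have h1 := (hf _ (exp_neg_mem hu)).continuousAt
    have h2 : ContinuousAt (fun u : ℝ => Real.exp (-u)) u := by fun_prop
    exact (ContinuousAt.comp (f := fun u : ℝ => Real.exp (-u)) h1 h2).continuousWithinAt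
  · intro u hu
    have h1 := hmv 0 (by simp) _ (exp_neg_mem hu)
    rw [h0, sub_zero, sub_zero, abs_of_nonneg (Real.exp_nonneg _)] at h1
    exact h1
  · intro u hu h hh
    have h1 := hmv _ (exp_neg_mem hu) _ (exp_neg_mem (add_nonneg hu hh))
    refine h1.trans ?_
    rw [mul_assoc]
    apply mul_le_mul_of_nonneg_left _ hC0
    have h2 : Real.exp (-(u + h)) = Real.exp (-u) * Real.exp (-h) := by
      rw [← Real.exp_add]; congr 1; ring
    have h3 : 1 - h ≤ Real.exp (-h) := by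
      have := Real.add_one_le_exp (-h); linarith
    have h4 : Real.exp (-h) ≤ 1 := Real.exp_le_one_iff.mpr (by linarith)
    rw [h2, abs_sub_comm]
    have h5 : Real.exp (-u) - Real.exp (-u) * Real.exp (-h) = (1 - Real.exp (-h)) * Real.exp (-u) := by
      ring
    rw [h5, abs_of_nonneg (mul_nonneg (by linarith) (Real.exp_nonneg _))]
    apply mul_le_mul_of_nonneg_right _ (Real.exp_nonneg _)
    linarith

theorem exists_T2 {f : ℝ → ℝ} (hf : ∀ z ∈ Set.Icc (0 : ℝ) 1, ContDiffAt ℝ 2 f z) (h0 : f 0 = 0) :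
    ∃ C, T2 (fun u => f (Real.exp (-u))) (fun u => -(Real.exp (-u) * deriv f (Real.exp (-u)))) C := by
  obtain ⟨C₀, hT1⟩ := exists_T1 (fun z hz => (hf z hz).of_le (by norm_num)) h0
  have hd : ∀ z ∈ Set.Icc (0 : ℝ) 1, HasDerivAt f (deriv f z) z := fun z hz =>
    ((hf z hz).differentiableAt (by norm_num)).hasDerivAt
  have hd1 : ∀ z ∈ Set.Icc (0 : ℝ) 1, ContDiffAt ℝ 1 (deriv f) z := by
    intro z hz
    have h1 : ContDiffAt ℝ 1 (fderiv ℝ f) z := (hf z hz).fderiv_right (by norm_num)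
    have h2 : ContDiffAt ℝ 1 (fun y => fderiv ℝ f y 1) z := h1.clm_apply contDiffAt_const
    exact h2
  have hd2 : ∀ z ∈ Set.Icc (0 : ℝ) 1, HasDerivAt (deriv f) (deriv (deriv f) z) z := fun z hz =>
    ((hd1 z hz).differentiableAt one_ne_zero).hasDerivAt
  have hd2c : ∀ z ∈ Set.Icc (0 : ℝ) 1, ContinuousAt (deriv (deriv f)) z := by
    intro z hz
    have h1 : ContDiffAt ℝ 0 (fderiv ℝ (deriv f)) z := (hd1 z hz).fderiv_right (by norm_num)
    have h2 : ContinuousAt (fun y => fderiv ℝ (deriv f) y 1) z :=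
      (h1.continuousAt).clm_apply continuousAt_const
    exact h2
  obtain ⟨C₁, hC₁0, hC₁⟩ := bdd_Icc (fun z hz => (hd1 z hz).continuousAt)
  obtain ⟨C₂, hC₂0, hC₂⟩ := bdd_Icc hd2c
  set g : ℝ → ℝ := fun u => f (Real.exp (-u)) with hg
  set g1 : ℝ → ℝ := fun u => -(Real.exp (-u) * deriv f (Real.exp (-u))) with hg1
  set g2 : ℝ → ℝ := fun u => Real.exp (-u) * deriv f (Real.exp (-u)) +
    Real.exp (-u) * (Real.exp (-u) * deriv (deriv f) (Real.exp (-u))) with hg2
  have hexp : ∀ u : ℝ, HasDerivAt (fun u : ℝ => Real.exp (-u)) (-Real.exp (-u)) u := by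
    intro u
    have := (hasDerivAt_neg u).exp
    simpa using this
  have hgd : ∀ u, 0 ≤ u → HasDerivAt g (g1 u) u := by
    intro u hu
    have h1 := (hd _ (exp_neg_mem hu)).comp u (hexp u)
    have h2 : g1 u = deriv f (Real.exp (-u)) * -Real.exp (-u) := by
      simp only [hg1]; ring
    rw [h2]
    exact h1
  have hg1d : ∀ u, 0 ≤ u → HasDerivAt g1 (g2 u) u := by
    intro u hu
    have h1 := (hd2 _ (exp_neg_mem hu)).comp u (hexp u)
    have h2 := ((hexp u).mul h1).neg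
    have h3 : g2 u = -(-Real.exp (-u) * (deriv f ∘ fun u => Real.exp (-u)) u +
        Real.exp (-u) * (deriv (deriv f) (Real.exp (-u)) * -Real.exp (-u))) := by
      simp only [hg2, Function.comp]; ring
    rw [h3]
    exact h2
  have hg2b : ∀ u, 0 ≤ u → |g2 u| ≤ (C₁ + C₂) * Real.exp (-u) := by
    intro u hu
    simp only [hg2]
    have h1 := hC₁ _ (exp_neg_mem hu)
    have h2 := hC₂ _ (exp_neg_mem hu)
    have h3 := Real.exp_nonneg (-u)
    have h4 : Real.exp (-u) ≤ 1 := (exp_neg_mem hu).2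
    calc |Real.exp (-u) * deriv f (Real.exp (-u)) +
        Real.exp (-u) * (Real.exp (-u) * deriv (deriv f) (Real.exp (-u)))|
        ≤ |Real.exp (-u) * deriv f (Real.exp (-u))| +
          |Real.exp (-u) * (Real.exp (-u) * deriv (deriv f) (Real.exp (-u)))| := abs_add_le _ _
      _ = Real.exp (-u) * |deriv f (Real.exp (-u))| +
          Real.exp (-u) * (Real.exp (-u) * |deriv (deriv f) (Real.exp (-u))|) := by
          rw [abs_mul, abs_mul, abs_mul, abs_of_nonneg h3]
      _ ≤ Real.exp (-u) * C₁ + Real.exp (-u) * (1 * C₂) := by gcongr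
      _ = _ := by ring
  refine ⟨C₀ + C₁ + C₂, by have := hT1.nonneg; positivity, hT1.cont, ?_, ?_, ?_⟩
  · intro u hu
    refine (hT1.b0 u hu).trans ?_
    have := Real.exp_nonneg (-u)
    gcongr
    linarith
  · intro u hu
    simp only [hg1]
    rw [abs_neg, abs_mul, abs_of_nonneg (Real.exp_nonneg _), mul_comm]
    apply mul_le_mul_of_nonneg_right _ (Real.exp_nonneg _)
    have := hT1.nonneg
    linarith [hC₁ _ (exp_neg_mem hu)]
  · intro u hu h hh
    -- first the bound for the increment of g1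
    have hinc : ∀ s ∈ Set.Icc (0 : ℝ) h, |g1 (u + s) - g1 u| ≤ (C₁ + C₂) * Real.exp (-u) * h := by
      intro s hs
      have h1 := (convex_Icc u (u + h)).norm_image_sub_le_of_norm_hasDerivWithin_le
        (f := g1) (f' := g2) (C := (C₁ + C₂) * Real.exp (-u))
        (fun x hx => (hg1d x (hu.trans hx.1)).hasDerivWithinAt)
        (fun x hx => by
          refine (hg2b x (hu.trans hx.1)).trans ?_
          have : Real.exp (-x) ≤ Real.exp (-u) := Real.exp_le_exp.mpr (by linarith [hx.1])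
          gcongr)
        (x := u) (y := u + s) ⟨le_refl _, by linarith⟩ ⟨by linarith [hs.1], by linarith [hs.2]⟩
      rw [Real.norm_eq_abs, Real.norm_eq_abs, add_sub_cancel_left, abs_of_nonneg hs.1] at h1
      refine h1.trans ?_
      have := Real.exp_nonneg (-u)
      gcongr
      exact hs.2
    have h2 := (convex_Icc (0 : ℝ) h).norm_image_sub_le_of_norm_hasDerivWithin_le
        (f := fun s => g (u + s) - g u - s * g1 u) (f' := fun s => g1 (u + s) - g1 u)
        (C := (C₁ + C₂) * Real.exp (-u) * h)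
        (fun s hs => by
          have h3 : HasDerivAt (fun s => g (u + s)) (g1 (u + s)) s := by
            have := (hgd (u + s) (add_nonneg hu hs.1)).comp_const_add u s
            exact this
          have h4 : HasDerivAt (fun s => s * g1 u) (g1 u) s := by
            simpa using (hasDerivAt_id s).mul_const (g1 u)
          exact ((h3.sub_const (g u)).sub h4).hasDerivWithinAt)
        (fun s hs => hinc s hs) (x := 0) (y := h) ⟨le_refl _, hh⟩ ⟨hh, le_refl _⟩
    simp only [add_zero, sub_self, zero_mul, sub_zero, Real.norm_eq_abs] at h2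
    refine h2.trans ?_
    rw [abs_of_nonneg hh]
    have h5 := Real.exp_nonneg (-u)
    have h6 := hT1.nonneg
    calc (C₁ + C₂) * Real.exp (-u) * h * h = (C₁ + C₂) * h ^ 2 * Real.exp (-u) := by ring
      _ ≤ (C₀ + C₁ + C₂) * h ^ 2 * Real.exp (-u) := by gcongr; linarith

end Pool.Agent.W_MP_af6696_nt
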