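import Mathlib
import Pool.Agent.W_MP_af6696_nt.Taylor

set_option autoImplicit false

namespace Pool.Agent.W_MP_af6696_nt

open Filter Topology MeasureTheory Finset

theorem decay_integrable {g : ℝ → ℝ} {C : ℝ} (hc : ContinuousOn g (Set.Ici 0))
    (hb : ∀ u, 0 ≤ u → |g u| ≤ C * Real.exp (-u)) : IntegrableOn g (Set.Ioi 0) := by
  refine Integrable.mono' ((integrableOn_exp_neg_Ioi 0).const_mul C) ?_ ?_
  · exact (hc.mono Set.Ioi_subset_Ici_self).aestronglyMeasurable measurableSet_Ioi
  · filter_upwards [ae_restrict_mem measurableSet_Ioi] with u hu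
    exact hb u (le_of_lt hu)

theorem decay_intervalIntegrable {g : ℝ → ℝ} (hc : ContinuousOn g (Set.Ici 0)) {a b : ℝ}
    (ha : 0 ≤ a) (hb : 0 ≤ b) : IntervalIntegrable g volume a b := by
  apply ContinuousOn.intervalIntegrable
  apply hc.mono
  intro x hx
  rcases Set.mem_uIcc.mp hx with h | h
  · exact ha.trans h.1
  · exact hb.trans h.1

theorem sum_exp_le {a h : ℝ} (ha : 0 ≤ a) (hh : 0 < h) (h1 : h ≤ 1) (N : ℕ) :
    ∑ m ∈ range N, Real.exp (-(a + m * h)) ≤ 2 / h := by
  have h2 : ∀ m : ℕ, Real.exp (-(a + m * h)) ≤ Real.exp (-h) ^ m := by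
    intro m
    rw [← Real.exp_nat_mul]
    apply Real.exp_le_exp.mpr
    nlinarith
  have hr : Real.exp (-h) < 1 := by
    rw [Real.exp_lt_one_iff]; linarith
  have hr0 : 0 < Real.exp (-h) := Real.exp_pos _
  have h3 : Real.exp (-h) ≤ 1 - h / 2 := by
    have h4 : Real.exp (-h) ≤ 1 / (1 + h) := by
      rw [Real.exp_neg, inv_eq_one_div]
      apply one_div_le_one_div_of_le (by linarith)
      have := Real.add_one_le_exp h
      linarith
    refine h4.trans ?_
    rw [div_le_iff₀ (by linarith)]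
    nlinarith
  calc ∑ m ∈ range N, Real.exp (-(a + m * h)) ≤ ∑ m ∈ range N, Real.exp (-h) ^ m :=
        Finset.sum_le_sum fun m _ => h2 m
    _ ≤ ∑' m : ℕ, Real.exp (-h) ^ m :=
        (summable_geometric_of_lt_one hr0.le hr).sum_le_tsum _ (fun _ _ => by positivity)
    _ = (1 - Real.exp (-h))⁻¹ := tsum_geometric_of_lt_one hr0.le hr
    _ ≤ 2 / h := by
        rw [inv_eq_one_div, div_le_div_iff₀ (by linarith) hh]
        linarith

theorem decay_summable {g : ℝ → ℝ} {C : ℝ} (hb : ∀ u, 0 ≤ u → |g u| ≤ C * Real.exp (-u))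
    {a h : ℝ} (ha : 0 ≤ a) (hh : 0 < h) : Summable fun m : ℕ => g (a + m * h) := by
  have hC : 0 ≤ C := by
    have := (abs_nonneg _).trans (hb 0 le_rfl)
    simpa using this
  have hr : Real.exp (-h) < 1 := by
    rw [Real.exp_lt_one_iff]; linarith
  have hs := (summable_geometric_of_lt_one (Real.exp_pos (-h)).le hr).mul_left C
  refine Summable.of_norm_bounded hs (fun m => ?_)
  refine (hb _ (by positivity)).trans ?_
  apply mul_le_mul_of_nonneg_left _ hC
  rw [← Real.exp_nat_mul]
  apply Real.exp_le_exp.mpr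
  nlinarith

/-- one cell, second order -/
theorem T2.cell {g g1 : ℝ → ℝ} {C : ℝ} (hg : T2 g g1 C) {x h : ℝ} (hx : 0 ≤ x) (hh : 0 ≤ h) :
    |h * g x - (∫ s in x..(x + h), g s) + h / 2 * (g (x + h) - g x)| ≤
      2 * C * h ^ 3 * Real.exp (-x) := by
  have hint : IntervalIntegrable g volume x (x + h) :=
    decay_intervalIntegrable hg.cont hx (by linarith)
  have hint2 : IntervalIntegrable (fun s : ℝ => g x + (s - x) * g1 x) volume x (x + h) :=
    (by fun_prop : Continuous fun s : ℝ => g x + (s - x) * g1 x).intervalIntegrable _ _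
  have h1 : ∫ s in x..(x + h), (g s - (g x + (s - x) * g1 x)) =
      (∫ s in x..(x + h), g s) - (h * g x + h ^ 2 / 2 * g1 x) := by
    rw [intervalIntegral.integral_sub hint hint2]
    congr 1
    have h2 : ∫ s in x..(x + h), (g x + (s - x) * g1 x) =
        (∫ _s in x..(x + h), g x) + ∫ s in x..(x + h), (s - x) * g1 x :=
      intervalIntegral.integral_add (by exact intervalIntegrable_const)
        ((by fun_prop : Continuous fun s : ℝ => (s - x) * g1 x).intervalIntegrable _ _)
    rw [h2, intervalIntegral.integral_const, intervalIntegral.integral_mul_const,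
      intervalIntegral.integral_comp_sub_right (fun s => s) x, integral_id]
    simp only [smul_eq_mul]
    ring
  have h2 : ‖∫ s in x..(x + h), (g s - (g x + (s - x) * g1 x))‖ ≤
      (C * h ^ 2 * Real.exp (-x)) * |x + h - x| := by
    apply intervalIntegral.norm_integral_le_of_norm_le_const
    intro s hs
    rw [Set.uIoc_of_le (by linarith)] at hs
    have h3 := hg.tay x hx (s - x) (by linarith [hs.1])
    have h4 : x + (s - x) = s := by ring
    rw [h4] at h3
    have h5 : g s - (g x + (s - x) * g1 x) = g s - g x - (s - x) * g1 x := by ring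
    rw [Real.norm_eq_abs, h5]
    refine h3.trans ?_
    have := hg.nonneg
    have h6 : s - x ≤ h := by linarith [hs.2]
    have h7 : 0 ≤ s - x := by linarith [hs.1]
    gcongr
  rw [h1, Real.norm_eq_abs, add_sub_cancel_left, abs_of_nonneg hh] at h2
  have h3 := hg.tay x hx h hh
  have h4 : h * g x - (∫ s in x..(x + h), g s) + h / 2 * (g (x + h) - g x) =
      -((∫ s in x..(x + h), g s) - (h * g x + h ^ 2 / 2 * g1 x)) +
        h / 2 * (g (x + h) - g x - h * g1 x) := by ring
  rw [h4]
  refine (abs_add_le _ _).trans ?_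
  rw [abs_neg, abs_mul, abs_of_nonneg (by linarith : 0 ≤ h / 2)]
  have h5 : h / 2 * |g (x + h) - g x - h * g1 x| ≤ h / 2 * (C * h ^ 2 * Real.exp (-x)) := by
    gcongr
  have h6 : 0 ≤ C * h ^ 3 * Real.exp (-x) := by
    have := hg.nonneg
    have := Real.exp_nonneg (-x)
    positivity
  nlinarith

/-- one cell, first order -/
theorem T1.cell {q : ℝ → ℝ} {C : ℝ} (hq : T1 q C) {x h : ℝ} (hx : 0 ≤ x) (hh : 0 ≤ h) :
    |h * q x - ∫ s in x..(x + h), q s| ≤ C * h ^ 2 * Real.exp (-x) := by
  have hint : IntervalIntegrable q volume x (x + h) :=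
    decay_intervalIntegrable hq.cont hx (by linarith)
  have h1 : ∫ s in x..(x + h), (q s - q x) = (∫ s in x..(x + h), q s) - h * q x := by
    rw [intervalIntegral.integral_sub hint (by exact intervalIntegrable_const),
      intervalIntegral.integral_const]
    simp only [smul_eq_mul]
    ring
  have h2 : ‖∫ s in x..(x + h), (q s - q x)‖ ≤ (C * h * Real.exp (-x)) * |x + h - x| := by
    apply intervalIntegral.norm_integral_le_of_norm_le_const
    intro s hs
    rw [Set.uIoc_of_le (by linarith)] at hs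
    have h3 := hq.lip x hx (s - x) (by linarith [hs.1])
    have h4 : x + (s - x) = s := by ring
    rw [h4] at h3
    rw [Real.norm_eq_abs]
    refine h3.trans ?_
    have := hq.nonneg
    have h6 : s - x ≤ h := by linarith [hs.2]
    gcongr
  rw [h1, Real.norm_eq_abs, add_sub_cancel_left, abs_of_nonneg hh, abs_sub_comm] at h2
  refine h2.trans (le_of_eq ?_)
  ring

theorem sum_cells (g : ℝ → ℝ) (hc : ContinuousOn g (Set.Ici 0)) {a h : ℝ} (ha : 0 ≤ a)
    (hh : 0 ≤ h) (N : ℕ) :
    ∑ m ∈ range N, ∫ s in (a + m * h)..(a + m * h + h), g s = ∫ s in a..(a + N * h), g s := by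
  have h1 := intervalIntegral.sum_integral_adjacent_intervals (f := g) (μ := volume)
    (a := fun m : ℕ => a + m * h) (n := N)
    (fun k _ => decay_intervalIntegrable hc (by positivity) (by positivity))
  simp only [Nat.cast_zero, zero_mul, add_zero] at h1
  rw [← h1]
  refine Finset.sum_congr rfl fun m _ => ?_
  congr 1
  push_cast
  ring

theorem T2.sum_bound {g g1 : ℝ → ℝ} {C : ℝ} (hg : T2 g g1 C) {a h : ℝ} (ha : 0 ≤ a) (hh : 0 < h)
    (h1 : h ≤ 1) :
    |h * (∑' m : ℕ, g (a + m * h)) - (∫ s in Set.Ioi a, g s) - h / 2 * g a| ≤ 4 * C * h ^ 2 := by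
  have hC := hg.nonneg
  -- finite version
  have hfin : ∀ N : ℕ, |h * (∑ m ∈ range N, g (a + m * h)) - (∫ s in a..(a + N * h), g s) +
      h / 2 * (g (a + N * h) - g a)| ≤ 4 * C * h ^ 2 := by
    intro N
    have h2 : h * (∑ m ∈ range N, g (a + m * h)) - (∫ s in a..(a + N * h), g s) +
        h / 2 * (g (a + N * h) - g a) =
        ∑ m ∈ range N, (h * g (a + m * h) - (∫ s in (a + m * h)..(a + m * h + h), g s) +
          h / 2 * (g (a + m * h + h) - g (a + m * h))) := by
      rw [Finset.sum_add_distrib, Finset.sum_sub_distrib, sum_cells g hg.cont ha hh.le,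
        ← Finset.mul_sum, ← Finset.mul_sum]
      congr 2
      have h3 := Finset.sum_range_sub (fun m : ℕ => g (a + m * h)) N
      simp only [Nat.cast_zero, zero_mul, add_zero] at h3
      rw [← h3]
      refine Finset.sum_congr rfl fun m _ => ?_
      congr 2
      push_cast
      ring
    rw [h2]
    calc |∑ m ∈ range N, (h * g (a + m * h) - (∫ s in (a + m * h)..(a + m * h + h), g s) +
          h / 2 * (g (a + m * h + h) - g (a + m * h)))|
        ≤ ∑ m ∈ range N, |h * g (a + m * h) - (∫ s in (a + m * h)..(a + m * h + h), g s) +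
          h / 2 * (g (a + m * h + h) - g (a + m * h))| := Finset.abs_sum_le_sum_abs _ _
      _ ≤ ∑ m ∈ range N, 2 * C * h ^ 3 * Real.exp (-(a + m * h)) :=
          Finset.sum_le_sum fun m _ => hg.cell (by positivity) hh.le
      _ = 2 * C * h ^ 3 * ∑ m ∈ range N, Real.exp (-(a + m * h)) := by rw [Finset.mul_sum]
      _ ≤ 2 * C * h ^ 3 * (2 / h) := by
          gcongr
          exact sum_exp_le ha hh h1 N
      _ = 4 * C * h ^ 2 := by field_simp; ring
  -- limit
  have hs : Tendsto (fun N : ℕ => ∑ m ∈ range N, g (a + m * h)) atTop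
      (𝓝 (∑' m : ℕ, g (a + m * h))) := (decay_summable hg.b0 ha hh).hasSum.tendsto_sum_nat
  have hNh : Tendsto (fun N : ℕ => a + N * h) atTop atTop :=
    tendsto_atTop_add_const_left _ _ (tendsto_natCast_atTop_atTop.atTop_mul_const hh)
  have hI : Tendsto (fun N : ℕ => ∫ s in a..(a + N * h), g s) atTop
      (𝓝 (∫ s in Set.Ioi a, g s)) :=
    intervalIntegral_tendsto_integral_Ioi a
      ((decay_integrable hg.cont hg.b0).mono_set (Set.Ioi_subset_Ioi ha)) hNh
  have hg0 : Tendsto (fun N : ℕ => g (a + N * h)) atTop (𝓝 0) := by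
    have h2 := (decay_summable hg.b0 ha hh).tendsto_atTop_zero
    exact h2
  have hlim := ((hs.const_mul h).sub hI).add ((hg0.sub_const (g a)).const_mul (h / 2))
  have hlim2 := hlim.abs
  have h3 := le_of_tendsto hlim2 (Eventually.of_forall hfin)
  have h4 : h * (∑' m : ℕ, g (a + m * h)) - (∫ s in Set.Ioi a, g s) - h / 2 * g a =
      h * (∑' m : ℕ, g (a + m * h)) - (∫ s in Set.Ioi a, g s) + h / 2 * (0 - g a) := by ring
  rw [h4]
  exact h3

theorem T1.sum_bound {q : ℝ → ℝ} {C : ℝ} (hq : T1 q C) {a h : ℝ} (ha : 0 ≤ a) (hh : 0 < h)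
    (h1 : h ≤ 1) :
    |h * (∑' m : ℕ, q (a + m * h)) - (∫ s in Set.Ioi a, q s)| ≤ 2 * C * h := by
  have hC := hq.nonneg
  have hfin : ∀ N : ℕ, |h * (∑ m ∈ range N, q (a + m * h)) - (∫ s in a..(a + N * h), q s)| ≤
      2 * C * h := by
    intro N
    have h2 : h * (∑ m ∈ range N, q (a + m * h)) - (∫ s in a..(a + N * h), q s) =
        ∑ m ∈ range N, (h * q (a + m * h) - (∫ s in (a + m * h)..(a + m * h + h), q s)) := by
      rw [Finset.sum_sub_distrib, sum_cells q hq.cont ha hh.le, ← Finset.mul_sum]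
    rw [h2]
    calc |∑ m ∈ range N, (h * q (a + m * h) - (∫ s in (a + m * h)..(a + m * h + h), q s))|
        ≤ ∑ m ∈ range N, |h * q (a + m * h) - (∫ s in (a + m * h)..(a + m * h + h), q s)| :=
          Finset.abs_sum_le_sum_abs _ _
      _ ≤ ∑ m ∈ range N, C * h ^ 2 * Real.exp (-(a + m * h)) :=
          Finset.sum_le_sum fun m _ => hq.cell (by positivity) hh.le
      _ = C * h ^ 2 * ∑ m ∈ range N, Real.exp (-(a + m * h)) := by rw [Finset.mul_sum]
      _ ≤ C * h ^ 2 * (2 / h) := by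
          gcongr
          exact sum_exp_le ha hh h1 N
      _ = 2 * C * h := by field_simp
  have hs : Tendsto (fun N : ℕ => ∑ m ∈ range N, q (a + m * h)) atTop
      (𝓝 (∑' m : ℕ, q (a + m * h))) := (decay_summable hq.b0 ha hh).hasSum.tendsto_sum_nat
  have hNh : Tendsto (fun N : ℕ => a + N * h) atTop atTop :=
    tendsto_atTop_add_const_left _ _ (tendsto_natCast_atTop_atTop.atTop_mul_const hh)
  have hI : Tendsto (fun N : ℕ => ∫ s in a..(a + N * h), q s) atTop
      (𝓝 (∫ s in Set.Ioi a, q s)) :=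
    intervalIntegral_tendsto_integral_Ioi a
      ((decay_integrable hq.cont hq.b0).mono_set (Set.Ioi_subset_Ioi ha)) hNh
  exact le_of_tendsto ((hs.const_mul h).sub hI).abs (Eventually.of_forall hfin)

theorem integral_Ioi_split {g : ℝ → ℝ} {C : ℝ} (hc : ContinuousOn g (Set.Ici 0))
    (hb : ∀ u, 0 ≤ u → |g u| ≤ C * Real.exp (-u)) {a : ℝ} (ha : 0 ≤ a) :
    ∫ s in Set.Ioi a, g s = (∫ s in Set.Ioi 0, g s) - ∫ s in (0 : ℝ)..a, g s := by
  have hi := decay_integrable hc hb
  have h1 := intervalIntegral.integral_Ioi_sub_Ioi (a := 0) (b := a) hi ha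
  linarith

/-- Riemann sums, second order: the constant term. -/
theorem T2.tendsto {g g1 : ℝ → ℝ} {C : ℝ} (hg : T2 g g1 C) {M : ℕ} (hM : 0 < M) (k : ℕ) :
    Tendsto (fun t : ℝ => (∑' m : ℕ, g (t * k + m * (t * M))) -
      ((∫ s in Set.Ioi 0, g s) / M) / t) (𝓝[>] 0) (𝓝 (g 0 / 2 - k / M * g 0)) := by
  have hMR : (0 : ℝ) < M := by exact_mod_cast hM
  have hC := hg.nonneg
  have hkR : (0 : ℝ) ≤ k := Nat.cast_nonneg k
  -- bound near zero
  have hnear : ∀ s : ℝ, 0 ≤ s → |g s - g 0| ≤ C * s + C * s ^ 2 := by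
    intro s hs
    have h1 := hg.tay 0 le_rfl s hs
    have h2 := hg.b1 0 le_rfl
    simp only [zero_add, neg_zero, Real.exp_zero, mul_one] at h1 h2
    have h3 : g s - g 0 = (g s - g 0 - s * g1 0) + s * g1 0 := by ring
    rw [h3]
    refine (abs_add_le _ _).trans ?_
    rw [abs_mul, abs_of_nonneg hs]
    nlinarith [mul_le_mul_of_nonneg_left h2 hs]
  -- the explicit error bound
  have hmain : ∀ t : ℝ, 0 < t → t * M ≤ 1 →
      |(∑' m : ℕ, g (t * k + m * (t * M))) - ((∫ s in Set.Ioi 0, g s) / M) / t -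
        (g 0 / 2 - k / M * g 0)| ≤
        4 * C * (t * M) + (C * (t * k) + C * (t * k) ^ 2) * (k / M) +
          (C * (t * k) + C * (t * k) ^ 2) / 2 := by
    intro t ht ht1
    have htM : 0 < t * M := by positivity
    have htk : 0 ≤ t * k := by positivity
    have h1 := hg.sum_bound (a := t * k) (h := t * M) htk htM ht1
    rw [integral_Ioi_split hg.cont hg.b0 htk] at h1
    have h2 : |(∫ s in (0 : ℝ)..(t * k), g s) - t * k * g 0| ≤
        (C * (t * k) + C * (t * k) ^ 2) * (t * k) := by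
      have h3 : (∫ s in (0 : ℝ)..(t * k), g s) - t * k * g 0 =
          ∫ s in (0 : ℝ)..(t * k), (g s - g 0) := by
        rw [intervalIntegral.integral_sub (decay_intervalIntegrable hg.cont le_rfl htk)
          (by exact intervalIntegrable_const), intervalIntegral.integral_const]
        simp only [smul_eq_mul, sub_zero]
      rw [h3]
      have h4 : ‖∫ s in (0 : ℝ)..(t * k), (g s - g 0)‖ ≤
          (C * (t * k) + C * (t * k) ^ 2) * |t * k - 0| := by
        apply intervalIntegral.norm_integral_le_of_norm_le_const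
        intro s hs
        rw [Set.uIoc_of_le htk] at hs
        have hs0 : 0 ≤ s := hs.1.le
        refine (hnear s hs0).trans ?_
        have := hs.2
        gcongr
      rw [sub_zero, abs_of_nonneg htk] at h4
      exact h4
    have h3 := hnear (t * k) htk
    set S := ∑' m : ℕ, g (t * k + m * (t * M)) with hS
    set I := ∫ s in Set.Ioi 0, g s with hI
    set I0 := ∫ s in (0 : ℝ)..(t * k), g s with hI0
    have h5 : S - (I / M) / t - (g 0 / 2 - k / M * g 0) =
        (t * M * S - (I - I0) - t * M / 2 * g (t * k)) / (t * M) -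
          (I0 - t * k * g 0) / (t * M) + (g (t * k) - g 0) / 2 := by
      field_simp
      ring
    rw [h5]
    have h6 : |(t * M * S - (I - I0) - t * M / 2 * g (t * k)) / (t * M)| ≤ 4 * C * (t * M) := by
      rw [abs_div, abs_of_pos htM, div_le_iff₀ htM]
      refine h1.trans (le_of_eq ?_)
      ring
    have h7 : |(I0 - t * k * g 0) / (t * M)| ≤
        (C * (t * k) + C * (t * k) ^ 2) * (k / M) := by
      rw [abs_div, abs_of_pos htM, div_le_iff₀ htM]
      refine h2.trans (le_of_eq ?_)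
      field_simp
    have h8 : |(g (t * k) - g 0) / 2| ≤ (C * (t * k) + C * (t * k) ^ 2) / 2 := by
      rw [abs_div, abs_of_pos (by norm_num : (0 : ℝ) < 2)]
      gcongr
    calc _ ≤ |(t * M * S - (I - I0) - t * M / 2 * g (t * k)) / (t * M) -
          (I0 - t * k * g 0) / (t * M)| + |(g (t * k) - g 0) / 2| := abs_add_le _ _
      _ ≤ |(t * M * S - (I - I0) - t * M / 2 * g (t * k)) / (t * M)| +
          |(I0 - t * k * g 0) / (t * M)| + |(g (t * k) - g 0) / 2| := by
          gcongr
          exact abs_sub _ _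
      _ ≤ _ := by linarith
  -- conclusion
  rw [tendsto_iff_norm_sub_tendsto_zero]
  have hb : Tendsto (fun t : ℝ => 4 * C * (t * M) + (C * (t * k) + C * (t * k) ^ 2) * (k / M) +
          (C * (t * k) + C * (t * k) ^ 2) / 2) (𝓝[>] 0) (𝓝 0) := by
    have h1 : Continuous (fun t : ℝ => 4 * C * (t * M) + (C * (t * k) + C * (t * k) ^ 2) * (k / M) +
          (C * (t * k) + C * (t * k) ^ 2) / 2) := by fun_prop
    have h2 := h1.tendsto 0
    simp only [zero_mul, mul_zero, add_zero, ne_eq, OfNat.ofNat_ne_zero, not_false_eq_true,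
      zero_pow, zero_div] at h2
    exact h2.mono_left nhdsWithin_le_nhds
  refine squeeze_zero' (Eventually.of_forall fun _ => norm_nonneg _) ?_ hb
  have h1 : ∀ᶠ t : ℝ in 𝓝[>] 0, t < 1 / M :=
    nhdsWithin_le_nhds (gt_mem_nhds (by positivity))
  filter_upwards [self_mem_nhdsWithin, h1] with t ht ht1
  have ht' : 0 < t := ht
  refine hmain t ht' ?_
  rw [lt_div_iff₀ hMR] at ht1
  exact ht1.le

/-- Riemann sums, first order. -/
theorem T1.tendsto {q : ℝ → ℝ} {C : ℝ} (hq : T1 q C) {M : ℕ} (hM : 0 < M) (k : ℕ) :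
    Tendsto (fun t : ℝ => t * (∑' m : ℕ, q (t * k + m * (t * M)))) (𝓝[>] 0)
      (𝓝 ((∫ s in Set.Ioi 0, q s) / M)) := by
  have hMR : (0 : ℝ) < M := by exact_mod_cast hM
  have hC := hq.nonneg
  have hkR : (0 : ℝ) ≤ k := Nat.cast_nonneg k
  have hmain : ∀ t : ℝ, 0 < t → t * M ≤ 1 →
      |t * (∑' m : ℕ, q (t * k + m * (t * M))) - (∫ s in Set.Ioi 0, q s) / M| ≤
        (2 * C * (t * M) + C * (t * k)) / M := by
    intro t ht ht1
    have htM : 0 < t * M := by positivity
    have htk : 0 ≤ t * k := by positivity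
    have h1 := hq.sum_bound (a := t * k) (h := t * M) htk htM ht1
    rw [integral_Ioi_split hq.cont hq.b0 htk] at h1
    have h2 : |∫ s in (0 : ℝ)..(t * k), q s| ≤ C * (t * k) := by
      have h4 : ‖∫ s in (0 : ℝ)..(t * k), q s‖ ≤ C * |t * k - 0| := by
        apply intervalIntegral.norm_integral_le_of_norm_le_const
        intro s hs
        rw [Set.uIoc_of_le htk] at hs
        refine (hq.b0 s hs.1.le).trans ?_
        have h5 : Real.exp (-s) ≤ 1 := Real.exp_le_one_iff.mpr (by linarith [hs.1])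
        nlinarith
      rw [sub_zero, abs_of_nonneg htk] at h4
      exact h4
    set S := ∑' m : ℕ, q (t * k + m * (t * M)) with hS
    set I := ∫ s in Set.Ioi 0, q s with hI
    set I0 := ∫ s in (0 : ℝ)..(t * k), q s with hI0
    have h5 : t * S - I / M = ((t * M * S - (I - I0)) - I0) / M := by
      field_simp
      ring
    rw [h5, abs_div, abs_of_pos hMR]
    gcongr
    calc |t * M * S - (I - I0) - I0| ≤ |t * M * S - (I - I0)| + |I0| := abs_sub _ _
      _ ≤ _ := by linarith
  rw [tendsto_iff_norm_sub_tendsto_zero]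
  have hb : Tendsto (fun t : ℝ => (2 * C * (t * M) + C * (t * k)) / M) (𝓝[>] 0) (𝓝 0) := by
    have h1 : Continuous (fun t : ℝ => (2 * C * (t * M) + C * (t * k)) / M) := by fun_prop
    have h2 := h1.tendsto 0
    simp only [zero_mul, mul_zero, add_zero, zero_div] at h2
    exact h2.mono_left nhdsWithin_le_nhds
  refine squeeze_zero' (Eventually.of_forall fun _ => norm_nonneg _) ?_ hb
  have h1 : ∀ᶠ t : ℝ in 𝓝[>] 0, t < 1 / M :=
    nhdsWithin_le_nhds (gt_mem_nhds (by positivity))
  filter_upwards [self_mem_nhdsWithin, h1] with t ht ht1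
  have ht' : 0 < t := ht
  refine hmain t ht' ?_
  rw [lt_div_iff₀ hMR] at ht1
  exact ht1.le

/-- Sums over all residue classes: the combined expansion. -/
theorem sum_expansion {M : ℕ} [NeZero M] {g g1 q : ZMod M → ℝ → ℝ} {C : ℝ}
    (hg : ∀ j, T2 (g j) (g1 j) C) (hq : ∀ j, T1 (q j) C) (k : ℕ) :
    ∃ B : ℝ, Tendsto (fun t : ℝ => (∑' i : ℕ, (g ((k + i : ℕ) : ZMod M) (t * (k + i : ℕ)) +
      t * q ((k + i : ℕ) : ZMod M) (t * (k + i : ℕ)))) -
        ((∑ j : ZMod M, ∫ s in Set.Ioi 0, g j s) / M) / t) (𝓝[>] 0) (𝓝 B) := by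
  have hM : 0 < M := Nat.pos_of_ne_zero (NeZero.ne M)
  have hMR : (0 : ℝ) < M := by exact_mod_cast hM
  -- each residue class
  have h1 : ∀ j : ZMod M, Tendsto (fun t : ℝ =>
      ((∑' m : ℕ, g ((k : ZMod M) + j) (t * (k + j.val : ℕ) + m * (t * M))) -
        ((∫ s in Set.Ioi 0, g ((k : ZMod M) + j) s) / M) / t) +
      t * (∑' m : ℕ, q ((k : ZMod M) + j) (t * (k + j.val : ℕ) + m * (t * M)))) (𝓝[>] 0)
      (𝓝 (g ((k : ZMod M) + j) 0 / 2 - (k + j.val : ℕ) / M * g ((k : ZMod M) + j) 0 +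
        (∫ s in Set.Ioi 0, q ((k : ZMod M) + j) s) / M)) := fun j =>
    ((hg _).tendsto hM _).add ((hq _).tendsto hM _)
  have h2 := tendsto_finsetSum (Finset.univ : Finset (ZMod M)) (fun j _ => h1 j)
  refine ⟨_, h2.congr' ?_⟩
  filter_upwards [self_mem_nhdsWithin] with t ht
  have ht' : 0 < t := ht
  have htM : 0 < t * M := by positivity
  -- summability
  have hsumm : Summable fun i : ℕ => (g ((k + i : ℕ) : ZMod M) (t * (k + i : ℕ)) +
      t * q ((k + i : ℕ) : ZMod M) (t * (k + i : ℕ))) := by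
    have hb : ∀ i : ℕ, ‖g ((k + i : ℕ) : ZMod M) (t * (k + i : ℕ)) +
        t * q ((k + i : ℕ) : ZMod M) (t * (k + i : ℕ))‖ ≤
        (C + t * C) * Real.exp (-t) ^ i := by
      intro i
      have hpos : 0 ≤ t * ((k + i : ℕ) : ℝ) := by positivity
      have h3 := (hg ((k + i : ℕ) : ZMod M)).b0 _ hpos
      have h4 := (hq ((k + i : ℕ) : ZMod M)).b0 _ hpos
      have h5 : Real.exp (-(t * ((k + i : ℕ) : ℝ))) ≤ Real.exp (-t) ^ i := by
        rw [← Real.exp_nat_mul]
        apply Real.exp_le_exp.mpr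
        push_cast
        have : (0 : ℝ) ≤ k := Nat.cast_nonneg k
        nlinarith
      have hC := (hq (0 : ZMod M)).nonneg
      rw [Real.norm_eq_abs]
      refine (abs_add_le _ _).trans ?_
      rw [abs_mul, abs_of_pos ht']
      calc |g ((k + i : ℕ) : ZMod M) (t * (k + i : ℕ))| +
          t * |q ((k + i : ℕ) : ZMod M) (t * (k + i : ℕ))|
          ≤ C * Real.exp (-(t * ((k + i : ℕ) : ℝ))) +
            t * (C * Real.exp (-(t * ((k + i : ℕ) : ℝ)))) := by gcongr
        _ = (C + t * C) * Real.exp (-(t * ((k + i : ℕ) : ℝ))) := by ring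
        _ ≤ _ := by gcongr
    have hr : Real.exp (-t) < 1 := by
      rw [Real.exp_lt_one_iff]; linarith
    exact Summable.of_norm_bounded
      ((summable_geometric_of_lt_one (Real.exp_pos (-t)).le hr).mul_left _) hb
  rw [Nat.sumByResidueClasses hsumm M]
  have h3 : ∀ j : ZMod M, ∑' m : ℕ, (g ((k + (j.val + M * m) : ℕ) : ZMod M)
      (t * (k + (j.val + M * m) : ℕ)) + t * q ((k + (j.val + M * m) : ℕ) : ZMod M)
      (t * (k + (j.val + M * m) : ℕ))) =
      (∑' m : ℕ, g ((k : ZMod M) + j) (t * (k + j.val : ℕ) + m * (t * M))) +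
      t * (∑' m : ℕ, q ((k : ZMod M) + j) (t * (k + j.val : ℕ) + m * (t * M))) := by
    intro j
    rw [← tsum_mul_left, ← Summable.tsum_add]
    · refine tsum_congr fun m => ?_
      have h4 : ((k + (j.val + M * m) : ℕ) : ZMod M) = (k : ZMod M) + j := by
        push_cast
        simp
      have h5 : t * ((k + (j.val + M * m) : ℕ) : ℝ) = t * (k + j.val : ℕ) + m * (t * M) := by
        push_cast; ring
      rw [h4, h5]
    · exact decay_summable (hg _).b0 (by positivity) htM
    · exact (decay_summable (hq _).b0 (by positivity) htM).mul_left t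
  rw [Finset.sum_congr rfl (fun j _ => h3 j)]
  have h6 : ∑ j : ZMod M, ∫ s in Set.Ioi 0, g j s =
      ∑ j : ZMod M, ∫ s in Set.Ioi 0, g ((k : ZMod M) + j) s :=
    (Equiv.sum_comp (Equiv.addLeft (k : ZMod M)) (fun j => ∫ s in Set.Ioi 0, g j s)).symm
  rw [h6, Finset.sum_div, Finset.sum_div, ← Finset.sum_sub_distrib]
  refine Finset.sum_congr rfl fun j _ => ?_
  ring

end Pool.Agent.W_MP_af6696_nt
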