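import Mathlib
import Pool.Agent.W_MP_af6696_nt.Perron2
import Pool.Agent.W_MP_af6696_nt.Riemann
import Pool.Agent.W_MP_af6696_nt.Resid
import Pool.Agent.W_MP_af6696_nt.Compare

set_option autoImplicit false

namespace Pool.Agent.W_MP_af6696_nt

open Filter Topology MeasureTheory Finset

variable {M : ℕ}

/-- the first order approximation to the logarithmic increments -/
noncomputable def Xw (g q : ZMod M → ℝ → ℝ) (t : ℝ) (n : ℕ) : ℝ :=
  g (n : ZMod M) (t * n) + t * q (n : ZMod M) (t * n)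

theorem Xw_bound {g g1 q : ZMod M → ℝ → ℝ} {C : ℝ} (hg : ∀ j, T2 (g j) (g1 j) C)
    (hq : ∀ j, T1 (q j) C) {t : ℝ} (ht : 0 < t) (n : ℕ) :
    |Xw g q t n| ≤ (C + t * C) * Real.exp (-t) ^ n := by
  have hpos : 0 ≤ t * (n : ℝ) := by positivity
  have h3 := (hg (n : ZMod M)).b0 _ hpos
  have h4 := (hq (n : ZMod M)).b0 _ hpos
  have h5 : Real.exp (-(t * (n : ℝ))) = Real.exp (-t) ^ n := by
    rw [← Real.exp_nat_mul]
    congr 1
    ring
  unfold Xw
  refine (abs_add_le _ _).trans ?_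
  rw [abs_mul, abs_of_pos ht, ← h5]
  have h6 : t * |q (n : ZMod M) (t * n)| ≤ t * (C * Real.exp (-(t * (n : ℝ)))) :=
    mul_le_mul_of_nonneg_left h4 ht.le
  linarith

theorem Xw_summable {g g1 q : ZMod M → ℝ → ℝ} {C : ℝ} (hg : ∀ j, T2 (g j) (g1 j) C)
    (hq : ∀ j, T1 (q j) C) {t : ℝ} (ht : 0 < t) : Summable (Xw g q t) := by
  have hr : Real.exp (-t) < 1 := by
    rw [Real.exp_lt_one_iff]; linarith
  exact Summable.of_norm_bounded
    ((summable_geometric_of_lt_one (Real.exp_pos _).le hr).mul_left (C + t * C))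
    (fun n => Xw_bound hg hq ht n)

/-- increments of the approximation -/
theorem Xw_shift {g g1 q : ZMod M → ℝ → ℝ} {C : ℝ} (hg : ∀ j, T2 (g j) (g1 j) C)
    (hq : ∀ j, T1 (q j) C) {t : ℝ} (ht : 0 < t) (n L j : ℕ) (hj : j < L) :
    |Xw g q t (n + 1 + j) - (g ((n : ZMod M) + 1 + j) (t * n) +
      t * (q ((n : ZMod M) + 1 + j) (t * n) + (1 + j) * g1 ((n : ZMod M) + 1 + j) (t * n)))| ≤
      (C * L ^ 2 + C * L) * t ^ 2 := by
  have hC := (hg 0).nonneg
  have hpos : 0 ≤ t * (n : ℝ) := by positivity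
  have hh : 0 ≤ t * (1 + (j : ℝ)) := by positivity
  have hcast : ((n + 1 + j : ℕ) : ZMod M) = (n : ZMod M) + 1 + j := by push_cast; ring
  have hcast2 : t * ((n + 1 + j : ℕ) : ℝ) = t * n + t * (1 + (j : ℝ)) := by push_cast; ring
  have hjL : (1 : ℝ) + j ≤ L := by
    have : j + 1 ≤ L := hj
    have h : ((j + 1 : ℕ) : ℝ) ≤ L := by exact_mod_cast this
    push_cast at h
    linarith
  have hL0 : (0 : ℝ) ≤ L := by positivity
  have hj0 : (0 : ℝ) ≤ 1 + j := by positivity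
  unfold Xw
  rw [hcast, hcast2]
  set m := (n : ZMod M) + 1 + j
  have h1 := (hg m).tay _ hpos _ hh
  have h2 := (hq m).lip _ hpos _ hh
  have he : Real.exp (-(t * (n : ℝ))) ≤ 1 := Real.exp_le_one_iff.mpr (by linarith)
  have he0 := Real.exp_nonneg (-(t * (n : ℝ)))
  have h3 : g m (t * n + t * (1 + (j : ℝ))) + t * q m (t * n + t * (1 + (j : ℝ))) -
      (g m (t * n) + t * (q m (t * n) + (1 + j) * g1 m (t * n))) =
      (g m (t * n + t * (1 + (j : ℝ))) - g m (t * n) - t * (1 + j) * g1 m (t * n)) +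
        t * (q m (t * n + t * (1 + (j : ℝ))) - q m (t * n)) := by ring
  rw [h3]
  refine (abs_add_le _ _).trans ?_
  rw [abs_mul t, abs_of_pos ht]
  have h4 : |g m (t * n + t * (1 + (j : ℝ))) - g m (t * n) - t * (1 + j) * g1 m (t * n)| ≤
      C * L ^ 2 * t ^ 2 := by
    refine h1.trans ?_
    calc C * (t * (1 + (j : ℝ))) ^ 2 * Real.exp (-(t * (n : ℝ)))
        ≤ C * (t * (L : ℝ)) ^ 2 * 1 := by gcongr
      _ = _ := by ring
  have h5 : t * |q m (t * n + t * (1 + (j : ℝ))) - q m (t * n)| ≤ C * L * t ^ 2 := by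
    calc t * |q m (t * n + t * (1 + (j : ℝ))) - q m (t * n)|
        ≤ t * (C * (t * (1 + (j : ℝ))) * Real.exp (-(t * (n : ℝ)))) :=
          mul_le_mul_of_nonneg_left h2 ht.le
      _ ≤ t * (C * (t * (L : ℝ)) * 1) := by gcongr
      _ = _ := by ring
  linarith

/-- The residual of the approximation in the recursion. -/
theorem Xw_resid [NeZero M] {L : ℕ} {c : ZMod M → ℕ → ℝ} (hc : ∀ k i, 0 ≤ c k i) {σ : ℝ}
    (hσ : 0 ≤ σ) {g g1 q : ZMod M → ℝ → ℝ} {C : ℝ} (hg : ∀ j, T2 (g j) (g1 j) C)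
    (hq : ∀ j, T1 (q j) C) (hg0 : ∀ j u, 0 ≤ u → 0 ≤ g j u)
    (hφ : ∀ (k : ZMod M) (u : ℝ), 0 ≤ u → Real.log (1 + Real.exp (-u) *
      ∑ i ∈ range L, c k i * Real.exp (-(∑ j ∈ range i, g (k + 1 + j) u))) = g k u)
    (hψ : ∀ (k : ZMod M) (u : ℝ), 0 ≤ u →
      -∑ i ∈ range L, Real.exp (-u) * c k i * Real.exp (-(∑ j ∈ range i, g (k + 1 + j) u)) /
        (1 + Real.exp (-u) * ∑ i ∈ range L, c k i *
          Real.exp (-(∑ j ∈ range i, g (k + 1 + j) u))) *
        (σ * (i + 1) + ∑ j ∈ range i, (q (k + 1 + j) u + (1 + j) * g1 (k + 1 + j) u)) = q k u) :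
    ∃ C' > 0, ∃ t₁ > 0, t₁ ≤ 1 ∧ ∀ t : ℝ, 0 < t → t ≤ t₁ → ∀ n : ℕ,
      |Xw g q t n -
        Real.log (1 + ∑ i ∈ range L, c n i * Real.exp (-t * (n + σ * (i + 1))) *
          Real.exp (-∑ j ∈ range i, Xw g q t (n + 1 + j)))| ≤
      C' * t ^ 2 * Real.exp (-t) ^ n := by
  have hC := (hg 0).nonneg
  obtain ⟨S, hS⟩ : ∃ S, S = ∑ k : ZMod M, ∑ i ∈ range L, c k i := ⟨_, rfl⟩
  have hS0 : 0 ≤ S := by
    rw [hS]; exact Finset.sum_nonneg fun k _ => Finset.sum_nonneg fun i _ => hc k i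
  have hSk : ∀ k, ∑ i ∈ range L, c k i ≤ S := fun k => by
    rw [hS]
    exact Finset.single_le_sum (f := fun k => ∑ i ∈ range L, c k i)
      (fun k _ => Finset.sum_nonneg fun i _ => hc k i) (Finset.mem_univ k)
  obtain ⟨D, hD⟩ : ∃ D : ℝ, D = σ * L + L * (C + L * C) := ⟨_, rfl⟩
  have hD0 : 0 ≤ D := by rw [hD]; positivity
  obtain ⟨C1, hC1⟩ : ∃ C1 : ℝ, C1 = L * (C * L ^ 2 + C * L) := ⟨_, rfl⟩
  have hC10 : 0 ≤ C1 := by rw [hC1]; positivity
  obtain ⟨C4, hC4⟩ : ∃ C4 : ℝ, C4 = S * D + S * ((D + C1) ^ 2 + C1) := ⟨_, rfl⟩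
  have hC40 : 0 ≤ C4 := by rw [hC4]; positivity
  obtain ⟨C5, hC5⟩ : ∃ C5 : ℝ, C5 = S * ((D + C1) ^ 2 + C1) +
    2 * (S * D + S * ((D + C1) ^ 2 + C1)) ^ 2 := ⟨_, rfl⟩
  have hC50 : 0 ≤ C5 := by rw [hC5]; positivity
  refine ⟨C5 + 1, by linarith, min 1 (min (1 / (D + C1 + 1)) (1 / (2 * (C4 + 1)))), by positivity,
    min_le_left _ _, fun t ht htt n => ?_⟩
  have ht1 : t ≤ 1 := htt.trans (min_le_left _ _)
  have ht2 : (D + C1) * t ≤ 1 := by
    have h1 : t ≤ 1 / (D + C1 + 1) := htt.trans ((min_le_right _ _).trans (min_le_left _ _))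
    rw [le_div_iff₀ (by positivity)] at h1
    nlinarith
  have ht3 : (S * D + S * ((D + C1) ^ 2 + C1)) * t ≤ 1 / 2 := by
    rw [← hC4]
    have h1 : t ≤ 1 / (2 * (C4 + 1)) := htt.trans ((min_le_right _ _).trans (min_le_right _ _))
    rw [le_div_iff₀ (by positivity)] at h1
    nlinarith
  obtain ⟨z, hz⟩ : ∃ z, z = Real.exp (-(t * (n : ℝ))) := ⟨_, rfl⟩
  have hz0 : 0 ≤ z := by rw [hz]; exact Real.exp_nonneg _
  have hpos : 0 ≤ t * (n : ℝ) := by positivity
  have hz1 : z ≤ 1 := by rw [hz]; exact Real.exp_le_one_iff.mpr (by linarith)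
  have hzpow : Real.exp (-t) ^ n = z := by
    rw [← Real.exp_nat_mul, hz]; congr 1; ring
  have hd : ∀ i ∈ range L, |σ * ((i : ℝ) + 1) + ∑ j ∈ range i, (q ((n : ZMod M) + 1 + j) (t * n) +
      (1 + j) * g1 ((n : ZMod M) + 1 + j) (t * n))| ≤ D := by
    intro i hi
    have hiL : i < L := Finset.mem_range.mp hi
    have hiL' : (i : ℝ) + 1 ≤ L := by
      have : i + 1 ≤ L := hiL
      exact_mod_cast this
    have hi0 : (0 : ℝ) ≤ i := by positivity
    refine (abs_add_le _ _).trans ?_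
    have h1 : |σ * ((i : ℝ) + 1)| ≤ σ * L := by
      rw [abs_of_nonneg (by positivity)]
      gcongr
    have h2 : |∑ j ∈ range i, (q ((n : ZMod M) + 1 + j) (t * n) +
        (1 + j) * g1 ((n : ZMod M) + 1 + j) (t * n))| ≤ L * (C + L * C) := by
      refine (Finset.abs_sum_le_sum_abs _ _).trans ?_
      calc ∑ j ∈ range i, |q ((n : ZMod M) + 1 + j) (t * n) +
          (1 + j) * g1 ((n : ZMod M) + 1 + j) (t * n)| ≤ ∑ j ∈ range i, (C + L * C) := by
            apply Finset.sum_le_sum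
            intro j hj
            have hjL : (1 : ℝ) + j ≤ L := by
              have : j + 1 ≤ L := by have := Finset.mem_range.mp hj; omega
              have h : ((j + 1 : ℕ) : ℝ) ≤ L := by exact_mod_cast this
              push_cast at h
              linarith
            have hj0 : (0 : ℝ) ≤ 1 + j := by positivity
            have h3 := (hq ((n : ZMod M) + 1 + j)).b0 _ hpos
            have h4 := (hg ((n : ZMod M) + 1 + j)).b1 _ hpos
            have h5 : C * Real.exp (-(t * (n : ℝ))) ≤ C := by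
              rw [← hz]
              nlinarith
            refine (abs_add_le _ _).trans ?_
            rw [abs_mul, abs_of_nonneg hj0]
            have h6 : |q ((n : ZMod M) + 1 + j) (t * n)| ≤ C := h3.trans h5
            have h7 : |g1 ((n : ZMod M) + 1 + j) (t * n)| ≤ C := h4.trans h5
            have h8 : (1 + (j : ℝ)) * |g1 ((n : ZMod M) + 1 + j) (t * n)| ≤ L * C :=
              mul_le_mul hjL h7 (abs_nonneg _) (by positivity)
            exact add_le_add h6 h8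
        _ = i * (C + L * C) := by rw [Finset.sum_const, Finset.card_range, nsmul_eq_mul]
        _ ≤ L * (C + L * C) := by
            have h0 : (0 : ℝ) ≤ C + L * C := by positivity
            have : (i : ℝ) ≤ L := by linarith
            gcongr
    rw [hD]
    exact add_le_add h1 h2
  have hs : ∀ i ∈ range L, |t * (σ * ((i : ℝ) + 1)) + ∑ j ∈ range i, Xw g q t (n + 1 + j) -
      (∑ j ∈ range i, g ((n : ZMod M) + 1 + j) (t * n)) - t * (σ * ((i : ℝ) + 1) +
        ∑ j ∈ range i, (q ((n : ZMod M) + 1 + j) (t * n) +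
          (1 + j) * g1 ((n : ZMod M) + 1 + j) (t * n)))| ≤ C1 * t ^ 2 := by
    intro i hi
    have hiL : i < L := Finset.mem_range.mp hi
    have hiL' : (i : ℝ) ≤ L := by exact_mod_cast hiL.le
    have h1 : t * (σ * ((i : ℝ) + 1)) + ∑ j ∈ range i, Xw g q t (n + 1 + j) -
        (∑ j ∈ range i, g ((n : ZMod M) + 1 + j) (t * n)) - t * (σ * ((i : ℝ) + 1) +
          ∑ j ∈ range i, (q ((n : ZMod M) + 1 + j) (t * n) +
            (1 + j) * g1 ((n : ZMod M) + 1 + j) (t * n))) =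
        ∑ j ∈ range i, (Xw g q t (n + 1 + j) - (g ((n : ZMod M) + 1 + j) (t * n) +
          t * (q ((n : ZMod M) + 1 + j) (t * n) +
            (1 + j) * g1 ((n : ZMod M) + 1 + j) (t * n)))) := by
      simp only [Finset.sum_sub_distrib, Finset.sum_add_distrib, ← Finset.mul_sum]
      ring
    rw [h1]
    refine (Finset.abs_sum_le_sum_abs _ _).trans ?_
    calc ∑ j ∈ range i, |Xw g q t (n + 1 + j) - (g ((n : ZMod M) + 1 + j) (t * n) +
          t * (q ((n : ZMod M) + 1 + j) (t * n) +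
            (1 + j) * g1 ((n : ZMod M) + 1 + j) (t * n)))|
        ≤ ∑ j ∈ range i, (C * L ^ 2 + C * L) * t ^ 2 := by
          apply Finset.sum_le_sum
          intro j hj
          exact Xw_shift hg hq ht n L j (by have := Finset.mem_range.mp hj; omega)
      _ = i * ((C * L ^ 2 + C * L) * t ^ 2) := by
          rw [Finset.sum_const, Finset.card_range, nsmul_eq_mul]
      _ ≤ L * ((C * L ^ 2 + C * L) * t ^ 2) := by gcongr
      _ = C1 * t ^ 2 := by rw [hC1]; ring
  have hcore := resid_core L (c n)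
    (fun i => t * (σ * (i + 1)) + ∑ j ∈ range i, Xw g q t (n + 1 + j))
    (fun i => ∑ j ∈ range i, g ((n : ZMod M) + 1 + j) (t * n))
    (fun i => σ * (i + 1) + ∑ j ∈ range i, (q ((n : ZMod M) + 1 + j) (t * n) +
      (1 + j) * g1 ((n : ZMod M) + 1 + j) (t * n)))
    (z := z) (t := t) (S := S) (D := D) (C1 := C1) hz0 hz1 ht (fun i => hc _ i) (hSk _)
    (fun i _ => Finset.sum_nonneg fun j _ => hg0 _ _ hpos) hd hs
    hD0 hC10 ht1 ht2 ht3
  have hlogeq : z * ∑ i ∈ range L, c n i * Real.exp (-(t * (σ * ((i : ℝ) + 1)) +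
        ∑ j ∈ range i, Xw g q t (n + 1 + j))) =
      ∑ i ∈ range L, c n i * Real.exp (-t * (n + σ * (i + 1))) *
          Real.exp (-∑ j ∈ range i, Xw g q t (n + 1 + j)) := by
    rw [Finset.mul_sum]
    refine Finset.sum_congr rfl fun i _ => ?_
    have h1 : Real.exp (-(t * (σ * ((i : ℝ) + 1)) + ∑ j ∈ range i, Xw g q t (n + 1 + j))) =
        Real.exp (-(t * (σ * ((i : ℝ) + 1)))) * Real.exp (-∑ j ∈ range i, Xw g q t (n + 1 + j)) := by
      rw [← Real.exp_add]; congr 1; ring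
    have h2 : Real.exp (-t * (n + σ * (i + 1))) = z * Real.exp (-(t * (σ * ((i : ℝ) + 1)))) := by
      rw [hz, ← Real.exp_add]; congr 1; ring
    rw [h1, h2]
    ring
  have hφ' := hφ (n : ZMod M) (t * n) hpos
  have hψ' := hψ (n : ZMod M) (t * n) hpos
  rw [← hz] at hφ' hψ'
  rw [hφ', hψ', hlogeq, ← hC5] at hcore
  rw [hzpow]
  have hX : Xw g q t n = g n (t * n) + t * q n (t * n) := rfl
  rw [hX]
  refine hcore.trans ?_
  have : 0 ≤ t ^ 2 * z := by positivity
  nlinarith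

theorem phi_eq {L : ℕ} {c : ZMod M → ℕ → ℝ} {φ : ℝ → (ZMod M → ℝ)}
    (hφs : ∀ z, 0 ≤ z → Fm L c (z, φ z) = 0) (k : ZMod M) (u : ℝ) (_hu : 0 ≤ u) :
    Real.log (1 + Real.exp (-u) *
      ∑ i ∈ range L, c k i * Real.exp (-(∑ j ∈ range i, φ (Real.exp (-u)) (k + 1 + j)))) =
      φ (Real.exp (-u)) k := by
  have h1 := congrFun (hφs (Real.exp (-u)) (Real.exp_nonneg _)) k
  simp only [Fm, Pi.zero_apply] at h1
  unfold Qf Sg at h1
  linarith

theorem psi_eq {L : ℕ} {c : ZMod M → ℕ → ℝ} {σ : ℝ} {φ ψ : ℝ → (ZMod M → ℝ)}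
    (hψs : ∀ z, 0 ≤ z → ∀ k, ψ z k + ∑ i ∈ range L, pf L c z (φ z) k i * Sg (ψ z) k i =
        rhs L c σ φ z k) (k : ZMod M) (u : ℝ) (_hu : 0 ≤ u) :
    -∑ i ∈ range L, Real.exp (-u) * c k i *
        Real.exp (-(∑ j ∈ range i, φ (Real.exp (-u)) (k + 1 + j))) /
        (1 + Real.exp (-u) * ∑ i ∈ range L, c k i *
          Real.exp (-(∑ j ∈ range i, φ (Real.exp (-u)) (k + 1 + j)))) *
        (σ * (i + 1) + ∑ j ∈ range i, (ψ (Real.exp (-u)) (k + 1 + j) +
          (1 + j) * -(Real.exp (-u) * deriv (fun y => φ y (k + 1 + j)) (Real.exp (-u))))) =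
      ψ (Real.exp (-u)) k := by
  obtain ⟨z, hz⟩ : ∃ z, z = Real.exp (-u) := ⟨_, rfl⟩
  rw [← hz]
  have h1 := hψs z (by rw [hz]; exact Real.exp_nonneg _) k
  have h2 : ψ z k = rhs L c σ φ z k - ∑ i ∈ range L, pf L c z (φ z) k i * Sg (ψ z) k i := by
    linarith
  rw [h2]
  unfold rhs
  rw [← neg_add', ← Finset.sum_add_distrib]
  congr 1
  refine Finset.sum_congr rfl fun i _ => ?_
  have h3 : pf L c z (φ z) k i = z * c k i * Real.exp (-(∑ j ∈ range i, φ z (k + 1 + j))) /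
      (1 + z * ∑ i ∈ range L, c k i * Real.exp (-(∑ j ∈ range i, φ z (k + 1 + j)))) := rfl
  rw [← h3, ← mul_add]
  congr 1
  unfold Sg
  rw [Finset.sum_add_distrib, sub_add, sub_eq_add_neg]
  congr 1
  rw [neg_sub, sub_eq_add_neg]
  congr 1
  rw [← Finset.sum_neg_distrib]
  refine Finset.sum_congr rfl fun j _ => ?_
  ring

/-- The asymptotic expansion of solutions of the recursion. -/
theorem wkb [NeZero M] (L K₀ : ℕ) (c : ZMod M → ℕ → ℝ) (hc : ∀ k i, 0 ≤ c k i) {σ : ℝ}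
    (hσ : 0 ≤ σ) (hpos : ∃ k, ∃ i < L, 0 < c k i) :
    ∃ A > 0, ∀ H : ℕ → ℝ → ℝ, (∀ n t, 0 < t → 0 < H n t) →
      (∀ t, 0 < t → Tendsto (fun n => H n t) atTop (𝓝 1)) →
      (∀ n ≥ K₀, ∀ t, 0 < t → H n t = H (n + 1) t +
        ∑ i ∈ range L, c n i * Real.exp (-t * (n + σ * (i + 1))) * H (n + 1 + i) t) →
      ∀ n ≥ K₀, ∃ B, Tendsto (fun t => Real.log (H n t) - A / t) (𝓝[>] 0) (𝓝 B) := by
  have hM : 0 < M := Nat.pos_of_ne_zero (NeZero.ne M)
  obtain ⟨φ, hφs, hφc⟩ := exists_phi (L := L) hc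
  obtain ⟨ψ, hψc, hψ0, hψs⟩ := exists_psi (L := L) hc σ φ hφs hφc
  have hφ0 : φ 0 = 0 := sol_unique hc (le_refl _) (hφs 0 (le_refl _)) sol_zero
  -- regularity
  have hg' : ∀ j : ZMod M, ∃ C, T2 (fun u => φ (Real.exp (-u)) j)
      (fun u => -(Real.exp (-u) * deriv (fun y => φ y j) (Real.exp (-u)))) C := fun j =>
    exists_T2 (f := fun y => φ y j)
      (fun z hz => ((contDiffAt_pi.mp (hφc z hz.1)) j).of_le (by norm_num)) (by
        rw [hφ0]; rfl)
  have hq' : ∀ j : ZMod M, ∃ C, T1 (fun u => ψ (Real.exp (-u)) j) C := fun j =>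
    exists_T1 (f := fun y => ψ y j)
      (fun z hz => ((contDiffAt_pi.mp (hψc z hz.1)) j)) (by
        rw [hψ0]; rfl)
  choose Cg hCg using hg'
  choose Cq hCq using hq'
  set C := ∑ j : ZMod M, (Cg j + Cq j) with hC
  have hCj : ∀ j, Cg j + Cq j ≤ C := fun j =>
    Finset.single_le_sum (f := fun j => Cg j + Cq j)
      (fun j _ => add_nonneg (hCg j).nonneg (hCq j).nonneg) (Finset.mem_univ j)
  have hg : ∀ j, T2 (fun u => φ (Real.exp (-u)) j)
      (fun u => -(Real.exp (-u) * deriv (fun y => φ y j) (Real.exp (-u)))) C := fun j =>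
    (hCg j).mono (by have := (hCq j).nonneg; linarith [hCj j])
  have hq : ∀ j, T1 (fun u => ψ (Real.exp (-u)) j) C := fun j =>
    (hCq j).mono (by have := (hCg j).nonneg; linarith [hCj j])
  have hφnn : ∀ z, 0 ≤ z → ∀ j, 0 ≤ φ z j := fun z hz j => (sol_bounds hc hz (φ z) (hφs z hz) j).1
  obtain ⟨C', hC', t₁, ht₁, ht₁1, hres⟩ := Xw_resid (L := L) hc hσ hg hq
    (fun j u _ => hφnn _ (Real.exp_nonneg _) j) (phi_eq hφs) (psi_eq hψs)
  set A : ℝ := (∑ j : ZMod M, ∫ s in Set.Ioi 0, φ (Real.exp (-s)) j) / M with hA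
  -- positivity of A
  have hApos : 0 < A := by
    obtain ⟨k, i, hi, hki⟩ := hpos
    have hint : ∀ j, IntegrableOn (fun s => φ (Real.exp (-s)) j) (Set.Ioi 0) := fun j =>
      decay_integrable (hg j).cont (hg j).b0
    have hnn : ∀ j, 0 ≤ ∫ s in Set.Ioi 0, φ (Real.exp (-s)) j := fun j =>
      setIntegral_nonneg measurableSet_Ioi fun s _ => hφnn _ (Real.exp_nonneg _) j
    have hφk : ∀ z, 0 < z → 0 < φ z k := by
      intro z hz
      have h1 := congrFun (hφs z hz.le) k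
      simp only [Fm, Pi.zero_apply] at h1
      have h2 : φ z k = Real.log (Qf L c z (φ z) k) := by linarith
      rw [h2]
      apply Real.log_pos
      unfold Qf
      have h3 : 0 < ∑ i ∈ range L, c k i * Real.exp (-(Sg (φ z) k i)) :=
        Finset.sum_pos' (fun i _ => mul_nonneg (hc k i) (Real.exp_nonneg _))
          ⟨i, Finset.mem_range.mpr hi, mul_pos hki (Real.exp_pos _)⟩
      have := mul_pos hz h3
      linarith
    have hk : 0 < ∫ s in Set.Ioi 0, φ (Real.exp (-s)) k := by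
      rw [setIntegral_pos_iff_support_of_nonneg_ae]
      · have h1 : Function.support (fun s => φ (Real.exp (-s)) k) ∩ Set.Ioi 0 = Set.Ioi 0 := by
          apply Set.inter_eq_right.mpr
          intro s _
          exact (hφk _ (Real.exp_pos _)).ne'
        rw [h1]
        simp
      · exact ae_of_all _ fun s => hφnn _ (Real.exp_nonneg _) k
      · exact hint k
    have hsum : 0 < ∑ j : ZMod M, ∫ s in Set.Ioi 0, φ (Real.exp (-s)) j :=
      Finset.sum_pos' (fun j _ => hnn j) ⟨k, Finset.mem_univ k, hk⟩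
    have hMR : (0 : ℝ) < M := by exact_mod_cast hM
    exact div_pos hsum hMR
  refine ⟨A, hApos, fun H hHpos hHlim hHrec n hn => ?_⟩
  obtain ⟨B, hB⟩ := sum_expansion hg hq n
  refine ⟨B, ?_⟩
  have htail : ∀ t : ℝ, tail (Xw (fun j u => φ (Real.exp (-u)) j)
      (fun j u => ψ (Real.exp (-u)) j) t) n = ∑' i : ℕ,
        (φ (Real.exp (-(t * (n + i : ℕ)))) ((n + i : ℕ) : ZMod M) +
          t * ψ (Real.exp (-(t * (n + i : ℕ)))) ((n + i : ℕ) : ZMod M)) := fun t => rfl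
  have hcomp : ∀ t : ℝ, 0 < t → t ≤ t₁ →
      |Real.log (H n t) - tail (Xw (fun j u => φ (Real.exp (-u)) j)
      (fun j u => ψ (Real.exp (-u)) j) t) n| ≤ 2 * C' * t := by
    intro t ht htt
    have hr : Real.exp (-t) < 1 := by
      rw [Real.exp_lt_one_iff]; linarith
    have hgeo := summable_geometric_of_lt_one (Real.exp_pos (-t)).le hr
    have h1 := compare (L := L) (K₀ := K₀)
      (w := fun n i => c n i * Real.exp (-t * (n + σ * (i + 1))))
      (fun n i => mul_nonneg (hc _ _) (Real.exp_nonneg _))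
      (H := fun n => H n t) (X := Xw (fun j u => φ (Real.exp (-u)) j)
        (fun j u => ψ (Real.exp (-u)) j) t)
      (ρ := fun n => C' * t ^ 2 * Real.exp (-t) ^ n)
      (fun n hn => hHrec n hn t ht) (fun n => hHpos n t ht) (hHlim t ht)
      (Xw_summable hg hq ht) (fun n => by positivity) (hgeo.mul_left _)
      (fun n _ => hres t ht htt n) n hn
    refine h1.trans ?_
    unfold tail
    have h2 : ∑' i : ℕ, C' * t ^ 2 * Real.exp (-t) ^ (n + i) ≤
        ∑' i : ℕ, C' * t ^ 2 * Real.exp (-t) ^ i := by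
      apply Summable.tsum_le_tsum
      · intro i
        have : Real.exp (-t) ^ (n + i) ≤ Real.exp (-t) ^ i :=
          pow_le_pow_of_le_one (Real.exp_pos _).le hr.le (by omega)
        gcongr
      · have := (summable_nat_add_iff n).mpr (hgeo.mul_left (C' * t ^ 2))
        simpa [add_comm] using this
      · exact hgeo.mul_left _
    refine h2.trans ?_
    rw [tsum_mul_left, tsum_geometric_of_lt_one (Real.exp_pos _).le hr]
    have h3 : Real.exp (-t) ≤ 1 - t / 2 := by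
      have h4 : Real.exp (-t) ≤ 1 / (1 + t) := by
        rw [Real.exp_neg, inv_eq_one_div]
        apply one_div_le_one_div_of_le (by linarith)
        have := Real.add_one_le_exp t
        linarith
      refine h4.trans ?_
      rw [div_le_iff₀ (by linarith)]
      nlinarith
    have h5 : (1 - Real.exp (-t))⁻¹ ≤ 2 / t := by
      rw [inv_eq_one_div, div_le_div_iff₀ (by linarith) ht]
      linarith
    calc C' * t ^ 2 * (1 - Real.exp (-t))⁻¹ ≤ C' * t ^ 2 * (2 / t) := by gcongr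
      _ = 2 * C' * t := by field_simp
  -- conclude
  have hdiff : Tendsto (fun t => Real.log (H n t) - tail (Xw (fun j u => φ (Real.exp (-u)) j)
      (fun j u => ψ (Real.exp (-u)) j) t) n) (𝓝[>] 0) (𝓝 0) := by
    have hlim0 : Tendsto (fun t : ℝ => 2 * C' * t) (𝓝[>] 0) (𝓝 0) := by
      have : Tendsto (fun t : ℝ => 2 * C' * t) (𝓝 0) (𝓝 (2 * C' * 0)) :=
        (continuous_const.mul continuous_id).tendsto 0
      rw [mul_zero] at this
      exact this.mono_left nhdsWithin_le_nhds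
    apply squeeze_zero_norm' _ hlim0
    have h1 : ∀ᶠ t : ℝ in 𝓝[>] 0, t < t₁ := nhdsWithin_le_nhds (gt_mem_nhds ht₁)
    filter_upwards [self_mem_nhdsWithin, h1] with t ht ht1
    rw [Real.norm_eq_abs]
    exact hcomp t ht ht1.le
  have := hdiff.add hB
  rw [zero_add] at this
  refine this.congr fun t => ?_
  rw [htail t]
  ring

end Pool.Agent.W_MP_af6696_nt
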