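import Mathlib
import Pool.Agent.W_MP_af6696_nt.Gen
import Pool.Agent.W_MP_af6696_nt.WKB
import Pool.Agent.W_MP_af6696_nt.Trig
import Pool.Agent.W_MP_af6696_nt.Local2

set_option autoImplicit false

namespace Pool.Agent.W_MP_af6696_nt

open Filter Topology Finset

/-- Propagation of the asymptotics to small indices. -/
theorem propagate {L K₀ : ℕ} {H : ℕ → ℝ → ℝ} {A σ : ℝ} (hpos : ∀ n t, 0 < t → 0 < H n t)
    (hlog : ∀ n ≥ K₀, ∃ B, Tendsto (fun t => Real.log (H n t) - A / t) (𝓝[>] 0) (𝓝 B))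
    (a : ℕ → ℕ → ℝ) (ha : ∀ n i, 0 ≤ a n i)
    (hrec : ∀ n, ∀ t, 0 < t → H n t = H (n + 1) t +
      ∑ i ∈ range L, a n i * Real.exp (-t * (n + σ * (i + 1))) * H (n + 1 + i) t) :
    ∀ n, ∃ K > 0, Tendsto (fun t => H n t * Real.exp (-A / t)) (𝓝[>] 0) (𝓝 K) := by
  have hbase : ∀ n ≥ K₀, ∃ K > 0, Tendsto (fun t => H n t * Real.exp (-A / t)) (𝓝[>] 0) (𝓝 K) := by
    intro n hn
    obtain ⟨B, hB⟩ := hlog n hn
    refine ⟨Real.exp B, Real.exp_pos _, ?_⟩
    have h1 := (Real.continuous_exp.tendsto B).comp hB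
    refine h1.congr' ?_
    filter_upwards [self_mem_nhdsWithin] with t ht
    simp only [Function.comp]
    rw [sub_eq_add_neg, Real.exp_add, Real.exp_log (hpos n t ht), neg_div]
  have key : ∀ m n : ℕ, K₀ ≤ n + m →
      ∃ K > 0, Tendsto (fun t => H n t * Real.exp (-A / t)) (𝓝[>] 0) (𝓝 K) := by
    intro m
    induction m with
    | zero => intro n hn; exact hbase n (by simpa using hn)
    | succ m ih =>
      intro n hn
      have h1 : ∀ i : ℕ, ∃ K > 0,
          Tendsto (fun t => H (n + 1 + i) t * Real.exp (-A / t)) (𝓝[>] 0) (𝓝 K) :=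
        fun i => ih (n + 1 + i) (by omega)
      choose K hK0 hK using h1
      refine ⟨K 0 + ∑ i ∈ range L, a n i * K i, ?_, ?_⟩
      · have : 0 ≤ ∑ i ∈ range L, a n i * K i :=
          Finset.sum_nonneg fun i _ => mul_nonneg (ha n i) (hK0 i).le
        have := hK0 0
        linarith
      · have h2 : Tendsto (fun t => H (n + 1 + 0) t * Real.exp (-A / t) +
            ∑ i ∈ range L, a n i * Real.exp (-t * (n + σ * (i + 1))) *
              (H (n + 1 + i) t * Real.exp (-A / t))) (𝓝[>] 0)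
            (𝓝 (K 0 + ∑ i ∈ range L, a n i * 1 * K i)) := by
          apply (hK 0).add
          apply tendsto_finsetSum
          intro i _
          apply Tendsto.mul _ (hK i)
          apply Tendsto.const_mul
          have h3 : Tendsto (fun t : ℝ => Real.exp (-t * (n + σ * (i + 1)))) (𝓝 0)
              (𝓝 (Real.exp (-0 * (n + σ * (i + 1))))) := by
            apply Continuous.tendsto
            fun_prop
          rw [neg_zero, zero_mul, Real.exp_zero] at h3
          exact h3.mono_left nhdsWithin_le_nhds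
        simp only [mul_one] at h2
        refine h2.congr' ?_
        filter_upwards [self_mem_nhdsWithin] with t ht
        rw [hrec n t ht, add_mul, Finset.sum_mul, add_zero]
        congr 1
        refine Finset.sum_congr rfl fun i _ => ?_
        ring
  exact fun n => key K₀ n (by omega)

variable {M : ℕ} [NeZero M]

/-- gap read off from the larger part -/
def ok0 (b : ZMod M → ℕ) (x y : ℕ) : Prop := x + b (y : ZMod M) ≤ y

/-- gap read off from the smaller part -/
def ok1 (b : ZMod M → ℕ) (x y : ℕ) : Prop := x + b (x : ZMod M) ≤ y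

omit [NeZero M] in
theorem exp_neg_lt {t : ℝ} (ht : 0 < t) : Real.exp (-t) < 1 := by
  rw [Real.exp_lt_one_iff]; linarith

open Classical in
omit [NeZero M] in
theorem rec0 (b : ZMod M → ℕ) {L : ℕ} (hb1 : ∀ k, 1 ≤ b k) (hbL : ∀ k, b k ≤ L) {al : ℕ → Prop}
    (h0 : ¬ al 0) (n : ℕ) {t : ℝ} (ht : 0 < t) :
    G (Fam al (ok0 b) (fun x => n + b (x : ZMod M) ≤ x)) (Real.exp (-t)) =
      G (Fam al (ok0 b) (fun x => n + 1 + b (x : ZMod M) ≤ x)) (Real.exp (-t)) +
      ∑ i ∈ range L, (if al (n + 1 + i) ∧ b ((n : ZMod M) + (i + 1 : ℕ)) = i + 1 then (1 : ℝ) else 0) *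
        Real.exp (-t * (n + 1 * (i + 1))) *
        G (Fam al (ok0 b) (fun x => n + 1 + i + b (x : ZMod M) ≤ x)) (Real.exp (-t)) := by
  set I : Finset ℕ := (range L).filter
    (fun i => al (n + 1 + i) ∧ b ((n : ZMod M) + (i + 1 : ℕ)) = i + 1) with hI
  set E : Finset ℕ := I.image (fun i => n + 1 + i) with hEdef
  have hcast : ∀ i : ℕ, ((n + 1 + i : ℕ) : ZMod M) = (n : ZMod M) + (i + 1 : ℕ) := by
    intro i; push_cast; ring
  have hE : ∀ e, e ∈ E ↔ al e ∧ (n + b (e : ZMod M) ≤ e) ∧ ¬ (n + 1 + b (e : ZMod M) ≤ e) := by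
    intro e
    rw [hEdef, Finset.mem_image]
    constructor
    · rintro ⟨i, hi, rfl⟩
      rw [hI, Finset.mem_filter] at hi
      obtain ⟨-, h1, h2⟩ := hi
      rw [hcast i, h2]
      refine ⟨h1, by omega, by omega⟩
    · rintro ⟨h1, h2, h3⟩
      have h4 := hb1 (e : ZMod M)
      have h5 := hbL (e : ZMod M)
      refine ⟨e - n - 1, ?_, by omega⟩
      have h6 : n + 1 + (e - n - 1) = e := by omega
      rw [hI, Finset.mem_filter, ← hcast, h6]
      refine ⟨by rw [Finset.mem_range]; omega, h1, by omega⟩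
  have hpeel := G_peel (ok := ok0 b) h0 (P := fun x => n + b (x : ZMod M) ≤ x)
    (P' := fun x => n + 1 + b (x : ZMod M) ≤ x) (fun x hx => by
      have : n + 1 + b (x : ZMod M) ≤ x := hx
      show n + b (x : ZMod M) ≤ x
      omega)
    (fun x y hx hy hx' hyx hok => by
      have h1 : n + b (x : ZMod M) ≤ x := hx
      have h2 : n + b (y : ZMod M) ≤ y := hy
      have h3 : ¬ (n + 1 + b (x : ZMod M) ≤ x) := hx'
      have h4 : y + b (x : ZMod M) ≤ x := hok
      have h5 := hb1 (y : ZMod M)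
      omega) E hE (Real.exp_pos (-t)).le (exp_neg_lt ht)
  rw [hpeel]
  congr 1
  rw [hEdef, Finset.sum_image (by intro i _ j _ h; simpa using h), hI, Finset.sum_filter]
  refine Finset.sum_congr rfl fun i _ => ?_
  by_cases h : al (n + 1 + i) ∧ b ((n : ZMod M) + (i + 1 : ℕ)) = i + 1
  · rw [if_pos h, if_pos h, one_mul]
    congr 1
    · rw [← Real.exp_nat_mul]
      congr 1
      push_cast
      ring
    · congr 1
      unfold Fam
      ext S
      constructor
      · rintro ⟨h1, h2⟩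
        exact ⟨h1, fun x hx => (h2 x hx).2.1⟩
      · rintro ⟨h1, h2⟩
        refine ⟨h1, fun x hx => ?_⟩
        have h3 : n + 1 + i + b (x : ZMod M) ≤ x := h2 x hx
        have h4 := hb1 (x : ZMod M)
        refine ⟨by omega, h3, ?_⟩
        show n + b (x : ZMod M) ≤ x
        omega
  · rw [if_neg h, if_neg h, zero_mul, zero_mul]

open Classical in
omit [NeZero M] in
theorem rec1 (b : ZMod M → ℕ) {L : ℕ} (hb1 : ∀ k, 1 ≤ b k) (hbL : ∀ k, b k ≤ L) {al : ℕ → Prop}
    (h0 : ¬ al 0) (n : ℕ) {t : ℝ} (ht : 0 < t) :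
    G (Fam al (ok1 b) (fun x => n ≤ x)) (Real.exp (-t)) =
      G (Fam al (ok1 b) (fun x => n + 1 ≤ x)) (Real.exp (-t)) +
      ∑ i ∈ range L, (if al n ∧ b (n : ZMod M) = i + 1 then (1 : ℝ) else 0) *
        Real.exp (-t * (n + 0 * (i + 1))) *
        G (Fam al (ok1 b) (fun x => n + 1 + i ≤ x)) (Real.exp (-t)) := by
  set E : Finset ℕ := if al n then {n} else ∅ with hEdef
  have hE : ∀ e, e ∈ E ↔ al e ∧ n ≤ e ∧ ¬ (n + 1 ≤ e) := by
    intro e
    rw [hEdef]
    by_cases h : al n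
    · rw [if_pos h, Finset.mem_singleton]
      constructor
      · rintro rfl
        exact ⟨h, le_refl _, by omega⟩
      · rintro ⟨-, h1, h2⟩
        omega
    · rw [if_neg h]
      constructor
      · intro h1; simp at h1
      · rintro ⟨h1, h2, h3⟩
        have : e = n := by omega
        rw [this] at h1
        exact absurd h1 h
  have hpeel := G_peel (ok := ok1 b) h0 (P := fun x => n ≤ x)
    (P' := fun x => n + 1 ≤ x) (fun x hx => by
      have : n + 1 ≤ x := hx
      show n ≤ x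
      omega)
    (fun x y hx hy hx' hyx hok => by
      have h1 : n ≤ x := hx
      have h2 : n ≤ y := hy
      have h3 : ¬ (n + 1 ≤ x) := hx'
      omega) E hE (Real.exp_pos (-t)).le (exp_neg_lt ht)
  rw [hpeel]
  congr 1
  rw [hEdef]
  by_cases h : al n
  · rw [if_pos h, Finset.sum_singleton]
    have h4 := hb1 (n : ZMod M)
    have h5 := hbL (n : ZMod M)
    rw [Finset.sum_eq_single_of_mem (b (n : ZMod M) - 1) (by rw [Finset.mem_range]; omega)]
    · rw [if_pos ⟨h, by omega⟩, one_mul]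
      congr 1
      · rw [← Real.exp_nat_mul]
        congr 1
        ring
      · congr 1
        unfold Fam
        ext S
        constructor
        · rintro ⟨h1, h2⟩
          refine ⟨h1, fun x hx => ?_⟩
          have h3 : n + b (n : ZMod M) ≤ x := (h2 x hx).2.1
          show n + 1 + (b (n : ZMod M) - 1) ≤ x
          omega
        · rintro ⟨h1, h2⟩
          refine ⟨h1, fun x hx => ?_⟩
          have h3 : n + 1 + (b (n : ZMod M) - 1) ≤ x := h2 x hx
          refine ⟨by omega, ?_, ?_⟩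
          · show n + b (n : ZMod M) ≤ x
            omega
          · show n ≤ x
            omega
    · intro i _ hi
      rw [if_neg, zero_mul, zero_mul]
      rintro ⟨-, h6⟩
      omega
  · rw [if_neg h, Finset.sum_empty]
    symm
    apply Finset.sum_eq_zero
    intro i _
    rw [if_neg (fun h1 => h h1.1), zero_mul, zero_mul]

/-- Asymptotics of the generating function, gap read off from the larger part. -/
theorem asym0 (b : ZMod M → ℕ) {L : ℕ} (hb1 : ∀ k, 1 ≤ b k) (hbL : ∀ k, b k ≤ L) {al : ℕ → Prop}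
    (h0 : ¬ al 0) {c₀ : ℕ} (hal : ∀ c, c₀ < c → al c) :
    ∃ A > 0, ∃ K > 0, Tendsto (fun t => G {S | Adm al (ok0 b) S} (Real.exp (-t)) *
      Real.exp (-A / t)) (𝓝[>] 0) (𝓝 K) := by
  classical
  set c : ZMod M → ℕ → ℝ := fun k i => if b (k + (i + 1 : ℕ)) = i + 1 then (1 : ℝ) else 0 with hc
  have hc0 : ∀ k i, 0 ≤ c k i := by
    intro k i
    simp only [hc]
    split_ifs <;> norm_num
  have hcpos : ∃ k, ∃ i < L, 0 < c k i := by
    have h1 := hb1 0
    have h2 := hbL 0
    refine ⟨-((b 0 - 1 + 1 : ℕ) : ZMod M), b 0 - 1, by omega, ?_⟩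
    simp only [hc]
    rw [neg_add_cancel, if_pos (by omega)]
    norm_num
  obtain ⟨A, hA, hwkb⟩ := wkb L c₀ c hc0 (σ := 1) zero_le_one hcpos
  set H : ℕ → ℝ → ℝ := fun n t =>
    G (Fam al (ok0 b) (fun x => n + b (x : ZMod M) ≤ x)) (Real.exp (-t)) with hH
  have hHpos : ∀ n t, 0 < t → 0 < H n t := fun n t ht =>
    lt_of_lt_of_le one_pos (G_ge_one h0 _ (Real.exp_pos _).le (exp_neg_lt ht))
  have hHlim : ∀ t, 0 < t → Tendsto (fun n => H n t) atTop (𝓝 1) := fun t ht =>
    G_tendsto_one (ok := ok0 b) (P := fun n x => n + b (x : ZMod M) ≤ x) h0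
      (fun n x hx => by have : n + b (x : ZMod M) ≤ x := hx; omega) (Real.exp_pos _).le
      (exp_neg_lt ht)
  have hrec : ∀ n, ∀ t, 0 < t → H n t = H (n + 1) t +
      ∑ i ∈ range L, (if al (n + 1 + i) ∧ b ((n : ZMod M) + (i + 1 : ℕ)) = i + 1 then (1 : ℝ)
        else 0) * Real.exp (-t * (n + 1 * (i + 1))) * H (n + 1 + i) t := fun n t ht =>
    rec0 b hb1 hbL h0 n ht
  have hrec' : ∀ n ≥ c₀, ∀ t, 0 < t → H n t = H (n + 1) t +
      ∑ i ∈ range L, c n i * Real.exp (-t * (n + 1 * (i + 1))) * H (n + 1 + i) t := by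
    intro n hn t ht
    rw [hrec n t ht]
    congr 1
    refine Finset.sum_congr rfl fun i _ => ?_
    congr 2
    simp only [hc]
    by_cases h : b ((n : ZMod M) + (i + 1 : ℕ)) = i + 1
    · rw [if_pos h, if_pos ⟨hal _ (by omega), h⟩]
    · rw [if_neg h, if_neg (fun h1 => h h1.2)]
  have hlog := hwkb H hHpos hHlim hrec'
  have hprop := propagate (L := L) hHpos hlog _ (fun n i => by split_ifs <;> norm_num) hrec
  choose K hK0 hK using hprop
  -- the full sum
  set E : Finset ℕ := (range L).filter (fun e => al e ∧ ¬ (0 + b (e : ZMod M) ≤ e)) with hEdef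
  have hE : ∀ e, e ∈ E ↔ al e ∧ True ∧ ¬ (0 + b (e : ZMod M) ≤ e) := by
    intro e
    rw [hEdef, Finset.mem_filter, Finset.mem_range]
    constructor
    · rintro ⟨-, h1, h2⟩; exact ⟨h1, trivial, h2⟩
    · rintro ⟨h1, -, h2⟩
      have := hbL (e : ZMod M)
      exact ⟨by omega, h1, h2⟩
  have hfull : ∀ t, 0 < t → G {S | Adm al (ok0 b) S} (Real.exp (-t)) = H 0 t +
      ∑ e ∈ E, Real.exp (-t) ^ e * H e t := by
    intro t ht
    have hpeel := G_peel (ok := ok0 b) h0 (P := fun _ => True)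
      (P' := fun x => 0 + b (x : ZMod M) ≤ x) (fun _ _ => trivial)
      (fun x y _ _ hx' hyx hok => by
        have h3 : ¬ (0 + b (x : ZMod M) ≤ x) := hx'
        have h4 : y + b (x : ZMod M) ≤ x := hok
        omega) E hE (Real.exp_pos (-t)).le (exp_neg_lt ht)
    have h1 : {S | Adm al (ok0 b) S} = Fam al (ok0 b) (fun _ => True) := by
      ext S
      exact ⟨fun h => ⟨h, fun _ _ => trivial⟩, fun h => h.1⟩
    rw [h1, hpeel]
    congr 1
    refine Finset.sum_congr rfl fun e _ => ?_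
    congr 1
    simp only [hH]
    congr 1
    unfold Fam
    ext S
    constructor
    · rintro ⟨h1, h2⟩
      exact ⟨h1, fun x hx => (h2 x hx).2.1⟩
    · rintro ⟨h1, h2⟩
      refine ⟨h1, fun x hx => ?_⟩
      have h3 : e + b (x : ZMod M) ≤ x := h2 x hx
      have h4 := hb1 (x : ZMod M)
      exact ⟨by omega, h3, trivial⟩
  refine ⟨A, hA, K 0 + ∑ e ∈ E, K e, ?_, ?_⟩
  · have : 0 ≤ ∑ e ∈ E, K e := Finset.sum_nonneg fun e _ => (hK0 e).le
    have := hK0 0
    linarith
  · have h2 : Tendsto (fun t => H 0 t * Real.exp (-A / t) +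
        ∑ e ∈ E, Real.exp (-t) ^ e * (H e t * Real.exp (-A / t))) (𝓝[>] 0)
        (𝓝 (K 0 + ∑ e ∈ E, 1 * K e)) := by
      apply (hK 0).add
      apply tendsto_finsetSum
      intro e _
      apply Tendsto.mul _ (hK e)
      have h3 : Tendsto (fun t : ℝ => Real.exp (-t) ^ e) (𝓝 0) (𝓝 (Real.exp (-0) ^ e)) := by
        apply Continuous.tendsto
        fun_prop
      rw [neg_zero, Real.exp_zero, one_pow] at h3
      exact h3.mono_left nhdsWithin_le_nhds
    simp only [one_mul] at h2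
    refine h2.congr' ?_
    filter_upwards [self_mem_nhdsWithin] with t ht
    rw [hfull t ht, add_mul, Finset.sum_mul]
    congr 1
    refine Finset.sum_congr rfl fun e _ => ?_
    ring

/-- Asymptotics of the generating function, gap read off from the smaller part. -/
theorem asym1 (b : ZMod M → ℕ) {L : ℕ} (hb1 : ∀ k, 1 ≤ b k) (hbL : ∀ k, b k ≤ L) {al : ℕ → Prop}
    (h0 : ¬ al 0) {c₀ : ℕ} (hal : ∀ c, c₀ < c → al c) :
    ∃ A > 0, ∃ K > 0, Tendsto (fun t => G {S | Adm al (ok1 b) S} (Real.exp (-t)) *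
      Real.exp (-A / t)) (𝓝[>] 0) (𝓝 K) := by
  classical
  set c : ZMod M → ℕ → ℝ := fun k i => if b k = i + 1 then (1 : ℝ) else 0 with hc
  have hc0 : ∀ k i, 0 ≤ c k i := by
    intro k i
    simp only [hc]
    split_ifs <;> norm_num
  have hcpos : ∃ k, ∃ i < L, 0 < c k i := by
    have h1 := hb1 0
    have h2 := hbL 0
    refine ⟨0, b 0 - 1, by omega, ?_⟩
    simp only [hc]
    rw [if_pos (by omega)]
    norm_num
  obtain ⟨A, hA, hwkb⟩ := wkb L (c₀ + 1) c hc0 (σ := 0) (le_refl _) hcpos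
  set H : ℕ → ℝ → ℝ := fun n t => G (Fam al (ok1 b) (fun x => n ≤ x)) (Real.exp (-t)) with hH
  have hHpos : ∀ n t, 0 < t → 0 < H n t := fun n t ht =>
    lt_of_lt_of_le one_pos (G_ge_one h0 _ (Real.exp_pos _).le (exp_neg_lt ht))
  have hHlim : ∀ t, 0 < t → Tendsto (fun n => H n t) atTop (𝓝 1) := fun t ht =>
    G_tendsto_one (ok := ok1 b) (P := fun n x => n ≤ x) h0
      (fun n x hx => hx) (Real.exp_pos _).le (exp_neg_lt ht)
  have hrec : ∀ n, ∀ t, 0 < t → H n t = H (n + 1) t +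
      ∑ i ∈ range L, (if al n ∧ b (n : ZMod M) = i + 1 then (1 : ℝ)
        else 0) * Real.exp (-t * (n + 0 * (i + 1))) * H (n + 1 + i) t := fun n t ht =>
    rec1 b hb1 hbL h0 n ht
  have hrec' : ∀ n ≥ c₀ + 1, ∀ t, 0 < t → H n t = H (n + 1) t +
      ∑ i ∈ range L, c n i * Real.exp (-t * (n + 0 * (i + 1))) * H (n + 1 + i) t := by
    intro n hn t ht
    rw [hrec n t ht]
    congr 1
    refine Finset.sum_congr rfl fun i _ => ?_
    congr 2
    simp only [hc]
    by_cases h : b (n : ZMod M) = i + 1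
    · rw [if_pos h, if_pos ⟨hal _ (by omega), h⟩]
    · rw [if_neg h, if_neg (fun h1 => h h1.2)]
  have hlog := hwkb H hHpos hHlim hrec'
  have hprop := propagate (L := L) hHpos hlog _ (fun n i => by split_ifs <;> norm_num) hrec
  obtain ⟨K, hK0, hK⟩ := hprop 0
  refine ⟨A, hA, K, hK0, ?_⟩
  have h1 : {S | Adm al (ok1 b) S} = Fam al (ok1 b) (fun x => 0 ≤ x) := by
    ext S
    exact ⟨fun h => ⟨h, fun _ _ => Nat.zero_le _⟩, fun h => h.1⟩
  rw [h1]
  exact hK

omit [NeZero M] in
/-- Coefficient asymptotics from the asymptotics of the generating function. -/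
theorem coeff_asym {al : ℕ → Prop} {ok : ℕ → ℕ → Prop} (h0 : ¬ al 0) {L c₀ : ℕ} (hL : 0 < L)
    (hfar : ∀ x y, x + L ≤ y → ok x y) (hal : ∀ c, c₀ < c → al c) {A K : ℝ} (hA : 0 < A)
    (hK : 0 < K)
    (hlim : Tendsto (fun t => G {S | Adm al ok S} (Real.exp (-t)) * Real.exp (-A / t))
      (𝓝[>] 0) (𝓝 K)) :
    ∃ α β : ℝ, 0 < α ∧ Tendsto (fun n : ℕ => (cf al ok n : ℝ) /
      ((n : ℝ) ^ (-(3 / 4 : ℝ)) * Real.exp (β * Real.sqrt n))) atTop (𝓝 α) := by
  have hnorm : ∀ t : ℝ, 0 < t → ‖Real.exp (-t)‖ < 1 := by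
    intro t ht
    rw [Real.norm_of_nonneg (Real.exp_pos _).le]
    exact exp_neg_lt ht
  have hHS : ∀ t : ℝ, 0 < t → HasSum (fun n : ℕ => (cf al ok n : ℝ) * Real.exp (-t * n))
      (G {S | Adm al ok S} (Real.exp (-t))) := by
    intro t ht
    have h1 := hasSum_cf (𝕜 := ℝ) (ok := ok) h0 (hnorm t ht)
    have h2 : (fun n : ℕ => (cf al ok n : ℝ) * Real.exp (-t * n)) =
        fun n : ℕ => ((cf al ok n : ℕ) : ℝ) * Real.exp (-t) ^ n := by
      funext n
      rw [← Real.exp_nat_mul]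
      congr 2
      ring
    rw [h2]
    exact h1
  have hfR : ∀ t : ℝ, 0 < t → fR (fun n => (cf al ok n : ℝ)) t =
      G {S | Adm al ok S} (Real.exp (-t)) := fun t ht => (hHS t ht).tsum_eq
  obtain ⟨κ, hκ, t₀, ht₀, hunif⟩ := norm_Z_uniform al ok L c₀ hL hfar hal
  have hmain := llt (a := fun n => (cf al ok n : ℝ)) (A := A) (K := K)
    (fun n => Nat.cast_nonneg _) (fun t ht => (hHS t ht).summable) hA hK
    (by
      refine hlim.congr' ?_
      filter_upwards [self_mem_nhdsWithin] with t ht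
      rw [hfR t ht]) hκ ht₀
    (by
      intro t ht htt θ hθ
      obtain ⟨N₀, hN₀⟩ := hunif t ht htt θ hθ
      have hz : ‖(Real.exp (-t) : ℂ) * Complex.exp (θ * Complex.I)‖ < 1 := by
        rw [norm_mul, Complex.norm_exp_ofReal_mul_I, mul_one, Complex.norm_real]
        exact hnorm t ht
      have h1 := Z_tendsto (𝕜 := ℂ) (ok := ok) h0 hz
      have h2 := Z_tendsto (𝕜 := ℝ) (ok := ok) h0 (hnorm t ht)
      have h3 : (∑' m : ℕ, ((cf al ok m : ℝ) : ℂ) *
          Complex.exp ((-(t : ℂ) + (θ : ℂ) * Complex.I) * m)) =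
          ∑' S : Finset ℕ, {S | Adm al ok S}.indicator
            (fun S : Finset ℕ => ((Real.exp (-t) : ℂ) *
              Complex.exp (θ * Complex.I)) ^ (∑ x ∈ S, x)) S := by
        rw [← (hasSum_cf (𝕜 := ℂ) (ok := ok) h0 hz).tsum_eq]
        refine tsum_congr fun m => ?_
        have e2 : Complex.exp ((-(t : ℂ) + (θ : ℂ) * Complex.I) * m) =
            ((Real.exp (-t) : ℂ) * Complex.exp (θ * Complex.I)) ^ m := by
          rw [mul_pow, Complex.ofReal_exp, ← Complex.exp_nat_mul, ← Complex.exp_nat_mul,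
            ← Complex.exp_add]
          congr 1
          push_cast
          ring
        rw [e2, Complex.ofReal_natCast]
      rw [h3, hfR t ht]
      apply le_of_tendsto_of_tendsto h1.norm (h2.const_mul _)
      filter_upwards [eventually_ge_atTop N₀] with N hN
      exact hN₀ N hN)
  refine ⟨_, _, ?_, hmain⟩
  positivity

end Pool.Agent.W_MP_af6696_nt
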